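import Mathlib

/-! MP_3509fd_nt tank (bounded gaps 240), PART A: multidimensional Selberg sieve in per-prime tensor form
(helper83).  All definitions of part A.

Colours: `Col k = Option (Fin k)`; an assignment `a : Pr D N → Col k` colours the primes `D < p < N`,
`d_i = val a i` is the product of the primes with colour `i`.

`lam y a = Σ_c y(c) ∏_p B_p(a_p, c_p)` are the sieve weights, `y(c) = Y(cell of (val c i)_i)`. -/

set_option autoImplicit false

namespace Pool.Agent.MT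

open Finset

/-! ## 1. Colours, per-prime matrices (abstract, `q` = the prime as a real number) -/

/-- colours: none, or one of the `k` indices -/
abbrev Col (k : ℕ) := Option (Fin k)

/-- base change matrix: weights = B · y -/
noncomputable def Bm {k : ℕ} (q : ℝ) : Col k → Col k → ℝ
  | none, none => 1
  | none, some _ => 1 / (q - 1)
  | some _, none => 0
  | some i, some j => if i = j then -(q / (q - 1)) else 0

/-- densities for `Σ 1` -/
noncomputable def K1 {k : ℕ} (q : ℝ) : Col k → Col k → ℝ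
  | none, none => 1
  | none, some _ => 1 / q
  | some _, none => 1 / q
  | some i, some j => if i = j then 1 / q else 0

/-- densities for `Σ θ(n + h_m)` -/
noncomputable def K2 {k : ℕ} (m : Fin k) (q : ℝ) : Col k → Col k → ℝ
  | none, none => 1
  | none, some j => if j = m then 0 else 1 / (q - 1)
  | some i, none => if i = m then 0 else 1 / (q - 1)
  | some i, some j => if i = j ∧ i ≠ m then 1 / (q - 1) else 0

/-- `K1` in `y`-variables -/
noncomputable def M1 {k : ℕ} (q : ℝ) : Col k → Col k → ℝ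
  | none, none => 1
  | none, some _ => 0
  | some _, none => 0
  | some i, some j => if i = j then 1 / (q - 1) else -(1 / (q - 1) ^ 2)

/-- diagonal part of `M1` -/
noncomputable def M1d {k : ℕ} (q : ℝ) : Col k → Col k → ℝ
  | none, none => 1
  | none, some _ => 0
  | some _, none => 0
  | some i, some j => if i = j then 1 / (q - 1) else 0

/-- main part of `K2` in `y`-variables -/
noncomputable def M0 {k : ℕ} (m : Fin k) (q : ℝ) : Col k → Col k → ℝ
  | none, none => 1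
  | none, some j => if j = m then 1 / (q - 1) else 0
  | some i, none => if i = m then 1 / (q - 1) else 0
  | some i, some j => if i = j then (if i = m then 1 / (q - 1) ^ 2 else 1 / (q - 1)) else 0

/-- `Bᵀ K B` for one prime -/
noncomputable def conj {k : ℕ} (q : ℝ) (K : Col k → Col k → ℝ) (c c' : Col k) : ℝ :=
  ∑ a, ∑ b, Bm q a c * K a b * Bm q b c'

section abstr

variable {ι : Type} [Fintype ι] [DecidableEq ι] {k : ℕ}

/-- weights from `y`-variables -/
noncomputable def lam (q : ι → ℝ) (y : (ι → Col k) → ℝ) (a : ι → Col k) : ℝ :=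
  ∑ c : ι → Col k, y c * ∏ p, Bm (q p) (a p) (c p)

/-- bilinear form with tensor kernel -/
noncomputable def form (K : ι → Col k → Col k → ℝ) (x y : (ι → Col k) → ℝ) : ℝ :=
  ∑ a : ι → Col k, ∑ b : ι → Col k, x a * y b * ∏ p, K p (a p) (b p)

/-- the primes of colour `i` -/
def cset (a : ι → Col k) (i : Fin k) : Finset ι := univ.filter fun p => a p = some i

/-- `y(c) = Y(cells)` for a cell function `cl` -/
noncomputable def yy (cl : Finset ι → ℕ) (Y : (Fin k → ℕ) → ℝ) (c : ι → Col k) : ℝ :=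
  Y fun i => cl (cset c i)

/-- one-dimensional mass of a cell -/
noncomputable def VV (q : ι → ℝ) (cl : Finset ι → ℕ) (j : ℕ) : ℝ :=
  ∑ S : Finset ι with cl S = j, ∏ p ∈ S, 1 / (q p - 1)

/-- `∏ (1 + 1/(p-1))` -/
noncomputable def PP (q : ι → ℝ) : ℝ := ∏ p, (1 + 1 / (q p - 1))

/-- `Σ 1/(p-1)^2` -/
noncomputable def EE (q : ι → ℝ) : ℝ := ∑ p, 1 / (q p - 1) ^ 2

end abstr

/-- `Y` lives on cells `< M` and is bounded by `s` -/
structure Grid {k : ℕ} (M : ℕ) (s : ℝ) (Y : (Fin k → ℕ) → ℝ) : Prop where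
  supp : ∀ v, Y v ≠ 0 → ∀ i, v i < M
  bd : ∀ v, |Y v| ≤ s

/-- the grid of cells -/
def grid (k M : ℕ) : Finset (Fin k → ℕ) := Fintype.piFinset fun _ => range M

/-- independent form of the diagonal main term -/
noncomputable def T1 {k : ℕ} (M : ℕ) (V : ℕ → ℝ) (Y : (Fin k → ℕ) → ℝ) : ℝ :=
  ∑ v ∈ grid k M, Y v ^ 2 * ∏ i, V (v i)

/-- independent form of the main term for `θ(n + h_m)` -/
noncomputable def T2 {k : ℕ} (M : ℕ) (V : ℕ → ℝ) (m : Fin k) (Y Y' : (Fin k → ℕ) → ℝ) : ℝ :=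
  ∑ v ∈ grid k M, ∑ s ∈ range M, Y v * Y' (Function.update v m s) * ((∏ i, V (v i)) * V s)

/-! ## 2. The sieve -/

/-- the sieving primes `D < p < N` -/
def PrS (D N : ℕ) : Finset ℕ := (range N).filter fun p => p.Prime ∧ D < p

/-- the same as a type -/
abbrev Pr (D N : ℕ) := {p : ℕ // p ∈ PrS D N}

/-- the prime as a real number -/
def qq (D N : ℕ) (p : Pr D N) : ℝ := ((p : ℕ) : ℝ)

/-- product of a set of primes -/
def val {D N : ℕ} (S : Finset (Pr D N)) : ℕ := ∏ p ∈ S, (p : ℕ)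

/-- the cell of a set of primes: `⌊M log(val S) / log N⌋` -/
noncomputable def cell {D N : ℕ} (M : ℕ) (S : Finset (Pr D N)) : ℕ :=
  ⌊(M : ℝ) * Real.log (val S) / Real.log N⌋₊

/-- the sieve weights -/
noncomputable def lamY {k : ℕ} (D N M : ℕ) (Y : (Fin k → ℕ) → ℝ) : (Pr D N → Col k) → ℝ :=
  lam (qq D N) (yy (cell M) Y)

open Classical in
/-- `val (cset a i) ∣ n + h i` for all `i` -/
noncomputable def ind {D N k : ℕ} (h : Fin k → ℕ) (a : Pr D N → Col k) (n : ℕ) : ℝ :=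
  if ∀ (p : Pr D N) (i : Fin k), a p = some i → (p : ℕ) ∣ n + h i then 1 else 0

/-- the divisor sum `Λ(n)` -/
noncomputable def Lam {k : ℕ} (h : Fin k → ℕ) (D N M : ℕ) (Y : (Fin k → ℕ) → ℝ) (n : ℕ) : ℝ :=
  ∑ a : Pr D N → Col k, lamY D N M Y a * ind h a n

/-- `θ(n) = log n` for `n` prime -/
noncomputable def th (n : ℕ) : ℝ := if n.Prime then Real.log n else 0

/-- `n ∈ [N, 2N)`, `n ≡ b mod W` -/
def rng (W b N : ℕ) : Finset ℕ := (Ico N (2 * N)).filter fun n => n ≡ b [MOD W]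

/-- `Σ Λ(n)²` -/
noncomputable def S1 {k : ℕ} (h : Fin k → ℕ) (D M b N : ℕ) (Y : (Fin k → ℕ) → ℝ) : ℝ :=
  ∑ n ∈ rng (primorial D) b N, Lam h D N M Y n ^ 2

/-- `Σ θ(n + h_m) Λ(n) Λ'(n)` -/
noncomputable def S2 {k : ℕ} (h : Fin k → ℕ) (D M b N : ℕ) (m : Fin k) (Y Y' : (Fin k → ℕ) → ℝ) : ℝ :=
  ∑ n ∈ rng (primorial D) b N, th (n + h m) * (Lam h D N M Y n * Lam h D N M Y' n)

/-- the standard scale `X = (φ(W)/W) log N` -/
noncomputable def XX (D N : ℕ) : ℝ := ((primorial D).totient : ℝ) / (primorial D : ℕ) * Real.log N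

/-- admissible tuple -/
def Admis {k : ℕ} (h : Fin k → ℕ) : Prop := ∀ p : ℕ, p.Prime → ∃ a : ℕ, ∀ i, ¬ p ∣ a + h i

/-- `D` is large enough for `h`: primes above `D` do not divide a difference -/
def Large {k : ℕ} (h : Fin k → ℕ) (D : ℕ) : Prop :=
  ∀ (p : ℕ) (n : ℕ) (i j : Fin k), p.Prime → D < p → i ≠ j → p ∣ n + h i → ¬ p ∣ n + h j

/-- `b` is a good class mod `primorial D` -/
def Good {k : ℕ} (h : Fin k → ℕ) (D b : ℕ) : Prop := ∀ i, (b + h i).Coprime (primorial D)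

/-! ## 3. The hypothesis on primes in progressions (interface to parts B, C, G) -/

/-- pairs of divisor vectors that occur for the index `m` -/
def OK {k : ℕ} (W : ℕ) (m : Fin k) (d e : Fin k → ℕ) : Prop :=
  d m = 1 ∧ e m = 1 ∧ Squarefree (∏ i, d i) ∧ Squarefree (∏ i, e i) ∧
    (∏ i, d i).Coprime W ∧ (∏ i, e i).Coprime W ∧ ∀ i j, i ≠ j → (d i).Coprime (e j)

open Classical in
/-- the error in the count of primes `n + h_m` with `d_i, e_i ∣ n + h_i` (`i ≠ m`), `n ≡ b mod W` -/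
noncomputable def Del {k : ℕ} (h : Fin k → ℕ) (W b N : ℕ) (m : Fin k) (d e : Fin k → ℕ) : ℝ :=
  |∑ n ∈ (rng W b N).filter (fun n => ∀ i, i ≠ m → d i ∣ n + h i ∧ e i ∣ n + h i), th (n + h m) -
    N / (W.totient * ∏ i, (((d i).lcm (e i)).totient : ℝ))|

open Classical in
/-- total error over a box `d_i < N^{t_i}`, `e_i < N^{t'_i}` (`i ≠ m`) -/
noncomputable def BoxErr {k : ℕ} (h : Fin k → ℕ) (W b N : ℕ) (m : Fin k) (t t' : Fin k → ℝ) : ℝ :=
  ∑ d ∈ grid k N, ∑ e ∈ grid k N,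
    if OK W m d e ∧ ∀ i, i ≠ m → (d i : ℝ) < (N : ℝ) ^ t i ∧ (e i : ℝ) < (N : ℝ) ^ t' i
    then Del h W b N m d e else 0

/-- THE HYPOTHESIS of part A: equidistribution for the box `(t, t')` -/
def EH {k : ℕ} (h : Fin k → ℕ) (W b : ℕ) (m : Fin k) (t t' : Fin k → ℝ) : Prop :=
  ∀ A : ℕ, ∀ᶠ N : ℕ in Filter.atTop, BoxErr h W b N m t t' ≤ N / Real.log N ^ A

/-! ## 4. The functionals -/

open MeasureTheory

/-- the nonnegative orthant -/
def Orth (k : ℕ) : Set (Fin k → ℝ) := {t | ∀ i, 0 ≤ t i}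

/-- `I(G) = ∫_U G²` (over nonnegative vectors) -/
noncomputable def Ifun {k : ℕ} (U : Set (Fin k → ℝ)) (G : (Fin k → ℝ) → ℝ) : ℝ :=
  ∫ t in U ∩ Orth k, G t ^ 2

/-- inner integral in the variable `m` -/
noncomputable def inner {k : ℕ} (U : Set (Fin k → ℝ)) (m : Fin k) (G : (Fin k → ℝ) → ℝ) (t : Fin k → ℝ) : ℝ :=
  ∫ s : ℝ, (U ∩ Orth k).indicator G (Function.update t m s)

/-- `J_m(G) = ∫_{Lo} (∫ G dt_m)² dt_{≠ m}`, written as `∫_{t ∈ U ∩ Lo} G(t) (∫ G(t[m := s]) ds) dt`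
(`Lo` must not depend on the coordinate `m`) -/
noncomputable def Jfun {k : ℕ} (Lo U : Set (Fin k → ℝ)) (m : Fin k) (G : (Fin k → ℝ) → ℝ) : ℝ :=
  ∫ t in U ∩ Orth k ∩ Lo, G t * inner U m G t

end Pool.Agent.MT
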