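import Mathlib

/-! Module HW (part A of MP_3509fd_nt): `Σ_{n<x, (n,W)=1} μ²(n)/φ(n) ~ (φ(W)/W) log x`. -/

set_option autoImplicit false

namespace Pool.Agent.MT

open Finset Filter Topology

open Classical in
/-- the counting function -/
noncomputable def HW (W : ℕ) (x : ℝ) : ℝ :=
  ∑ n ∈ (Ico 1 ⌈x⌉₊).filter (fun n => Squarefree n ∧ n.Coprime W), 1 / (n.totient : ℝ)

namespace HWAux

/-- squarefree numbers in `[1, X)` coprime to `W` -/
def Q (W X : ℕ) : Finset ℕ := (Ico 1 X).filter (fun n => Squarefree n ∧ n.Coprime W)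

theorem mem_Q {W X n : ℕ} : n ∈ Q W X ↔ (1 ≤ n ∧ n < X) ∧ Squarefree n ∧ n.Coprime W := by
  rw [Q, mem_filter, mem_Ico]

/-- the counting function -/
noncomputable def G (W X : ℕ) : ℝ := ∑ n ∈ Q W X, 1 / (n.totient : ℝ)

theorem HW_eq (W : ℕ) (x : ℝ) : HW W x = G W ⌈x⌉₊ := by
  unfold HW G Q
  refine sum_congr ?_ fun _ _ => rfl
  ext n
  simp only [mem_filter]

theorem G_nonneg (W X : ℕ) : 0 ≤ G W X := sum_nonneg fun _ _ => by positivity

theorem G_mono {W X Y : ℕ} (h : X ≤ Y) : G W X ≤ G W Y := by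
  apply sum_le_sum_of_subset_of_nonneg
  · intro n hn
    rw [mem_Q] at hn ⊢
    exact ⟨⟨hn.1.1, lt_of_lt_of_le hn.1.2 h⟩, hn.2⟩
  · intro _ _ _
    positivity

/-! ### the sum over `factoredNumbers` -/

/-- `n ↦ n^(-a)` as a monoid homomorphism with zero -/
noncomputable def pw (a : ℝ) (ha : a ≠ 0) : ℕ →*₀ ℝ where
  toFun n := (n : ℝ) ^ (-a)
  map_zero' := by
    rw [Nat.cast_zero, Real.zero_rpow (neg_ne_zero.2 ha)]
  map_one' := by simp
  map_mul' m n := by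
    rw [Nat.cast_mul, Real.mul_rpow (Nat.cast_nonneg _) (Nat.cast_nonneg _)]

theorem fac_sum (a : ℝ) (ha : 0 < a) (S : Finset ℕ) (hS : ∀ p ∈ S, p.Prime) :
    Summable (fun m : Nat.factoredNumbers S => ((m : ℕ) : ℝ) ^ (-a)) ∧
      ∑' m : Nat.factoredNumbers S, ((m : ℕ) : ℝ) ^ (-a) = ∏ p ∈ S, (1 - (p : ℝ) ^ (-a))⁻¹ := by
  have h := EulerProduct.summable_and_hasSum_factoredNumbers_prod_filter_prime_geometric
    (f := (pw a ha.ne' : ℕ →* ℝ)) (by
      intro p hp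
      change ‖((p : ℝ) ^ (-a))‖ < 1
      rw [Real.norm_of_nonneg (by positivity)]
      exact Real.rpow_lt_one_of_one_lt_of_neg (by exact_mod_cast hp.one_lt) (by linarith)) S
  have h1 : S.filter (fun p => p.Prime) = S := filter_true_of_mem hS
  rw [h1] at h
  exact ⟨h.2.summable, h.2.tsum_eq⟩

/-- `n / φ(n)` for squarefree `n` -/
theorem inv_totient (n : ℕ) (hn : n ≠ 0) :
    1 / (n.totient : ℝ) = (n : ℝ)⁻¹ * ∏ p ∈ n.primeFactors, (1 - (p : ℝ) ^ (-(1 : ℝ)))⁻¹ := by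
  have h1 : (n.totient : ℝ) = n * ∏ p ∈ n.primeFactors, (1 - (p : ℝ)⁻¹) := by
    have h2 := Nat.totient_eq_mul_prod_factors n
    have h3 : (((n.totient : ℚ)) : ℝ) = ((n * ∏ p ∈ n.primeFactors, (1 - (p : ℚ)⁻¹) : ℚ) : ℝ) := by
      rw [h2]
    push_cast at h3
    exact h3
  rw [h1, one_div, mul_inv, prod_inv_distrib]
  simp only [Real.rpow_neg_one]

theorem inv_totient_tsum (n : ℕ) (hn : n ≠ 0) :
    1 / (n.totient : ℝ) =
      (n : ℝ)⁻¹ * ∑' m : Nat.factoredNumbers n.primeFactors, ((m : ℕ) : ℝ) ^ (-(1 : ℝ)) := by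
  rw [(fac_sum 1 one_pos n.primeFactors (fun p hp => Nat.prime_of_mem_primeFactors hp)).2,
    inv_totient n hn]

/-! ### lower bound `log X ≤ G 1 X` -/

/-- partial sums over the numbers with given radical -/
theorem fiber_le (n X : ℕ) (hn : n ≠ 0) :
    ∑ m ∈ (Ico 1 X).filter (fun m => ∏ p ∈ m.primeFactors, p = n), (m : ℝ)⁻¹ ≤
      1 / (n.totient : ℝ) := by
  classical
  rw [inv_totient_tsum n hn]
  have hsum := (fac_sum 1 one_pos n.primeFactors (fun p hp => Nat.prime_of_mem_primeFactors hp)).1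
  have hmem : ∀ m ∈ (Ico 1 X).filter (fun m => ∏ p ∈ m.primeFactors, p = n),
      n ∣ m ∧ m / n ∈ Nat.factoredNumbers n.primeFactors ∧ m ≠ 0 := by
    intro m hm
    rw [mem_filter, mem_Ico] at hm
    have h0 : m ≠ 0 := by omega
    have h1 : n ∣ m := by
      rw [← hm.2]
      exact Nat.prod_primeFactors_dvd m
    have h2 : m.primeFactors = n.primeFactors := by
      rw [← hm.2]
      exact (Nat.primeFactors_prod (fun p hp => Nat.prime_of_mem_primeFactors hp)).symm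
    refine ⟨h1, ?_, h0⟩
    rw [Nat.mem_factoredNumbers']
    have h3 : m / n ≠ 0 := (Nat.div_pos (Nat.le_of_dvd (Nat.pos_of_ne_zero h0) h1)
      (Nat.pos_of_ne_zero hn)).ne'
    intro p hp hpd
    rw [← h2, Nat.mem_primeFactors]
    exact ⟨hp, hpd.trans (Nat.div_dvd_of_dvd h1), h0⟩
  let F : Finset (Nat.factoredNumbers n.primeFactors) :=
    ((Ico 1 X).filter (fun m => ∏ p ∈ m.primeFactors, p = n)).attach.image
      (fun m => ⟨m.1 / n, (hmem m.1 m.2).2.1⟩)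
  have h1 : ∑ m ∈ (Ico 1 X).filter (fun m => ∏ p ∈ m.primeFactors, p = n), (m : ℝ)⁻¹ =
      (n : ℝ)⁻¹ * ∑ s ∈ F, ((s : ℕ) : ℝ) ^ (-(1 : ℝ)) := by
    rw [sum_image, mul_sum, ← sum_attach]
    · refine sum_congr rfl fun m _ => ?_
      obtain ⟨h2, -, -⟩ := hmem m.1 m.2
      have h3 : ((m.1 / n : ℕ) : ℝ) = (m.1 : ℝ) / n := Nat.cast_div h2 (by exact_mod_cast hn)
      change ((m.1 : ℕ) : ℝ)⁻¹ = (n : ℝ)⁻¹ * ((m.1 / n : ℕ) : ℝ) ^ (-(1 : ℝ))
      rw [h3, Real.rpow_neg_one, ← mul_inv, mul_div_cancel₀ _ (by exact_mod_cast hn : (n : ℝ) ≠ 0)]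
    · intro m _ m' _ hmm
      apply Subtype.ext
      have h4 := congrArg Subtype.val hmm
      change m.1 / n = m'.1 / n at h4
      rw [← Nat.div_mul_cancel (hmem m.1 m.2).1, h4, Nat.div_mul_cancel (hmem m'.1 m'.2).1]
  rw [h1]
  apply mul_le_mul_of_nonneg_left _ (by positivity)
  exact hsum.sum_le_tsum F (fun s _ => by positivity)

theorem harm_le_G (X : ℕ) : ∑ m ∈ Ico 1 X, (m : ℝ)⁻¹ ≤ G 1 X := by
  classical
  have hmaps : ∀ m ∈ Ico 1 X, (∏ p ∈ m.primeFactors, p) ∈ Q 1 X := by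
    intro m hm
    rw [mem_Ico] at hm
    rw [mem_Q]
    have h0 : m ≠ 0 := by omega
    refine ⟨⟨?_, ?_⟩, ?_, Nat.coprime_one_right _⟩
    · exact Nat.pos_of_dvd_of_pos (Nat.prod_primeFactors_dvd m) (by omega)
    · exact lt_of_le_of_lt (Nat.le_of_dvd (by omega) (Nat.prod_primeFactors_dvd m)) hm.2
    · refine Finset.squarefree_prod_of_pairwise_isCoprime (fun p hp q hq hpq ↦ ?_)
        fun p hp ↦ (Nat.prime_of_mem_primeFactors hp).squarefree
      simp only [← Nat.coprime_iff_isRelPrime]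
      exact (Nat.coprime_primes (Nat.prime_of_mem_primeFactors hp)
        (Nat.prime_of_mem_primeFactors hq)).mpr hpq
  rw [← sum_fiberwise_of_maps_to hmaps]
  apply sum_le_sum
  intro n hn
  rw [mem_Q] at hn
  exact fiber_le n X (by omega)

/-! ### sums over squarefree divisors -/

theorem sum_le_inj {α β : Type*} (s : Finset α) (t : Finset β) (f : α → ℝ)
    (g : β → ℝ) (i : α → β) (hi : ∀ a ∈ s, i a ∈ t)
    (hinj : ∀ a ∈ s, ∀ b ∈ s, i a = i b → a = b) (hfg : ∀ a ∈ s, f a ≤ g (i a))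
    (hg : ∀ b ∈ t, 0 ≤ g b) : ∑ a ∈ s, f a ≤ ∑ b ∈ t, g b := by
  classical
  calc ∑ a ∈ s, f a ≤ ∑ a ∈ s, g (i a) := sum_le_sum hfg
  _ = ∑ b ∈ s.image i, g b := (sum_image hinj).symm
  _ ≤ _ := sum_le_sum_of_subset_of_nonneg (image_subset_iff.2 hi) fun b hb _ => hg b hb

theorem totient_prod (S : Finset ℕ) (hS : ∀ p ∈ S, p.Prime) :
    (∏ p ∈ S, p).totient = ∏ p ∈ S, (p - 1) := by
  classical
  induction S using Finset.induction_on with
  | empty => simp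
  | insert p S hp ih =>
    rw [prod_insert hp, prod_insert hp, Nat.totient_mul, ih fun q hq => hS q (mem_insert_of_mem hq),
      Nat.totient_prime (hS p (mem_insert_self _ _))]
    apply Nat.Coprime.prod_right
    intro q hq
    rw [Nat.coprime_primes (hS p (mem_insert_self _ _)) (hS q (mem_insert_of_mem hq))]
    rintro rfl
    exact hp hq

/-- squarefree divisors -/
def SD (n : ℕ) : Finset ℕ := n.divisors.filter (fun d => Squarefree d)

theorem mem_SD {n d : ℕ} : d ∈ SD n ↔ (d ∣ n ∧ n ≠ 0) ∧ Squarefree d := by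
  rw [SD, mem_filter, Nat.mem_divisors]

theorem sum_SD (n : ℕ) (hn : n ≠ 0) :
    ∑ d ∈ SD n, 1 / (d.totient : ℝ) = n / n.totient := by
  classical
  have h1 : ∑ d ∈ SD n, 1 / (d.totient : ℝ) =
      ∑ S ∈ n.primeFactors.powerset, ∏ p ∈ S, 1 / ((p : ℝ) - 1) := by
    symm
    refine sum_bij' (fun S _ => ∏ p ∈ S, p) (fun d _ => d.primeFactors) ?_ ?_ ?_ ?_ ?_
    · intro S hS
      rw [mem_powerset] at hS
      rw [mem_SD]
      refine ⟨⟨?_, hn⟩, ?_⟩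
      · exact (prod_dvd_prod_of_subset _ _ _ hS).trans (Nat.prod_primeFactors_dvd n)
      · refine Finset.squarefree_prod_of_pairwise_isCoprime (fun p hp q hq hpq ↦ ?_)
          fun p hp ↦ (Nat.prime_of_mem_primeFactors (hS hp)).squarefree
        simp only [← Nat.coprime_iff_isRelPrime]
        exact (Nat.coprime_primes (Nat.prime_of_mem_primeFactors (hS hp))
          (Nat.prime_of_mem_primeFactors (hS hq))).mpr hpq
    · intro d hd
      rw [mem_SD] at hd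
      rw [mem_powerset]
      exact Nat.primeFactors_mono hd.1.1 hn
    · intro S hS
      rw [mem_powerset] at hS
      exact Nat.primeFactors_prod fun p hp => Nat.prime_of_mem_primeFactors (hS hp)
    · intro d hd
      rw [mem_SD] at hd
      exact Nat.prod_primeFactors_of_squarefree hd.2
    · intro S hS
      rw [mem_powerset] at hS
      rw [totient_prod S fun p hp => Nat.prime_of_mem_primeFactors (hS hp)]
      push_cast
      rw [one_div, ← prod_inv_distrib]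
      refine prod_congr rfl fun p hp => ?_
      rw [Nat.cast_sub (Nat.prime_of_mem_primeFactors (hS hp)).one_le, Nat.cast_one, one_div]
  have h2 := inv_totient n hn
  have hφ : (n.totient : ℝ) ≠ 0 := by
    have := Nat.totient_pos.2 (Nat.pos_of_ne_zero hn)
    exact_mod_cast this.ne'
  have hn' : (n : ℝ) ≠ 0 := by exact_mod_cast hn
  rw [h1, ← prod_one_add]
  have h3 : (n : ℝ) / n.totient = ∏ p ∈ n.primeFactors, (1 - (p : ℝ) ^ (-(1 : ℝ)))⁻¹ := by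
    rw [div_eq_mul_one_div, h2, ← mul_assoc, mul_inv_cancel₀ hn', one_mul]
  rw [h3]
  refine prod_congr rfl fun p hp => ?_
  have h4 : (1 : ℝ) < p := by exact_mod_cast (Nat.prime_of_mem_primeFactors hp).one_lt
  rw [Real.rpow_neg_one]
  have h5 : (p : ℝ) - 1 ≠ 0 := by linarith
  have h6 : (p : ℝ) ≠ 0 := by linarith
  have h7 : (1 - (p : ℝ)⁻¹) = (p - 1) / p := by field_simp
  rw [h7]
  field_simp
  ring

/-! ### van Lint - Richert -/

theorem G_one_le (W X : ℕ) (hW : W ≠ 0) : G 1 X ≤ (W : ℝ) / W.totient * G W X := by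
  rw [← sum_SD W hW, G, G, sum_mul_sum, ← sum_product']
  refine sum_le_inj _ _ _ _ (fun n => (Nat.gcd n W, n / Nat.gcd n W)) ?_ ?_ ?_ ?_
  · intro n hn
    rw [mem_Q] at hn
    obtain ⟨⟨hn1, hn2⟩, hsq, -⟩ := hn
    have hg : 0 < Nat.gcd n W := Nat.gcd_pos_of_pos_left _ (by omega)
    rw [mem_product, mem_SD, mem_Q]
    refine ⟨⟨⟨Nat.gcd_dvd_right _ _, hW⟩, hsq.squarefree_of_dvd (Nat.gcd_dvd_left _ _)⟩, ⟨?_, ?_⟩,
      ?_, ?_⟩
    · exact Nat.div_pos (Nat.le_of_dvd (by omega) (Nat.gcd_dvd_left _ _)) hg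
    · exact lt_of_le_of_lt (Nat.div_le_self _ _) hn2
    · exact hsq.squarefree_of_dvd (Nat.div_dvd_of_dvd (Nat.gcd_dvd_left _ _))
    · change Nat.Coprime (n / Nat.gcd n W) W
      rw [Nat.coprime_iff_gcd_eq_one]
      by_contra hne
      obtain ⟨p, hp, hpd⟩ := Nat.exists_prime_and_dvd hne
      have h1 : p ∣ n / Nat.gcd n W := hpd.trans (Nat.gcd_dvd_left _ _)
      have h2 : p ∣ W := hpd.trans (Nat.gcd_dvd_right _ _)
      have h3 : p ∣ n := h1.trans (Nat.div_dvd_of_dvd (Nat.gcd_dvd_left _ _))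
      have h4 : p ∣ Nat.gcd n W := Nat.dvd_gcd h3 h2
      have h5 : p * p ∣ n := by
        have := Nat.mul_dvd_mul h4 h1
        rwa [Nat.mul_div_cancel' (Nat.gcd_dvd_left _ _)] at this
      exact hp.not_isUnit (hsq p h5)
  · intro n _ m _ h
    rw [Prod.mk.injEq] at h
    rw [← Nat.mul_div_cancel' (Nat.gcd_dvd_left n W), h.2, h.1,
      Nat.mul_div_cancel' (Nat.gcd_dvd_left m W)]
  · intro n hn
    rw [mem_Q] at hn
    obtain ⟨⟨hn1, hn2⟩, hsq, -⟩ := hn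
    have h1 : n = Nat.gcd n W * (n / Nat.gcd n W) := (Nat.mul_div_cancel' (Nat.gcd_dvd_left n W)).symm
    have h2 : (Nat.gcd n W).Coprime (n / Nat.gcd n W) := by
      apply Nat.coprime_of_squarefree_mul
      rw [← h1]
      exact hsq
    apply le_of_eq
    change 1 / (n.totient : ℝ) = 1 / ((Nat.gcd n W).totient : ℝ) * (1 / ((n / Nat.gcd n W).totient : ℝ))
    conv_lhs => rw [h1, Nat.totient_mul h2]
    push_cast
    rw [one_div_mul_one_div]
  · intro _ _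
    positivity

theorem G_le_one (W X : ℕ) (hW : W ≠ 0) : (W : ℝ) / W.totient * G W X ≤ G 1 (X * W) := by
  rw [← sum_SD W hW, G, G, sum_mul_sum, ← sum_product']
  refine sum_le_inj _ _ _ _ (fun n => n.1 * n.2) ?_ ?_ ?_ ?_
  · intro n hn
    rw [mem_product, mem_SD, mem_Q] at hn
    obtain ⟨⟨⟨h1, -⟩, h2⟩, ⟨h3, h4⟩, h5, h6⟩ := hn
    rw [mem_Q]
    have h7 : n.1.Coprime n.2 := (h6.coprime_dvd_right h1).symm
    refine ⟨⟨?_, ?_⟩, ?_, Nat.coprime_one_right _⟩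
    · exact Nat.mul_pos (Nat.pos_of_dvd_of_pos h1 (Nat.pos_of_ne_zero hW)) h3
    · calc n.1 * n.2 ≤ W * n.2 := Nat.mul_le_mul_right _ (Nat.le_of_dvd (Nat.pos_of_ne_zero hW) h1)
      _ < W * X := Nat.mul_lt_mul_of_pos_left h4 (Nat.pos_of_ne_zero hW)
      _ = X * W := mul_comm _ _
    · exact (Nat.squarefree_mul h7).2 ⟨h2, h5⟩
  · rintro ⟨a, b⟩ hn ⟨c, d⟩ hm h
    rw [mem_product, mem_SD, mem_Q] at hn hm
    obtain ⟨⟨⟨h1, -⟩, h2⟩, ⟨h3, h4⟩, h5, h6⟩ := hn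
    obtain ⟨⟨⟨k1, -⟩, k2⟩, ⟨k3, k4⟩, k5, k6⟩ := hm
    change a * b = c * d at h
    change a ∣ W at h1
    change c ∣ W at k1
    change b.Coprime W at h6
    change d.Coprime W at k6
    have h7 : a = c := by
      apply Nat.dvd_antisymm
      · have : a ∣ c * d := ⟨b, h.symm⟩
        exact (k6.symm.coprime_dvd_left h1).dvd_of_dvd_mul_right this
      · have : c ∣ a * b := ⟨d, h⟩
        exact (h6.symm.coprime_dvd_left k1).dvd_of_dvd_mul_right this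
    subst h7
    have ha : 0 < a := Nat.pos_of_dvd_of_pos h1 (Nat.pos_of_ne_zero hW)
    rw [Nat.eq_of_mul_eq_mul_left ha h]
  · intro n hn
    rw [mem_product, mem_SD, mem_Q] at hn
    obtain ⟨⟨⟨h1, -⟩, h2⟩, ⟨h3, h4⟩, h5, h6⟩ := hn
    have h7 : n.1.Coprime n.2 := (h6.coprime_dvd_right h1).symm
    apply le_of_eq
    change 1 / (n.1.totient : ℝ) * (1 / (n.2.totient : ℝ)) = 1 / ((n.1 * n.2).totient : ℝ)
    rw [Nat.totient_mul h7]
    push_cast
    rw [one_div_mul_one_div]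
  · intro _ _
    positivity

/-! ### the harmonic sum -/

theorem harm_eq (n : ℕ) : ∑ m ∈ Ico 1 (n + 1), (m : ℝ)⁻¹ = ((harmonic n : ℚ) : ℝ) := by
  rw [harmonic_eq_sum_Icc]
  push_cast
  rfl

theorem log_le_harm (X : ℕ) (hX : 1 ≤ X) : Real.log X ≤ ∑ m ∈ Ico 1 X, (m : ℝ)⁻¹ := by
  obtain ⟨n, rfl⟩ : ∃ n, X = n + 1 := ⟨X - 1, by omega⟩
  rw [harm_eq]
  exact log_add_one_le_harmonic n

theorem harm_le_log (X : ℕ) (hX : 1 ≤ X) : ∑ m ∈ Ico 1 X, (m : ℝ)⁻¹ ≤ 1 + Real.log X := by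
  obtain ⟨n, rfl⟩ : ∃ n, X = n + 1 := ⟨X - 1, by omega⟩
  rw [harm_eq]
  refine (harmonic_le_one_add_log n).trans ?_
  rcases Nat.eq_zero_or_pos n with h | h
  · subst h
    simp
  · have : Real.log n ≤ Real.log ((n + 1 : ℕ) : ℝ) := by
      apply Real.log_le_log (by exact_mod_cast h)
      push_cast
      linarith
    linarith

/-- numbers in `[1, X)` coprime to `W` -/
def K (W X : ℕ) : Finset ℕ := (Ico 1 X).filter (fun n => n.Coprime W)

theorem mem_K {W X n : ℕ} : n ∈ K W X ↔ (1 ≤ n ∧ n < X) ∧ n.Coprime W := by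
  rw [K, mem_filter, mem_Ico]

/-- the sum of `1/n` over `n < X` coprime to `W` -/
noncomputable def B (W X : ℕ) : ℝ := ∑ n ∈ K W X, (n : ℝ)⁻¹

theorem B_nonneg (W X : ℕ) : 0 ≤ B W X := sum_nonneg fun _ _ => by positivity

theorem B_mul_le (W X T : ℕ) (F : Finset ℕ)
    (hF : ∀ a ∈ F, a ≠ 0 ∧ a ≤ T ∧ ∀ p : ℕ, p.Prime → p ∣ a → p ∣ W) :
    (∑ a ∈ F, (a : ℝ)⁻¹) * B W X ≤ ∑ m ∈ Ico 1 (X * T), (m : ℝ)⁻¹ := by
  rw [B, sum_mul_sum, ← sum_product']
  refine sum_le_inj _ _ _ _ (fun n => n.1 * n.2) ?_ ?_ ?_ ?_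
  · intro n hn
    rw [mem_product, mem_K] at hn
    obtain ⟨h1, ⟨h2, h3⟩, h4⟩ := hn
    obtain ⟨h5, h6, h7⟩ := hF _ h1
    rw [mem_Ico]
    refine ⟨Nat.mul_pos (Nat.pos_of_ne_zero h5) h2, ?_⟩
    have h8 : 0 < T := lt_of_lt_of_le (Nat.pos_of_ne_zero h5) h6
    calc n.1 * n.2 ≤ T * n.2 := Nat.mul_le_mul_right _ h6
      _ < T * X := Nat.mul_lt_mul_of_pos_left h3 h8
      _ = X * T := mul_comm _ _
  · rintro ⟨a, b⟩ hn ⟨c, d⟩ hm h
    rw [mem_product, mem_K] at hn hm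
    obtain ⟨h1, ⟨h2, h3⟩, h4⟩ := hn
    obtain ⟨k1, ⟨k2, k3⟩, k4⟩ := hm
    obtain ⟨h5, h6, h7⟩ := hF _ h1
    obtain ⟨k5, k6, k7⟩ := hF _ k1
    change a * b = c * d at h
    change b.Coprime W at h4
    change d.Coprime W at k4
    change ∀ p : ℕ, p.Prime → p ∣ a → p ∣ W at h7
    change ∀ p : ℕ, p.Prime → p ∣ c → p ∣ W at k7
    have e1 : a.Coprime d := by
      apply Nat.coprime_of_dvd
      intro p hp hpa hpd
      exact (Nat.Prime.not_coprime_iff_dvd.2 ⟨p, hp, hpd, h7 p hp hpa⟩) k4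
    have e2 : c.Coprime b := by
      apply Nat.coprime_of_dvd
      intro p hp hpa hpd
      exact (Nat.Prime.not_coprime_iff_dvd.2 ⟨p, hp, hpd, k7 p hp hpa⟩) h4
    have e3 : a = c := by
      apply Nat.dvd_antisymm
      · have : a ∣ c * d := ⟨b, h.symm⟩
        exact e1.dvd_of_dvd_mul_right this
      · have : c ∣ a * b := ⟨d, h⟩
        exact e2.dvd_of_dvd_mul_right this
    subst e3
    rw [Nat.eq_of_mul_eq_mul_left (Nat.pos_of_ne_zero h5) h]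
  · intro n _
    apply le_of_eq
    change (n.1 : ℝ)⁻¹ * (n.2 : ℝ)⁻¹ = ((n.1 * n.2 : ℕ) : ℝ)⁻¹
    push_cast
    rw [mul_inv]
  · intro _ _
    positivity

theorem G_le_B (W X : ℕ) (δ : ℝ)
    (hδ : ∑ d ∈ (Q W X).erase 1, ((d : ℝ) * d.totient)⁻¹ ≤ δ) :
    G W X ≤ (1 + δ) * B W X := by
  classical
  have h1 : G W X = ∑ n ∈ Q W X, ∑ d ∈ SD n, (n : ℝ)⁻¹ * (1 / (d.totient : ℝ)) := by
    rw [G]
    refine sum_congr rfl fun n hn => ?_
    rw [mem_Q] at hn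
    have hn0 : n ≠ 0 := by omega
    rw [← mul_sum, sum_SD n hn0, ← mul_div_assoc, inv_mul_cancel₀ (by exact_mod_cast hn0)]
  rw [h1, sum_sigma']
  have h2 : ∑ x ∈ (Q W X).sigma fun n => SD n, ((x.1 : ℝ)⁻¹ * (1 / (x.2.totient : ℝ))) ≤
      ∑ x ∈ Q W X ×ˢ K W X, (((x.1 : ℝ) * x.1.totient)⁻¹ * (x.2 : ℝ)⁻¹) := by
    refine sum_le_inj _ _ _ _ (fun x => (x.2, x.1 / x.2)) ?_ ?_ ?_ ?_
    · rintro ⟨n, d⟩ hx
      rw [mem_sigma, mem_Q, mem_SD] at hx
      obtain ⟨⟨⟨h1, h2⟩, h3, h4⟩, ⟨h5, h6⟩, h7⟩ := hx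
      change d ∣ n at h5
      change n < X at h2
      change n.Coprime W at h4
      change n ≠ 0 at h6
      change Squarefree d at h7
      have hd : 0 < d := Nat.pos_of_dvd_of_pos h5 (Nat.pos_of_ne_zero h6)
      rw [mem_product, mem_Q, mem_K]
      refine ⟨⟨⟨hd, ?_⟩, h7, h4.coprime_dvd_left h5⟩, ⟨?_, ?_⟩, ?_⟩
      · exact lt_of_le_of_lt (Nat.le_of_dvd (Nat.pos_of_ne_zero h6) h5) h2
      · exact Nat.div_pos (Nat.le_of_dvd (Nat.pos_of_ne_zero h6) h5) hd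
      · exact lt_of_le_of_lt (Nat.div_le_self _ _) h2
      · exact h4.coprime_dvd_left (Nat.div_dvd_of_dvd h5)
    · rintro ⟨n, d⟩ hx ⟨m, e⟩ hy h
      rw [mem_sigma, mem_Q, mem_SD] at hx hy
      obtain ⟨-, ⟨h5, h6⟩, h7⟩ := hx
      obtain ⟨-, ⟨k5, k6⟩, k7⟩ := hy
      change d ∣ n at h5
      change e ∣ m at k5
      change (d, n / d) = (e, m / e) at h
      rw [Prod.mk.injEq] at h
      obtain ⟨rfl, h8⟩ := h
      have : n = m := by
        rw [← Nat.div_mul_cancel h5, h8, Nat.div_mul_cancel k5]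
      subst this
      rfl
    · rintro ⟨n, d⟩ hx
      rw [mem_sigma, mem_Q, mem_SD] at hx
      obtain ⟨-, ⟨h5, h6⟩, h7⟩ := hx
      change d ∣ n at h5
      change n ≠ 0 at h6
      have hd : 0 < d := Nat.pos_of_dvd_of_pos h5 (Nat.pos_of_ne_zero h6)
      change (n : ℝ)⁻¹ * (1 / (d.totient : ℝ)) ≤ ((d : ℝ) * d.totient)⁻¹ * ((n / d : ℕ) : ℝ)⁻¹
      have hd' : (d : ℝ) ≠ 0 := by exact_mod_cast hd.ne'
      have hn' : (n : ℝ) ≠ 0 := by exact_mod_cast h6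
      rw [Nat.cast_div h5 hd', one_div]
      apply le_of_eq
      rw [mul_inv, inv_div]
      field_simp
    · intro _ _
      positivity
  refine h2.trans ?_
  have h4 : ∑ x ∈ Q W X ×ˢ K W X, (((x.1 : ℝ) * x.1.totient)⁻¹ * (x.2 : ℝ)⁻¹) =
      (∑ d ∈ Q W X, ((d : ℝ) * d.totient)⁻¹) * B W X := by
    rw [B, sum_mul_sum, sum_product]
  rw [h4]
  apply mul_le_mul_of_nonneg_right _ (B_nonneg _ _)
  by_cases h3 : 1 ∈ Q W X
  · rw [← add_sum_erase _ _ h3]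
    simp only [Nat.cast_one, Nat.totient_one, mul_one, inv_one]
    linarith
  · rw [erase_eq_of_notMem h3] at hδ
    linarith

/-! ### choice of `W` -/

theorem le_totient_sq (d : ℕ) (hd : Squarefree d) (h2 : ∀ p : ℕ, p.Prime → p ∣ d → 3 ≤ p) :
    d ≤ d.totient ^ 2 := by
  have h1 : d.totient = ∏ p ∈ d.primeFactors, (p - 1) := by
    conv_lhs => rw [← Nat.prod_primeFactors_of_squarefree hd]
    exact totient_prod _ fun p hp => Nat.prime_of_mem_primeFactors hp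
  rw [h1, ← prod_pow]
  conv_lhs => rw [← Nat.prod_primeFactors_of_squarefree hd]
  refine prod_le_prod' fun p hp => ?_
  have h3 := h2 p (Nat.prime_of_mem_primeFactors hp) (Nat.dvd_of_mem_primeFactors hp)
  obtain ⟨q, rfl⟩ : ∃ q, p = q + 3 := ⟨p - 3, by omega⟩
  have h4 : q + 3 - 1 = q + 2 := by omega
  rw [h4]
  nlinarith

theorem inv_le_rpow (d : ℕ) (hd : Squarefree d) (h2 : ∀ p : ℕ, p.Prime → p ∣ d → 3 ≤ p) :
    ((d : ℝ) * d.totient)⁻¹ ≤ ((d : ℝ) ^ (3 / 2 : ℝ))⁻¹ := by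
  have h1 := le_totient_sq d hd h2
  have h3 : 0 < d := Nat.pos_of_ne_zero hd.ne_zero
  have h3' : (0 : ℝ) < d := by exact_mod_cast h3
  have h4 : (d : ℝ) ^ (3 / 2 : ℝ) = d * (d : ℝ) ^ (1 / 2 : ℝ) := by
    rw [show (3 / 2 : ℝ) = 1 + 1 / 2 by norm_num, Real.rpow_add h3', Real.rpow_one]
  have h5 : (d : ℝ) ^ (1 / 2 : ℝ) ≤ d.totient := by
    rw [← Real.sqrt_eq_rpow]
    apply Real.sqrt_le_iff.2
    refine ⟨Nat.cast_nonneg _, ?_⟩
    exact_mod_cast h1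
  rw [h4]
  apply inv_anti₀ (by positivity)
  exact mul_le_mul_of_nonneg_left h5 h3'.le

theorem exists_W (δ : ℝ) (hδ : 0 < δ) : ∃ W : ℕ, W ≠ 0 ∧ ∀ X, G W X ≤ (1 + δ) * B W X := by
  have hs : Summable (fun n : ℕ => ((n : ℝ) ^ (3 / 2 : ℝ))⁻¹) :=
    Real.summable_nat_rpow_inv.2 (by norm_num)
  obtain ⟨s, hs⟩ := summable_iff_vanishing_norm.1 hs δ hδ
  let z := s.sup id + 2
  refine ⟨z.factorial, (Nat.factorial_pos z).ne', fun X => G_le_B _ _ _ ?_⟩
  have hprime : ∀ d ∈ (Q z.factorial X).erase 1, ∀ p : ℕ, p.Prime → p ∣ d → z < p := by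
    intro d hd p hp hpd
    rw [mem_erase, mem_Q] at hd
    by_contra hle
    have h1 : p ∣ z.factorial := (Nat.Prime.dvd_factorial hp).2 (by omega)
    exact (Nat.Prime.not_coprime_iff_dvd.2 ⟨p, hp, hpd, h1⟩) hd.2.2.2
  have h1 : ∑ d ∈ (Q z.factorial X).erase 1, ((d : ℝ) * d.totient)⁻¹ ≤
      ∑ d ∈ (Q z.factorial X).erase 1, ((d : ℝ) ^ (3 / 2 : ℝ))⁻¹ := by
    refine sum_le_sum fun d hd => inv_le_rpow d ?_ fun p hp hpd => ?_
    · rw [mem_erase, mem_Q] at hd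
      exact hd.2.2.1
    · have := hprime d hd p hp hpd
      have hz : 2 ≤ z := Nat.le_add_left _ _
      omega
  refine h1.trans ?_
  have h2 : Disjoint ((Q z.factorial X).erase 1) s := by
    rw [Finset.disjoint_left]
    intro d hd hds
    have h3 : d ≤ s.sup id := Finset.le_sup (f := id) hds
    have h4 := hd
    rw [mem_erase, mem_Q] at h4
    obtain ⟨p, hp, hpd⟩ := Nat.exists_prime_and_dvd h4.1
    have h5 := hprime d hd p hp hpd
    have h6 : p ≤ d := Nat.le_of_dvd (by omega) hpd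
    have h7 : z = s.sup id + 2 := rfl
    omega
  exact (Real.le_norm_self _).trans (hs _ h2).le

theorem exists_F (W : ℕ) (hW : W ≠ 0) (δ : ℝ) (hδ : 0 < δ) :
    ∃ (F : Finset ℕ) (T : ℕ), 0 < T ∧
      (∀ a ∈ F, a ≠ 0 ∧ a ≤ T ∧ ∀ p : ℕ, p.Prime → p ∣ a → p ∣ W) ∧
      (W : ℝ) / W.totient ≤ (1 + δ) * ∑ a ∈ F, (a : ℝ)⁻¹ := by
  classical
  obtain ⟨h1, h2⟩ := fac_sum 1 one_pos W.primeFactors fun p hp => Nat.prime_of_mem_primeFactors hp
  have hφ : 0 < (W.totient : ℝ) := by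
    have := Nat.totient_pos.2 (Nat.pos_of_ne_zero hW)
    exact_mod_cast this
  have hW' : 0 < (W : ℝ) := by exact_mod_cast Nat.pos_of_ne_zero hW
  have h3 : ∑' m : Nat.factoredNumbers W.primeFactors, ((m : ℕ) : ℝ) ^ (-(1 : ℝ)) =
      (W : ℝ) / W.totient := by
    have := inv_totient_tsum W hW
    rw [div_eq_mul_one_div, this, ← mul_assoc, mul_inv_cancel₀ hW'.ne', one_mul]
  have h4 : (W : ℝ) / W.totient / (1 + δ) < (W : ℝ) / W.totient := by
    apply div_lt_self (by positivity)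
    linarith
  have h5 := h1.hasSum
  rw [h3] at h5
  obtain ⟨F, hF⟩ := (h5.eventually (lt_mem_nhds h4)).exists
  refine ⟨F.image Subtype.val, (F.image Subtype.val).sup id + 1, Nat.succ_pos _,
    ?_, ?_⟩
  · intro a ha
    have h6 : a ≤ (F.image Subtype.val).sup id := Finset.le_sup (f := id) ha
    rw [mem_image] at ha
    obtain ⟨m, -, rfl⟩ := ha
    refine ⟨Nat.ne_zero_of_mem_factoredNumbers m.2, by omega, ?_⟩
    intro p hp hpd
    exact Nat.dvd_of_mem_primeFactors ((Nat.mem_factoredNumbers'.1 m.2) p hp hpd)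
  · rw [sum_image (fun a _ b _ h => Subtype.ext h)]
    have h6 : ∑ m ∈ F, (((m : Nat.factoredNumbers W.primeFactors) : ℕ) : ℝ)⁻¹ =
        ∑ m ∈ F, ((m : ℕ) : ℝ) ^ (-(1 : ℝ)) := by
      refine sum_congr rfl fun m _ => ?_
      rw [Real.rpow_neg_one]
    rw [h6]
    rw [div_lt_iff₀ (by linarith)] at hF
    linarith

theorem G_upper (ε : ℝ) (hε : 0 < ε) :
    ∃ C : ℝ, ∀ X : ℕ, 1 ≤ X → G 1 X ≤ (1 + ε) * Real.log X + C := by
  obtain ⟨δ, hδ, hδε⟩ : ∃ δ : ℝ, 0 < δ ∧ (1 + δ) ^ 2 ≤ 1 + ε := by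
    refine ⟨min 1 (ε / 3), by positivity, ?_⟩
    have h1 : min 1 (ε / 3) ≤ 1 := min_le_left _ _
    have h2 : min 1 (ε / 3) ≤ ε / 3 := min_le_right _ _
    have h3 : 0 < min 1 (ε / 3) := by positivity
    nlinarith
  obtain ⟨W, hW, hG⟩ := exists_W δ hδ
  obtain ⟨F, T, hT, hF, hsum⟩ := exists_F W hW δ hδ
  refine ⟨(1 + δ) ^ 2 * (1 + Real.log T), fun X hX => ?_⟩
  have h1 := G_one_le W X hW
  have h2 := hG X
  have h3 := B_mul_le W X T F hF
  have h4 := harm_le_log (X * T) (Nat.mul_pos hX hT)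
  have hX' : (0 : ℝ) < X := by exact_mod_cast hX
  have hT' : (0 : ℝ) < T := by exact_mod_cast hT
  rw [Nat.cast_mul, Real.log_mul hX'.ne' hT'.ne'] at h4
  have hlog : 0 ≤ Real.log X := Real.log_nonneg (by exact_mod_cast hX)
  have hq : 0 ≤ (W : ℝ) / W.totient := by positivity
  have hB := B_nonneg W X
  calc G 1 X ≤ (W : ℝ) / W.totient * G W X := h1
  _ ≤ (W : ℝ) / W.totient * ((1 + δ) * B W X) := mul_le_mul_of_nonneg_left h2 hq
  _ ≤ ((1 + δ) * ∑ a ∈ F, (a : ℝ)⁻¹) * ((1 + δ) * B W X) :=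
      mul_le_mul_of_nonneg_right hsum (by positivity)
  _ = (1 + δ) ^ 2 * ((∑ a ∈ F, (a : ℝ)⁻¹) * B W X) := by ring
  _ ≤ (1 + δ) ^ 2 * (1 + (Real.log X + Real.log T)) :=
      mul_le_mul_of_nonneg_left (h3.trans h4) (by positivity)
  _ = (1 + δ) ^ 2 * Real.log X + (1 + δ) ^ 2 * (1 + Real.log T) := by ring
  _ ≤ (1 + ε) * Real.log X + (1 + δ) ^ 2 * (1 + Real.log T) := by
      have := mul_le_mul_of_nonneg_right hδε hlog
      linarith

theorem HW_lower (W : ℕ) (hW : W ≠ 0) (x : ℝ) (hx : 1 ≤ x) :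
    (W.totient : ℝ) / W * Real.log x ≤ HW W x := by
  have hX : 1 ≤ ⌈x⌉₊ := Nat.one_le_ceil_iff.2 (by linarith)
  have h1 := (log_le_harm _ hX).trans (harm_le_G ⌈x⌉₊)
  have h2 : Real.log x ≤ Real.log (⌈x⌉₊ : ℝ) := Real.log_le_log (by linarith) (Nat.le_ceil x)
  have h3 := G_one_le W ⌈x⌉₊ hW
  have hφ : 0 < (W.totient : ℝ) := by
    have := Nat.totient_pos.2 (Nat.pos_of_ne_zero hW)
    exact_mod_cast this
  have hW' : 0 < (W : ℝ) := by exact_mod_cast Nat.pos_of_ne_zero hW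
  rw [HW_eq]
  have h4 : Real.log x ≤ (W : ℝ) / W.totient * G W ⌈x⌉₊ := h2.trans (h1.trans h3)
  have h5 := mul_le_mul_of_nonneg_left h4 (by positivity : 0 ≤ (W.totient : ℝ) / W)
  refine h5.trans (le_of_eq ?_)
  field_simp

theorem HW_upper (W : ℕ) (hW : W ≠ 0) (ε : ℝ) (hε : 0 < ε) :
    ∃ C : ℝ, ∀ x : ℝ, 1 ≤ x → HW W x ≤ (W.totient : ℝ) / W * ((1 + ε) * Real.log x) + C := by
  obtain ⟨C, hC⟩ := G_upper ε hε
  refine ⟨(W.totient : ℝ) / W * ((1 + ε) * (Real.log 2 + Real.log W) + C), fun x hx => ?_⟩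
  have hX : 1 ≤ ⌈x⌉₊ := Nat.one_le_ceil_iff.2 (by linarith)
  have hφ : 0 < (W.totient : ℝ) := by
    have := Nat.totient_pos.2 (Nat.pos_of_ne_zero hW)
    exact_mod_cast this
  have hW' : 0 < (W : ℝ) := by exact_mod_cast Nat.pos_of_ne_zero hW
  have h1 := G_le_one W ⌈x⌉₊ hW
  have h2 := hC (⌈x⌉₊ * W) (Nat.mul_pos hX (Nat.pos_of_ne_zero hW))
  have h3 : (⌈x⌉₊ : ℝ) ≤ 2 * x := by
    have := (Nat.ceil_lt_add_one (by linarith : 0 ≤ x)).le
    linarith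
  have h4 : Real.log ((⌈x⌉₊ * W : ℕ) : ℝ) ≤ Real.log 2 + Real.log x + Real.log W := by
    have hc : (0 : ℝ) < (⌈x⌉₊ : ℝ) := by exact_mod_cast hX
    have he : Real.log (2 * x) = Real.log 2 + Real.log x :=
      Real.log_mul (by norm_num) (by linarith)
    have := Real.log_le_log hc h3
    rw [Nat.cast_mul, Real.log_mul hc.ne' hW'.ne']
    linarith
  rw [HW_eq]
  have h5 : G W ⌈x⌉₊ = (W.totient : ℝ) / W * ((W : ℝ) / W.totient * G W ⌈x⌉₊) := by
    field_simp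
  rw [h5]
  have h6 : (W : ℝ) / W.totient * G W ⌈x⌉₊ ≤
      (1 + ε) * Real.log x + ((1 + ε) * (Real.log 2 + Real.log W) + C) := by
    refine h1.trans (h2.trans ?_)
    have := mul_le_mul_of_nonneg_left h4 (by linarith : 0 ≤ 1 + ε)
    linarith
  have h7 := mul_le_mul_of_nonneg_left h6 (by positivity : 0 ≤ (W.totient : ℝ) / W)
  linarith

end HWAux

theorem HW_tendsto (W : ℕ) (hW : 1 ≤ W) :
    Tendsto (fun x : ℝ => HW W x / Real.log x) atTop (𝓝 ((W.totient : ℝ) / W)) := by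
  have hW0 : W ≠ 0 := by omega
  set q : ℝ := (W.totient : ℝ) / W with hq
  have hφ : 0 < (W.totient : ℝ) := by
    have := Nat.totient_pos.2 (Nat.pos_of_ne_zero hW0)
    exact_mod_cast this
  have hW' : 0 < (W : ℝ) := by exact_mod_cast Nat.pos_of_ne_zero hW0
  have hq0 : 0 < q := by positivity
  rw [Metric.tendsto_nhds]
  intro η hη
  obtain ⟨C, hC⟩ := HWAux.HW_upper W hW0 (η / (2 * q)) (by positivity)
  have hlog : Tendsto Real.log atTop atTop := Real.tendsto_log_atTop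
  filter_upwards [eventually_ge_atTop (1 : ℝ), hlog.eventually_gt_atTop (0 : ℝ),
    hlog.eventually_gt_atTop (2 * C / η)] with x hx hl0 hl
  rw [Real.dist_eq, abs_lt]
  have h1 := HWAux.HW_lower W hW0 x hx
  have h2 := hC x hx
  rw [← hq] at h1 h2
  constructor
  · have : q ≤ HW W x / Real.log x := by
      rw [le_div_iff₀ hl0]
      exact h1
    linarith
  · have h3 : HW W x / Real.log x < q + η := by
      rw [div_lt_iff₀ hl0]
      rw [div_lt_iff₀ hη] at hl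
      have h4 : q * ((1 + η / (2 * q)) * Real.log x) = q * Real.log x + η / 2 * Real.log x := by
        field_simp
      rw [h4] at h2
      nlinarith
    linarith

end Pool.Agent.MT
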