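import Pool.Agent.MT.Defs

/-! Module EXPS (part A of MP_3509fd_nt): elementary product inequalities.
`∏ (x + z) ≤ ∏ x (1 + z) ≤ ∏ x · exp (∑ z)` for `x ≥ 1`, `z ≥ 0`; Bernoulli `1 + k w ≤ (1 + w)^k`,
`(1 + w)^(k+1) ≤ 1 + (k+1) w + 2^(k+1) w²` for `0 ≤ w ≤ 1`. -/

set_option autoImplicit false

namespace Pool.Agent.MT

open Finset

variable {ι : Type} [Fintype ι]

theorem prod_add_sub (x z : ι → ℝ) (hx : ∀ p, 1 ≤ x p) (hz : ∀ p, 0 ≤ z p) :
    ∏ p, (x p + z p) - ∏ p, x p ≤ (∏ p, x p) * (Real.exp (∑ p, z p) - 1) := by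
  have h : ∏ p, (x p + z p) ≤ (∏ p, x p) * Real.exp (∑ p, z p) := by
    rw [Real.exp_sum, ← Finset.prod_mul_distrib]
    refine Finset.prod_le_prod (fun p _ => by have := hx p; have := hz p; linarith) fun p _ => ?_
    have h1 := hx p
    have h2 := hz p
    have h3 := Real.add_one_le_exp (z p)
    have h4 : x p + z p ≤ x p * (z p + 1) := by nlinarith
    exact h4.trans (mul_le_mul_of_nonneg_left h3 (by linarith))
  linarith

omit [Fintype ι] in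
private theorem w_nonneg {q : ι → ℝ} (hq : ∀ p, 2 ≤ q p) (p : ι) : 0 ≤ 1 / (q p - 1) := by
  have := hq p
  exact div_nonneg zero_le_one (by linarith)

omit [Fintype ι] in
private theorem w_le {q : ι → ℝ} (hq : ∀ p, 2 ≤ q p) (p : ι) : 1 / (q p - 1) ≤ 1 := by
  have := hq p
  rw [div_le_one (by linarith)]
  linarith

theorem PP_ge (q : ι → ℝ) (hq : ∀ p, 2 ≤ q p) : 1 ≤ PP q := by
  unfold PP
  calc (1 : ℝ) = ∏ _p : ι, (1 : ℝ) := by simp
    _ ≤ _ := Finset.prod_le_prod (fun _ _ => zero_le_one) fun p _ => by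
      have := w_nonneg hq p
      linarith

theorem prodB (q : ι → ℝ) (hq : ∀ p, 2 ≤ q p) (k : ℕ) : ∏ p, (1 + (k : ℝ) / (q p - 1)) ≤ PP q ^ k := by
  unfold PP
  rw [← Finset.prod_pow]
  refine Finset.prod_le_prod (fun p _ => ?_) fun p _ => ?_
  · have := hq p
    have : 0 ≤ (k : ℝ) / (q p - 1) := div_nonneg (Nat.cast_nonneg _) (by linarith)
    linarith
  · have h := one_add_mul_le_pow (a := 1 / (q p - 1)) (by have := w_nonneg hq p; linarith) k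
    calc 1 + (k : ℝ) / (q p - 1) = 1 + (k : ℝ) * (1 / (q p - 1)) := by ring
      _ ≤ _ := h

private theorem EE_nonneg' (q : ι → ℝ) : 0 ≤ EE q := Finset.sum_nonneg fun p _ => by positivity

private theorem exp_sub_nonneg {c : ℝ} (q : ι → ℝ) (hc : 0 ≤ c) : 0 ≤ Real.exp (c * EE q) - 1 := by
  have h : 0 ≤ c * EE q := mul_nonneg hc (EE_nonneg' q)
  have := Real.one_le_exp h
  linarith

private theorem sum_z (c : ℝ) (q : ι → ℝ) : ∑ p, c / (q p - 1) ^ 2 = c * EE q := by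
  unfold EE
  rw [Finset.mul_sum]
  exact Finset.sum_congr rfl fun p _ => by ring

theorem err1 (q : ι → ℝ) (hq : ∀ p, 2 ≤ q p) (k : ℕ) :
    ∏ p, (1 + (k : ℝ) / (q p - 1) + (k : ℝ) ^ 2 / (q p - 1) ^ 2) - ∏ p, (1 + (k : ℝ) / (q p - 1)) ≤
      PP q ^ k * (Real.exp ((k : ℝ) ^ 2 * EE q) - 1) := by
  have h := prod_add_sub (fun p => 1 + (k : ℝ) / (q p - 1)) (fun p => (k : ℝ) ^ 2 / (q p - 1) ^ 2)
    (fun p => by
      have := hq p
      have : 0 ≤ (k : ℝ) / (q p - 1) := div_nonneg (Nat.cast_nonneg _) (by linarith)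
      linarith) (fun p => by positivity)
  rw [sum_z] at h
  exact h.trans (mul_le_mul_of_nonneg_right (prodB q hq k) (exp_sub_nonneg q (by positivity)))

omit [Fintype ι] in
private theorem base_eq (q : ι → ℝ) (k : ℕ) (p : ι) :
    (1 + 1 / (q p - 1)) ^ 2 + ((k : ℝ) - 1) / (q p - 1) =
      1 + ((k : ℝ) + 1) * (1 / (q p - 1)) + (1 / (q p - 1)) ^ 2 := by ring

omit [Fintype ι] in
private theorem base_ge (q : ι → ℝ) (hq : ∀ p, 2 ≤ q p) (k : ℕ) (p : ι) :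
    1 ≤ (1 + 1 / (q p - 1)) ^ 2 + ((k : ℝ) - 1) / (q p - 1) := by
  rw [base_eq]
  have := w_nonneg hq p
  have h : 0 ≤ ((k : ℝ) + 1) * (1 / (q p - 1)) := mul_nonneg (by positivity) this
  nlinarith [sq_nonneg (1 / (q p - 1))]

private theorem base_prod (q : ι → ℝ) (hq : ∀ p, 2 ≤ q p) (k : ℕ) (hk : 1 ≤ k) :
    ∏ p, ((1 + 1 / (q p - 1)) ^ 2 + ((k : ℝ) - 1) / (q p - 1)) ≤ PP q ^ (k + 1) := by
  unfold PP
  rw [← Finset.prod_pow]
  refine Finset.prod_le_prod (fun p _ => zero_le_one.trans (base_ge q hq k p)) fun p _ => ?_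
  obtain ⟨j, rfl⟩ : ∃ j, k = j + 1 := ⟨k - 1, by omega⟩
  have hw := w_nonneg hq p
  generalize hwd : 1 / (q p - 1) = w at hw ⊢
  have h1 : ((j + 1 : ℕ) : ℝ) - 1 = j := by push_cast; ring
  rw [h1]
  have h2 : (j : ℝ) / (q p - 1) = j * w := by rw [← hwd]; ring
  rw [h2]
  have h3 := one_add_mul_le_pow (a := w) (by linarith) j
  have h4 : (1 + w) ^ (j + 1 + 1) = (1 + w) ^ 2 * (1 + w) ^ j := by ring
  rw [h4]
  have h5 : 0 ≤ (j : ℝ) * w := by positivity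
  calc (1 + w) ^ 2 + j * w ≤ (1 + w) ^ 2 * (1 + j * w) := by nlinarith [mul_nonneg hw h5, mul_nonneg hw (mul_nonneg hw h5)]
    _ ≤ _ := mul_le_mul_of_nonneg_left h3 (by positivity)

private theorem pow_bd (w : ℝ) (h0 : 0 ≤ w) (h1 : w ≤ 1) (n : ℕ) :
    (1 + w) ^ n ≤ 1 + n * w + (2 ^ n - 1 - n) * w ^ 2 := by
  induction n with
  | zero => simp
  | succ n ih =>
    have hn : (n : ℝ) + 1 ≤ 2 ^ n := by exact_mod_cast Nat.lt_two_pow_self
    calc (1 + w) ^ (n + 1) = (1 + w) ^ n * (1 + w) := pow_succ _ _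
      _ ≤ (1 + n * w + (2 ^ n - 1 - n) * w ^ 2) * (1 + w) := mul_le_mul_of_nonneg_right ih (by linarith)
      _ ≤ _ := by
        push_cast
        rw [pow_succ (2 : ℝ) n]
        have h2 : 0 ≤ (2 ^ n - 1 - (n : ℝ)) * w ^ 2 * (1 - w) :=
          mul_nonneg (mul_nonneg (by linarith) (sq_nonneg w)) (by linarith)
        nlinarith

theorem err2a (q : ι → ℝ) (hq : ∀ p, 2 ≤ q p) (k : ℕ) (hk : 1 ≤ k) :
    ∏ p, ((1 + 1 / (q p - 1)) ^ 2 + ((k : ℝ) - 1) / (q p - 1) + 3 * (k : ℝ) ^ 2 / (q p - 1) ^ 2) -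
      ∏ p, ((1 + 1 / (q p - 1)) ^ 2 + ((k : ℝ) - 1) / (q p - 1)) ≤
      PP q ^ (k + 1) * (Real.exp (3 * (k : ℝ) ^ 2 * EE q) - 1) := by
  have h := prod_add_sub (fun p => (1 + 1 / (q p - 1)) ^ 2 + ((k : ℝ) - 1) / (q p - 1))
    (fun p => 3 * (k : ℝ) ^ 2 / (q p - 1) ^ 2) (fun p => base_ge q hq k p) (fun p => by positivity)
  rw [sum_z] at h
  exact h.trans (mul_le_mul_of_nonneg_right (base_prod q hq k hk) (exp_sub_nonneg q (by positivity)))

theorem err2b (q : ι → ℝ) (hq : ∀ p, 2 ≤ q p) (k : ℕ) (hk : 1 ≤ k) :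
    PP q ^ (k + 1) - ∏ p, ((1 + 1 / (q p - 1)) ^ 2 + ((k : ℝ) - 1) / (q p - 1)) ≤
      PP q ^ (k + 1) * (Real.exp (2 ^ (k + 1) * EE q) - 1) := by
  have h := prod_add_sub (fun p => (1 + 1 / (q p - 1)) ^ 2 + ((k : ℝ) - 1) / (q p - 1))
    (fun p => 2 ^ (k + 1) / (q p - 1) ^ 2) (fun p => base_ge q hq k p) (fun p => by positivity)
  rw [sum_z] at h
  have h2 := h.trans (mul_le_mul_of_nonneg_right (base_prod q hq k hk)
    (exp_sub_nonneg (c := 2 ^ (k + 1)) q (by positivity)))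
  refine le_trans (sub_le_sub_right ?_ _) h2
  unfold PP
  rw [← Finset.prod_pow]
  refine Finset.prod_le_prod (fun p _ => by have := w_nonneg hq p; positivity) fun p _ => ?_
  rw [base_eq]
  have hw := w_nonneg hq p
  have hw1 := w_le hq p
  have hz : (2 : ℝ) ^ (k + 1) / (q p - 1) ^ 2 = 2 ^ (k + 1) * (1 / (q p - 1)) ^ 2 := by
    rw [div_pow, one_pow, div_eq_mul_one_div]
  rw [hz]
  generalize 1 / (q p - 1) = w at hw hw1 ⊢
  have h3 := pow_bd w hw hw1 (k + 1)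
  push_cast at h3
  have h4 : 0 ≤ ((k : ℝ) + 2) * w ^ 2 := by positivity
  nlinarith

end Pool.Agent.MT
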