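import Pool.Agent.MT.Defs

/-! Module IND (part A of MP_3509fd_nt): from colourings to independent tuples of sets.

`form_M1d`: the form is `Σ_c y(c)² ∏_{c_p ≠ none} 1/g_p`; `c ↦ (cset c i)_i` is injective into all tuples
`S : Fin k → Finset ι`, all terms are nonnegative, and `Σ_S F(cl ∘ S) ∏_i w(S_i) = Σ_v F(v) ∏_i V(v_i)`
(`Finset.prod_univ_sum`, fibres over `v_i = cl (S_i)`).

`form_M0`: pairs `(c, c')` with nonzero kernel: for every `p`, both `c_p, c'_p ∈ {none, some m}` or `c_p = c'_p`.
Map `(c, c') ↦ (S, S') = ((cset c i)_i, cset c' m)`: injective on these pairs, kernel = `∏_i w(S_i) · w(S')`,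
`yy cl Y' c' = Y' (update (cl ∘ S) m (cl S'))`.  The pairs `(S, S')` not in the image contribute at most
`s s' (Σ all weights - Σ good weights)`, `Σ all = PP^(k+1)`, `Σ good = ∏_p Σ Σ M0 = ∏_p ((1 + w)² + (k-1) w)`. -/

set_option autoImplicit false
set_option linter.unusedSectionVars false

namespace Pool.Agent.MT

open Finset

variable {ι : Type} [Fintype ι] [DecidableEq ι] {k : ℕ}

/-- weight of a set of primes -/
private noncomputable def IND_w (q : ι → ℝ) (S : Finset ι) : ℝ := ∏ p ∈ S, 1 / (q p - 1)

omit [Fintype ι] [DecidableEq ι] in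
private theorem IND_w_nonneg (q : ι → ℝ) (hq : ∀ p, 2 ≤ q p) (S : Finset ι) : 0 ≤ IND_w q S := by
  unfold IND_w
  apply Finset.prod_nonneg
  intro p _
  have := hq p
  exact div_nonneg zero_le_one (by linarith)

private theorem IND_dim1 (q : ι → ℝ) (cl : Finset ι → ℕ) (M : ℕ) (G : ℕ → ℝ)
    (hG : ∀ s, G s ≠ 0 → s < M) :
    ∑ S : Finset ι, G (cl S) * IND_w q S = ∑ s ∈ range M, G s * VV q cl s := by
  have h1 : ∑ S : Finset ι, G (cl S) * IND_w q S =
      ∑ S ∈ (univ : Finset (Finset ι)).filter (fun S => cl S ∈ range M), G (cl S) * IND_w q S := by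
    symm
    apply Finset.sum_subset (Finset.filter_subset _ _)
    intro S _ hS
    rw [mem_filter] at hS
    have : G (cl S) = 0 := by
      by_contra h
      exact hS ⟨mem_univ _, mem_range.mpr (hG _ h)⟩
    rw [this, zero_mul]
  rw [h1]
  have h2 := Finset.sum_fiberwise_of_maps_to
    (s := (univ : Finset (Finset ι)).filter (fun S => cl S ∈ range M)) (t := range M) (g := cl)
    (fun S hS => (mem_filter.mp hS).2) (fun S => G (cl S) * IND_w q S)
  rw [← h2]
  apply Finset.sum_congr rfl
  intro s hs
  unfold VV
  rw [Finset.mul_sum]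
  rw [Finset.filter_filter]
  have : (univ : Finset (Finset ι)).filter (fun S => cl S ∈ range M ∧ cl S = s) =
      (univ : Finset (Finset ι)).filter (fun S => cl S = s) := by
    apply Finset.filter_congr
    intro S _
    constructor
    · exact fun h => h.2
    · exact fun h => ⟨h ▸ hs, h⟩
  rw [this]
  apply Finset.sum_congr rfl
  intro S hS
  rw [(mem_filter.mp hS).2]
  rfl

private theorem IND_dimk (q : ι → ℝ) (cl : Finset ι → ℕ) (M : ℕ) (F : (Fin k → ℕ) → ℝ)
    (hF : ∀ v, F v ≠ 0 → ∀ i, v i < M) :
    ∑ S : Fin k → Finset ι, F (fun i => cl (S i)) * ∏ i, IND_w q (S i) =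
      ∑ v ∈ grid k M, F v * ∏ i, VV q cl (v i) := by
  classical
  have h1 : ∑ S : Fin k → Finset ι, F (fun i => cl (S i)) * ∏ i, IND_w q (S i) =
      ∑ S ∈ (univ : Finset (Fin k → Finset ι)).filter (fun S => (fun i => cl (S i)) ∈ grid k M),
        F (fun i => cl (S i)) * ∏ i, IND_w q (S i) := by
    symm
    apply Finset.sum_subset (Finset.filter_subset _ _)
    intro S _ hS
    rw [mem_filter] at hS
    have : F (fun i => cl (S i)) = 0 := by
      by_contra h
      apply hS
      refine ⟨mem_univ _, ?_⟩
      unfold grid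
      rw [Fintype.mem_piFinset]
      intro i
      exact mem_range.mpr (hF _ h i)
    rw [this, zero_mul]
  rw [h1]
  have h2 := Finset.sum_fiberwise_of_maps_to
    (s := (univ : Finset (Fin k → Finset ι)).filter (fun S => (fun i => cl (S i)) ∈ grid k M))
    (t := grid k M) (g := fun S : Fin k → Finset ι => fun i => cl (S i))
    (fun S hS => (mem_filter.mp hS).2) (fun S => F (fun i => cl (S i)) * ∏ i, IND_w q (S i))
  rw [← h2]
  apply Finset.sum_congr rfl
  intro v hv
  unfold VV
  rw [Finset.prod_univ_sum, Finset.mul_sum]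
  have : ((univ : Finset (Fin k → Finset ι)).filter (fun S => (fun i => cl (S i)) ∈ grid k M)).filter
      (fun S => (fun i => cl (S i)) = v) =
      Fintype.piFinset (fun i => (univ : Finset (Finset ι)).filter (fun S => cl S = v i)) := by
    ext S
    simp only [mem_filter, mem_univ, true_and, Fintype.mem_piFinset]
    constructor
    · intro h i
      exact congrFun h.2 i
    · intro h
      have h' : (fun i => cl (S i)) = v := funext h
      exact ⟨h' ▸ hv, h'⟩
  rw [this]
  apply Finset.sum_congr rfl
  intro S hS
  rw [Fintype.mem_piFinset] at hS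
  have h' : (fun i => cl (S i)) = v := funext fun i => (mem_filter.mp (hS i)).2
  rw [h']
  rfl

/-- the product over the coloured primes -/
private theorem IND_prod (w : ι → ℝ) (c : ι → Col k) :
    ∏ p, (if c p = none then 1 else w p) = ∏ i, ∏ p ∈ cset c i, w p := by
  have h1 : ∀ i, ∏ p ∈ cset c i, w p = ∏ p, (if c p = some i then w p else 1) := by
    intro i
    unfold cset
    rw [Finset.prod_filter]
  simp only [h1]
  rw [Finset.prod_comm]
  apply Finset.prod_congr rfl
  intro p _
  rcases hc : c p with _ | j
  · simp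
  · rw [if_neg (by simp)]
    simp only [Option.some.injEq]
    rw [Finset.prod_ite_eq]
    simp

private theorem IND_inj (c d : ι → Col k) (h : ∀ i, cset c i = cset d i) : c = d := by
  funext p
  have h1 : ∀ i, c p = some i ↔ d p = some i := by
    intro i
    have := Finset.ext_iff.mp (h i) p
    unfold cset at this
    simpa using this
  rcases hc : c p with _ | j
  · rcases hd : d p with _ | l
    · rfl
    · have := (h1 l).2 hd
      rw [hc] at this
      exact absurd this (by simp)
  · exact ((h1 j).1 hc).symm

theorem form_M1d (q : ι → ℝ) (hq : ∀ p, 2 ≤ q p) (cl : Finset ι → ℕ) (M : ℕ) (s : ℝ) (Y : (Fin k → ℕ) → ℝ)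
    (hY : Grid M s Y) :
    form (fun p => M1d (q p)) (yy cl Y) (yy cl Y) ≤ T1 M (VV q cl) Y := by
  classical
  have hdiag : ∀ a : ι → Col k, ∑ b : ι → Col k, yy cl Y a * yy cl Y b * ∏ p, M1d (q p) (a p) (b p) =
      (Y fun i => cl (cset a i)) ^ 2 * ∏ i, IND_w q (cset a i) := by
    intro a
    rw [Finset.sum_eq_single a]
    · have h1 : ∏ p, M1d (q p) (a p) (a p) = ∏ i, IND_w q (cset a i) := by
        unfold IND_w
        rw [← IND_prod (fun p => 1 / (q p - 1)) a]
        apply Finset.prod_congr rfl
        intro p _
        rcases ha : a p with _ | j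
        · simp [M1d]
        · simp [M1d]
      rw [h1]
      unfold yy
      ring
    · intro b _ hb
      have : ∃ p, a p ≠ b p := by
        by_contra h
        push Not at h
        exact hb (funext fun p => (h p).symm)
      obtain ⟨p, hp⟩ := this
      have h0 : ∏ p, M1d (q p) (a p) (b p) = 0 := by
        apply Finset.prod_eq_zero (mem_univ p)
        rcases ha : a p with _ | i <;> rcases hb' : b p with _ | j
        · rw [ha, hb'] at hp; exact absurd rfl hp
        · rfl
        · rfl
        · have : i ≠ j := fun h => hp (by rw [ha, hb', h])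
          simp [M1d, this]
      rw [h0, mul_zero]
    · intro h; exact absurd (mem_univ a) h
  unfold form
  simp only [hdiag]
  have hnn : ∀ S : Fin k → Finset ι, 0 ≤ (Y fun i => cl (S i)) ^ 2 * ∏ i, IND_w q (S i) := by
    intro S
    apply mul_nonneg (sq_nonneg _)
    exact Finset.prod_nonneg fun i _ => IND_w_nonneg q hq _
  have hinj : Function.Injective (fun (a : ι → Col k) (i : Fin k) => cset a i) := by
    intro c d h
    exact IND_inj c d fun i => congrFun h i
  calc ∑ a : ι → Col k, (Y fun i => cl (cset a i)) ^ 2 * ∏ i, IND_w q (cset a i)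
      = ∑ S ∈ (univ : Finset (ι → Col k)).map ⟨fun (a : ι → Col k) (i : Fin k) => cset a i, hinj⟩,
          (Y fun i => cl (S i)) ^ 2 * ∏ i, IND_w q (S i) := by
        rw [Finset.sum_map]; rfl
    _ ≤ ∑ S : Fin k → Finset ι, (Y fun i => cl (S i)) ^ 2 * ∏ i, IND_w q (S i) := by
        apply Finset.sum_le_sum_of_subset_of_nonneg (Finset.subset_univ _)
        intro S _ _; exact hnn S
    _ = T1 M (VV q cl) Y := by
        rw [IND_dimk q cl M (fun v => Y v ^ 2)]
        · rfl
        · intro v hv i
          apply hY.supp v _ i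
          intro h
          apply hv
          simp [h]

private theorem one_div_pow_IND (x : ℝ) : 1 / x ^ 2 = (1 / x) ^ 2 := by
  rw [div_pow, one_pow]

/-- pairs of colourings with nonzero kernel -/
private def IND_good (m : Fin k) (c c' : ι → Col k) : Prop :=
  ∀ p i, i ≠ m → (c p = some i ↔ c' p = some i)

private theorem IND_kernel (m : Fin k) (q : ι → ℝ) (c c' : ι → Col k) [Decidable (IND_good m c c')] :
    ∏ p, M0 m (q p) (c p) (c' p) =
      if IND_good m c c' then (∏ i, IND_w q (cset c i)) * IND_w q (cset c' m) else 0 := by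
  classical
  split_ifs with hg
  · have h2 : IND_w q (cset c' m) = ∏ p, (if c' p = some m then 1 / (q p - 1) else 1) := by
      unfold IND_w cset
      rw [Finset.prod_filter]
    unfold IND_w at h2 ⊢
    rw [← IND_prod (fun p => 1 / (q p - 1)) c, h2, ← Finset.prod_mul_distrib]
    apply Finset.prod_congr rfl
    intro p _
    have hgp := hg p
    rcases hc : c p with _ | i <;> rcases hc' : c' p with _ | j
    · simp [M0]
    · have hj : j = m := by
        by_contra h
        have := (hgp j h).2 hc'
        rw [hc] at this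
        exact absurd this (by simp)
      subst hj
      simp [M0]
    · have hi : i = m := by
        by_contra h
        have := (hgp i h).1 hc
        rw [hc'] at this
        exact absurd this (by simp)
      subst hi
      simp [M0]
    · by_cases him : i = m
      · have hj : j = m := by
          by_contra h
          have := (hgp j h).2 hc'
          rw [hc] at this
          rw [him] at this
          exact h (Option.some.inj this).symm
        subst hj
        subst him
        simp only [M0, if_true, reduceCtorEq, if_false]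
        rw [one_div_pow_IND (q p - 1)]
        ring
      · have := (hgp i him).1 hc
        rw [hc'] at this
        have hji : j = i := Option.some.inj this
        subst hji
        simp [M0, him]
  · unfold IND_good at hg
    push Not at hg
    obtain ⟨p, i, him, hor⟩ := hg
    apply Finset.prod_eq_zero (mem_univ p)
    rcases hor with ⟨h1, h2⟩ | ⟨h1, h2⟩
    · rw [h1]
      rcases hc' : c' p with _ | j
      · simp [M0, him]
      · have hij : i ≠ j := fun h => h2 (by rw [hc', h])
        simp [M0, hij]
    · rw [h2]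
      rcases hc : c p with _ | j
      · simp [M0, him]
      · have hij : j ≠ i := fun h => h1 (by rw [hc, h])
        simp [M0, hij]

private theorem IND_sumM0 (m : Fin k) (q : ℝ) :
    ∑ a : Col k, ∑ b : Col k, M0 m q a b = (1 + 1 / (q - 1)) ^ 2 + ((k : ℝ) - 1) / (q - 1) := by
  rw [Fintype.sum_option]
  simp only [Fintype.sum_option, M0]
  rw [Finset.sum_ite_eq']
  simp only [mem_univ, if_true]
  have h1 : ∑ i : Fin k, ((if i = m then 1 / (q - 1) else 0) +
      ∑ j : Fin k, if i = j then (if i = m then 1 / (q - 1) ^ 2 else 1 / (q - 1)) else 0) =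
      1 / (q - 1) + (1 / (q - 1) ^ 2 + ((k : ℝ) - 1) / (q - 1)) := by
    rw [Finset.sum_add_distrib, Finset.sum_ite_eq']
    simp only [mem_univ, if_true]
    congr 1
    have h2 : ∀ i : Fin k, (∑ j : Fin k, if i = j then
        (if i = m then 1 / (q - 1) ^ 2 else 1 / (q - 1)) else 0) =
        1 / (q - 1) + (if i = m then (1 / (q - 1) ^ 2 - 1 / (q - 1)) else 0) := by
      intro i
      rw [Finset.sum_ite_eq]
      simp only [mem_univ, if_true]
      split_ifs <;> ring
    simp only [h2]
    rw [Finset.sum_add_distrib, Finset.sum_ite_eq']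
    simp only [mem_univ, if_true, Finset.sum_const, Finset.card_univ, Fintype.card_fin, nsmul_eq_mul]
    ring
  rw [h1, one_div_pow_IND]
  ring

theorem form_M0 (m : Fin k) (q : ι → ℝ) (hq : ∀ p, 2 ≤ q p) (cl : Finset ι → ℕ) (M : ℕ) (s s' : ℝ)
    (Y Y' : (Fin k → ℕ) → ℝ) (hY : Grid M s Y) (hY' : Grid M s' Y') :
    |form (fun p => M0 m (q p)) (yy cl Y) (yy cl Y') - T2 M (VV q cl) m Y Y'| ≤
      s * s' * (PP q ^ (k + 1) - ∏ p, ((1 + 1 / (q p - 1)) ^ 2 + ((k : ℝ) - 1) / (q p - 1))) := by
  classical
  -- weights and terms on pairs (S, S')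
  set Wt : (Fin k → Finset ι) × Finset ι → ℝ := fun x => (∏ i, IND_w q (x.1 i)) * IND_w q x.2 with hWt
  set At : (Fin k → Finset ι) × Finset ι → ℝ := fun x =>
    (Y fun i => cl (x.1 i)) * Y' (Function.update (fun i => cl (x.1 i)) m (cl x.2)) * Wt x with hAt
  set φ : (ι → Col k) × (ι → Col k) → (Fin k → Finset ι) × Finset ι :=
    fun x => (fun i => cset x.1 i, cset x.2 m) with hφ
  set G : Finset ((ι → Col k) × (ι → Col k)) := univ.filter fun x => IND_good m x.1 x.2 with hG
  have hWt0 : ∀ x, 0 ≤ Wt x := fun x =>
    mul_nonneg (Finset.prod_nonneg fun i _ => IND_w_nonneg q hq _) (IND_w_nonneg q hq _)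
  have hs0 : 0 ≤ s := (abs_nonneg _).trans (hY.bd fun _ => 0)
  have hs0' : 0 ≤ s' := (abs_nonneg _).trans (hY'.bd fun _ => 0)
  -- injectivity
  have hinj : Set.InjOn φ (G : Set ((ι → Col k) × (ι → Col k))) := by
    rintro ⟨c, c'⟩ hc ⟨d, d'⟩ hd h
    have hcg : IND_good m c c' := (mem_filter.mp hc).2
    have hdg : IND_good m d d' := (mem_filter.mp hd).2
    have h1 : ∀ i, cset c i = cset d i := fun i => congrFun (congrArg Prod.fst h) i
    have h2 : cset c' m = cset d' m := congrArg Prod.snd h
    have hcd : c = d := IND_inj c d h1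
    have hcd' : c' = d' := by
      apply IND_inj
      intro i
      by_cases him : i = m
      · rw [him]; exact h2
      · ext p
        unfold cset
        simp only [mem_filter, mem_univ, true_and]
        rw [← hcg p i him, ← hdg p i him, hcd]
    rw [hcd, hcd']
  -- the form is the sum over the image
  have hform : form (fun p => M0 m (q p)) (yy cl Y) (yy cl Y') = ∑ x ∈ G.image φ, At x := by
    unfold form
    rw [Finset.sum_image hinj, hG, Finset.sum_filter, ← Finset.univ_product_univ,
      Finset.sum_product]
    apply Finset.sum_congr rfl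
    intro c _
    apply Finset.sum_congr rfl
    intro c' _
    rw [IND_kernel m q c c']
    dsimp only
    split_ifs with hg
    · have h1 : yy cl Y' c' = Y' (Function.update (fun i => cl (cset c i)) m (cl (cset c' m))) := by
        unfold yy
        congr 1
        funext i
        by_cases him : i = m
        · subst him; rw [Function.update_self]
        · rw [Function.update_of_ne him]
          congr 1
          ext p
          unfold cset
          simp only [mem_filter, mem_univ, true_and]
          exact (hg p i him).symm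
      rw [h1, hAt, hWt, hφ]
      unfold yy
      ring
    · ring
  -- T2 is the sum over all pairs
  have hT2 : T2 M (VV q cl) m Y Y' = ∑ x : (Fin k → Finset ι) × Finset ι, At x := by
    rw [← Finset.univ_product_univ, Finset.sum_product]
    have h1 : ∀ S : Fin k → Finset ι, ∑ S' : Finset ι, At (S, S') =
        (Y (fun i => cl (S i)) * ∑ t ∈ range M,
          Y' (Function.update (fun i => cl (S i)) m t) * VV q cl t) * ∏ i, IND_w q (S i) := by
      intro S
      have h2 := IND_dim1 q cl M (fun t => Y' (Function.update (fun i => cl (S i)) m t)) (by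
        intro t ht
        have := hY'.supp _ ht m
        rwa [Function.update_self] at this)
      rw [← h2, Finset.mul_sum, Finset.sum_mul]
      apply Finset.sum_congr rfl
      intro S' _
      rw [hAt, hWt]
      ring
    simp only [h1]
    rw [IND_dimk q cl M (fun v => Y v * ∑ t ∈ range M, Y' (Function.update v m t) * VV q cl t)]
    · unfold T2
      apply Finset.sum_congr rfl
      intro v _
      rw [Finset.mul_sum, Finset.sum_mul]
      apply Finset.sum_congr rfl
      intro t _
      ring
    · intro v hv i
      apply hY.supp v _ i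
      intro h
      apply hv
      simp [h]
  -- total weights
  have hall : ∑ x : (Fin k → Finset ι) × Finset ι, Wt x = PP q ^ (k + 1) := by
    rw [← Finset.univ_product_univ, Finset.sum_product]
    have h1 : ∑ S' : Finset ι, IND_w q S' = PP q := by
      unfold PP IND_w
      rw [Finset.prod_one_add]
      rw [Finset.powerset_univ]
    simp only [hWt]
    have h2 : ∀ S : Fin k → Finset ι, ∑ S' : Finset ι, (∏ i, IND_w q (S i)) * IND_w q S' =
        (∏ i, IND_w q (S i)) * PP q := by
      intro S
      rw [← Finset.mul_sum, h1]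
    simp only [h2]
    rw [← Finset.sum_mul]
    have h3 : ∑ S : Fin k → Finset ι, ∏ i, IND_w q (S i) = PP q ^ k := by
      have := Finset.prod_univ_sum (fun _ : Fin k => (univ : Finset (Finset ι)))
        (fun _ S => IND_w q S)
      rw [Fintype.piFinset_univ] at this
      rw [← this]
      simp only [h1, Finset.prod_const, Finset.card_univ, Fintype.card_fin]
    rw [h3, pow_succ]
  have himg : ∑ x ∈ G.image φ, Wt x =
      ∏ p, ((1 + 1 / (q p - 1)) ^ 2 + ((k : ℝ) - 1) / (q p - 1)) := by
    rw [Finset.sum_image hinj, hG, Finset.sum_filter, ← Finset.univ_product_univ,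
      Finset.sum_product]
    have h1 : ∀ c c' : ι → Col k, (if IND_good m (c, c').1 (c, c').2 then Wt (φ (c, c')) else 0) =
        ∏ p, M0 m (q p) (c p) (c' p) := by
      intro c c'
      rw [IND_kernel m q c c']
    simp only [h1]
    have h2 : ∀ p, ((1 + 1 / (q p - 1)) ^ 2 + ((k : ℝ) - 1) / (q p - 1)) =
        ∑ a : Col k, ∑ b : Col k, M0 m (q p) a b := fun p => (IND_sumM0 m (q p)).symm
    simp only [h2]
    rw [Finset.prod_univ_sum, Fintype.piFinset_univ]
    apply Finset.sum_congr rfl
    intro c _
    rw [Finset.prod_univ_sum, Fintype.piFinset_univ]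
  -- conclusion
  have hsplitA : ∑ x : (Fin k → Finset ι) × Finset ι, At x =
      ∑ x ∈ G.image φ, At x + ∑ x ∈ univ \ G.image φ, At x := by
    rw [add_comm, Finset.sum_sdiff (Finset.subset_univ _)]
  have hsplitW : ∑ x : (Fin k → Finset ι) × Finset ι, Wt x =
      ∑ x ∈ G.image φ, Wt x + ∑ x ∈ univ \ G.image φ, Wt x := by
    rw [add_comm, Finset.sum_sdiff (Finset.subset_univ _)]
  rw [hform, hT2, hsplitA]
  rw [show ∑ x ∈ G.image φ, At x - (∑ x ∈ G.image φ, At x + ∑ x ∈ univ \ G.image φ, At x) =
    -(∑ x ∈ univ \ G.image φ, At x) by ring, abs_neg]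
  have hbd : |∑ x ∈ univ \ G.image φ, At x| ≤ s * s' * ∑ x ∈ univ \ G.image φ, Wt x := by
    rw [Finset.mul_sum]
    refine (Finset.abs_sum_le_sum_abs _ _).trans ?_
    apply Finset.sum_le_sum
    intro x _
    rw [hAt]
    dsimp only
    rw [abs_mul, abs_mul, abs_of_nonneg (hWt0 x)]
    apply mul_le_mul_of_nonneg_right _ (hWt0 x)
    exact mul_le_mul (hY.bd _) (hY'.bd _) (abs_nonneg _) hs0
  refine hbd.trans (le_of_eq ?_)
  rw [← hall, ← himg, hsplitW]
  ring

end Pool.Agent.MT
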