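import Pool.Agent.MT.TenG

/-! Module TEN (part A of MP_3509fd_nt): tensor lemmas. -/

set_option autoImplicit false

namespace Pool.Agent.MT

open Finset

variable {ι : Type} [Fintype ι] [DecidableEq ι] {k : ℕ}

theorem form_lam (q : ι → ℝ) (K : ι → Col k → Col k → ℝ) (y y' : (ι → Col k) → ℝ) :
    form K (lam q y) (lam q y') = form (fun p => conj (q p) (K p)) y y' :=
  formG_lamG (fun p => Bm (q p)) K y y'

theorem form_diff (K K' : ι → Col k → Col k → ℝ) (y y' : (ι → Col k) → ℝ) (s s' : ℝ)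
    (hy : ∀ c, |y c| ≤ s) (hy' : ∀ c, |y' c| ≤ s') :
    |form K y y' - form K' y y'| ≤ s * s' *
      (∏ p, ((∑ c, ∑ c', |K' p c c'|) + ∑ c, ∑ c', |K p c c' - K' p c c'|) - ∏ p, ∑ c, ∑ c', |K' p c c'|) :=
  formG_diff K K' y y' s s' hy hy'

theorem lam_abs (q : ι → ℝ) (y : (ι → Col k) → ℝ) (s : ℝ) (hy : ∀ c, |y c| ≤ s) (a : ι → Col k) :
    |lam q y a| ≤ s * ∏ p, ∑ c, |Bm (q p) (a p) c| :=
  lamG_abs (fun p => Bm (q p)) y s hy a

end Pool.Agent.MT
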