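import Pool.Agent.MT.Mat
import Pool.Agent.MT.Ten
import Pool.Agent.MT.Exps
import Pool.Agent.MT.Ind

/-! Assembly ALG (helper83): the two quadratic forms, abstractly. -/

set_option autoImplicit false

namespace Pool.Agent.MT

open Finset

variable {ι : Type} [Fintype ι] [DecidableEq ι] {k : ℕ}

omit [DecidableEq ι] in
theorem EE_nonneg (q : ι → ℝ) : 0 ≤ EE q := Finset.sum_nonneg fun p _ => by positivity

theorem Grid.s_nonneg {M : ℕ} {s : ℝ} {Y : (Fin k → ℕ) → ℝ} (hY : Grid M s Y) : 0 ≤ s :=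
  (abs_nonneg _).trans (hY.bd fun _ => 0)

theorem alg1 (q : ι → ℝ) (hq : ∀ p, 2 ≤ q p) (cl : Finset ι → ℕ) (M : ℕ) (s : ℝ) (Y : (Fin k → ℕ) → ℝ)
    (hY : Grid M s Y) :
    form (fun p => K1 (q p)) (lam q (yy cl Y)) (lam q (yy cl Y)) ≤
      T1 M (VV q cl) Y + s ^ 2 * (PP q ^ k * (Real.exp ((k : ℝ) ^ 2 * EE q) - 1)) := by
  rw [form_lam]
  have h1 := form_diff (fun p => conj (q p) (K1 (q p))) (fun p => M1d (k := k) (q p)) (yy cl Y) (yy cl Y) s s
    (fun c => hY.bd _) (fun c => hY.bd _)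
  have h2 := form_M1d q hq cl M s Y hY
  have hs := hY.s_nonneg
  have h3 : ∏ p, ((∑ c : Col k, ∑ c' : Col k, |M1d (q p) c c'|) +
      ∑ c : Col k, ∑ c' : Col k, |conj (q p) (K1 (q p)) c c' - M1d (q p) c c'|) -
      ∏ p, ∑ c : Col k, ∑ c' : Col k, |M1d (q p) c c'| ≤ PP q ^ k * (Real.exp ((k : ℝ) ^ 2 * EE q) - 1) := by
    refine le_trans ?_ (err1 q hq k)
    simp only [sum_M1d _ (hq _)]
    gcongr with p
    · intro p _
      have := hq p
      have : 0 ≤ (k : ℝ) / (q p - 1) := div_nonneg (Nat.cast_nonneg _) (by linarith)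
      positivity
    · simp only [conj_K1 _ (hq _)]
      exact sum_M1 _ (hq _)
  have h4 := (abs_le.1 h1).2
  nlinarith [mul_le_mul_of_nonneg_left h3 (mul_nonneg hs hs)]

theorem alg2 (m : Fin k) (q : ι → ℝ) (hq : ∀ p, 2 ≤ q p) (cl : Finset ι → ℕ) (M : ℕ) (s s' : ℝ)
    (Y Y' : (Fin k → ℕ) → ℝ) (hY : Grid M s Y) (hY' : Grid M s' Y') :
    |form (fun p => K2 m (q p)) (lam q (yy cl Y)) (lam q (yy cl Y')) - T2 M (VV q cl) m Y Y'| ≤
      s * s' * (PP q ^ (k + 1) * (Real.exp (3 * (k : ℝ) ^ 2 * EE q) + Real.exp (2 ^ (k + 1) * EE q) - 2)) := by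
  rw [form_lam]
  have hk : 1 ≤ k := by have := m.2; omega
  have h1 := form_diff (fun p => conj (q p) (K2 m (q p))) (fun p => M0 m (q p)) (yy cl Y) (yy cl Y') s s'
    (fun c => hY.bd _) (fun c => hY'.bd _)
  have h2 := form_M0 m q hq cl M s s' Y Y' hY hY'
  have hs := hY.s_nonneg
  have hs' := hY'.s_nonneg
  have h3 : ∏ p, ((∑ c : Col k, ∑ c' : Col k, |M0 m (q p) c c'|) +
      ∑ c : Col k, ∑ c' : Col k, |conj (q p) (K2 m (q p)) c c' - M0 m (q p) c c'|) -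
      ∏ p, ∑ c : Col k, ∑ c' : Col k, |M0 m (q p) c c'| ≤
        PP q ^ (k + 1) * (Real.exp (3 * (k : ℝ) ^ 2 * EE q) - 1) := by
    refine le_trans ?_ (err2a q hq k hk)
    simp only [sum_M0 _ _ (hq _)]
    gcongr with p
    · intro p _
      have := hq p
      have h1k : (1 : ℝ) ≤ k := by exact_mod_cast hk
      have : 0 ≤ ((k : ℝ) - 1) / (q p - 1) := div_nonneg (by linarith) (by linarith)
      positivity
    · exact conj_K2 m _ (hq _)
  have h4 := err2b q hq k hk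
  have h5 : |form (fun p => conj (q p) (K2 m (q p))) (yy cl Y) (yy cl Y') - T2 M (VV q cl) m Y Y'| ≤
      |form (fun p => conj (q p) (K2 m (q p))) (yy cl Y) (yy cl Y') - form (fun p => M0 m (q p)) (yy cl Y) (yy cl Y')| +
      |form (fun p => M0 m (q p)) (yy cl Y) (yy cl Y') - T2 M (VV q cl) m Y Y'| := abs_sub_le _ _ _
  have h6 := mul_le_mul_of_nonneg_left h3 (mul_nonneg hs hs')
  have h7 := mul_le_mul_of_nonneg_left h4 (mul_nonneg hs hs')
  calc _ ≤ _ := h5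
    _ ≤ _ := add_le_add h1 h2
    _ ≤ _ := add_le_add h6 h7
    _ = _ := by ring

end Pool.Agent.MT
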