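import Pool.Agent.MT.Defs

/-! Module CRT (part A of MP_3509fd_nt): `S1` as a quadratic form.
For a pair `a, b` of colourings: if some prime has two different colours, nothing is counted (`Large`) and `K1 = 0`;
else the conditions `n ≡ b mod W`, `p ∣ n + h_i` for the primes with colour `i` in `a` or `b` are one residue class mod
`W ∏ p`, so the count in `[N, 2N)` is `(N/W) ∏ 1/p` up to an error `≤ 1`. -/

set_option autoImplicit false

namespace Pool.Agent.MT

open Finset

namespace CRTAux

/-- counting a residue class in `[N, 2N)` -/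
theorem count_class (N Q r : ℕ) (hQ : 0 < Q) :
    |(((Ico N (2 * N)).filter (fun n => n ≡ r [MOD Q])).card : ℝ) - (N : ℝ) / Q| ≤ 1 := by
  have h1 := Nat.Ico_filter_modEq_card (a := N) (b := 2 * N) hQ r
  have hQ' : (0 : ℚ) < Q := by exact_mod_cast hQ
  have h3 : (⌈(((N : ℕ) : ℚ) - r) / Q⌉ : ℤ) ≤ ⌈(((2 * N : ℕ) : ℚ) - r) / Q⌉ := by
    apply Int.ceil_le_ceil
    apply div_le_div_of_nonneg_right _ hQ'.le
    have : (0 : ℚ) ≤ N := Nat.cast_nonneg N
    push_cast
    linarith
  have h2 : ((((Ico N (2 * N)).filter (fun n => n ≡ r [MOD Q])).card : ℤ) : ℚ) =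
      (⌈(((2 * N : ℕ) : ℚ) - r) / Q⌉ : ℚ) - (⌈(((N : ℕ) : ℚ) - r) / Q⌉ : ℚ) := by
    have h4 : (((Ico N (2 * N)).filter (fun n => n ≡ r [MOD Q])).card : ℤ) =
        ⌈(((2 * N : ℕ) : ℚ) - r) / Q⌉ - ⌈(((N : ℕ) : ℚ) - r) / Q⌉ := by
      rw [h1]
      exact max_eq_left (by linarith)
    rw [h4]
    push_cast
    ring
  have a1 := Int.le_ceil ((((2 * N : ℕ) : ℚ) - r) / Q)
  have a2 := Int.ceil_lt_add_one ((((2 * N : ℕ) : ℚ) - r) / Q)
  have a3 := Int.le_ceil ((((N : ℕ) : ℚ) - r) / Q)
  have a4 := Int.ceil_lt_add_one ((((N : ℕ) : ℚ) - r) / Q)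
  have h5 : (((2 * N : ℕ) : ℚ) - r) / Q - (((N : ℕ) : ℚ) - r) / Q = (N : ℚ) / Q := by
    push_cast
    field_simp
    ring
  have h6 : |((((Ico N (2 * N)).filter (fun n => n ≡ r [MOD Q])).card : ℤ) : ℚ) - (N : ℚ) / Q| ≤ 1 := by
    rw [h2, ← h5, abs_le]
    constructor <;> linarith
  have h7 : ((|((((Ico N (2 * N)).filter (fun n => n ≡ r [MOD Q])).card : ℤ) : ℚ) - (N : ℚ) / Q| : ℚ) : ℝ)
      ≤ ((1 : ℚ) : ℝ) := by exact_mod_cast h6
  push_cast at h7
  exact h7

theorem prime_of_pr {D N : ℕ} (p : Pr D N) : (p : ℕ).Prime ∧ D < (p : ℕ) := by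
  have h : (p : ℕ) ∈ PrS D N := p.2
  unfold PrS at h
  exact (mem_filter.1 h).2

theorem coprime_primorial {D N : ℕ} (p : Pr D N) : (primorial D).Coprime (p : ℕ) := by
  obtain ⟨hp, hD⟩ := prime_of_pr p
  rw [Nat.coprime_comm, hp.coprime_iff_not_dvd]
  intro h
  have := (Prime.dvd_finsetProd_iff hp.prime _).1 h
  obtain ⟨q, hq, hpq⟩ := this
  rw [mem_filter, mem_range] at hq
  have := (Nat.prime_dvd_prime_iff_eq hp hq.2).1 hpq
  omega

/-- one residue class -/
theorem one_class {k : ℕ} (h : Fin k → ℕ) (D N b : ℕ) (c : Pr D N → Fin k) (S : Finset (Pr D N)) :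
    ∃ r, ∀ n : ℕ, (n ≡ b [MOD primorial D] ∧ ∀ p ∈ S, (p : ℕ) ∣ n + h (c p)) ↔
      n ≡ r [MOD primorial D * ∏ p ∈ S, (p : ℕ)] := by
  classical
  induction S using Finset.induction_on with
  | empty => exact ⟨b, fun n => by simp⟩
  | insert p S hp ih =>
      obtain ⟨r, hr⟩ := ih
      obtain ⟨hpp, hpD⟩ := prime_of_pr p
      have hco : (primorial D * ∏ q ∈ S, (q : ℕ)).Coprime (p : ℕ) := by
        apply Nat.Coprime.mul_left (coprime_primorial p)
        apply Nat.Coprime.prod_left
        intro q hq
        rw [Nat.coprime_primes (prime_of_pr q).1 hpp]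
        intro h0
        apply hp
        rwa [← Subtype.ext h0]
      obtain ⟨s, hs1, hs2⟩ := Nat.chineseRemainder hco r (((p : ℕ) - 1) * h (c p))
      refine ⟨s, fun n => ?_⟩
      have h1 : primorial D * ∏ q ∈ insert p S, (q : ℕ) =
          (primorial D * ∏ q ∈ S, (q : ℕ)) * (p : ℕ) := by
        rw [prod_insert hp]
        ring
      rw [h1, ← Nat.modEq_and_modEq_iff_modEq_mul hco]
      have h2 : (p : ℕ) ∣ n + h (c p) ↔ n ≡ s [MOD (p : ℕ)] := by
        have h3 : (p : ℕ) ∣ ((p : ℕ) - 1) * h (c p) + h (c p) := by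
          refine ⟨h (c p), ?_⟩
          have : 1 ≤ (p : ℕ) := hpp.one_lt.le
          obtain ⟨t, ht⟩ := Nat.exists_eq_add_of_le this
          rw [ht]
          simp
          ring
        have h4 : (p : ℕ) ∣ s + h (c p) := by
          have h5 : s + h (c p) ≡ ((p : ℕ) - 1) * h (c p) + h (c p) [MOD (p : ℕ)] := hs2.add_right _
          exact (h5.dvd_iff dvd_rfl).2 h3
        constructor
        · intro h5
          have h6 : n + h (c p) ≡ s + h (c p) [MOD (p : ℕ)] :=
            ((Nat.modEq_zero_iff_dvd).2 h5).trans ((Nat.modEq_zero_iff_dvd).2 h4).symm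
          exact Nat.ModEq.add_right_cancel' _ h6
        · intro h5
          exact ((h5.add_right (h (c p))).dvd_iff dvd_rfl).2 h4
      constructor
      · rintro ⟨h5, h6⟩
        refine ⟨?_, h2.1 (h6 p (mem_insert_self _ _))⟩
        exact ((hr n).1 ⟨h5, fun q hq => h6 q (mem_insert_of_mem hq)⟩).trans hs1.symm
      · rintro ⟨h5, h6⟩
        obtain ⟨h7, h8⟩ := (hr n).2 (h5.trans hs1)
        refine ⟨h7, fun q hq => ?_⟩
        rcases mem_insert.1 hq with rfl | hq
        · exact h2.2 h6
        · exact h8 q hq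

end CRTAux

open CRTAux

theorem count_K1 {k : ℕ} (h : Fin k → ℕ) (D N b : ℕ) (hL : Large h D) (a a' : Pr D N → Col k) :
    |∑ n ∈ rng (primorial D) b N, ind h a n * ind h a' n -
      N / (primorial D : ℕ) * ∏ p, K1 (qq D N p) (a p) (a' p)| ≤ 1 := by
  classical
  by_cases hbad : ∃ (p : Pr D N) (i j : Fin k), a p = some i ∧ a' p = some j ∧ i ≠ j
  · obtain ⟨p, i, j, hi, hj, hij⟩ := hbad
    obtain ⟨hp, hD⟩ := prime_of_pr p
    have h1 : ∑ n ∈ rng (primorial D) b N, ind h a n * ind h a' n = 0 := by
      apply sum_eq_zero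
      intro n _
      unfold ind
      by_cases hn : ∀ (p : Pr D N) (i : Fin k), a p = some i → (p : ℕ) ∣ n + h i
      · have h2 : ¬ ∀ (p : Pr D N) (i : Fin k), a' p = some i → (p : ℕ) ∣ n + h i := fun h3 =>
          hL p n i j hp hD hij (hn p i hi) (h3 p j hj)
        rw [if_neg h2, mul_zero]
      · rw [if_neg hn, zero_mul]
    have h2 : ∏ p, K1 (qq D N p) (a p) (a' p) = 0 := by
      apply prod_eq_zero (mem_univ p)
      rw [hi, hj]
      simp [K1, hij]
    rw [h1, h2, mul_zero, sub_zero, abs_zero]
    exact zero_le_one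
  · push Not at hbad
    -- `k` may be zero only if there are no colours
    by_cases hk : IsEmpty (Fin k)
    · have ha : ∀ p, a p = none := fun p => by
        cases h0 : a p with
        | none => rfl
        | some i => exact (hk.false i).elim
      have ha' : ∀ p, a' p = none := fun p => by
        cases h0 : a' p with
        | none => rfl
        | some i => exact (hk.false i).elim
      have h1 : ∑ n ∈ rng (primorial D) b N, ind h a n * ind h a' n =
          (((Ico N (2 * N)).filter (fun n => n ≡ b [MOD primorial D])).card : ℝ) := by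
        rw [rng, card_eq_sum_ones, Nat.cast_sum]
        refine sum_congr rfl fun n _ => ?_
        unfold ind
        rw [if_pos (by intro p i; exact (hk.false i).elim),
          if_pos (by intro p i; exact (hk.false i).elim)]
        simp
      have h2 : ∏ p, K1 (qq D N p) (a p) (a' p) = 1 := by
        apply prod_eq_one
        intro p _
        rw [ha, ha']
        rfl
      rw [h1, h2, mul_one]
      exact count_class N (primorial D) b (primorial_pos D)
    · rw [not_isEmpty_iff] at hk
      let c : Pr D N → Fin k := fun p => (a p).getD ((a' p).getD (Classical.arbitrary _))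
      let S : Finset (Pr D N) := univ.filter fun p => a p ≠ none ∨ a' p ≠ none
      obtain ⟨r, hr⟩ := one_class h D N b c S
      have hc : ∀ p i, a p = some i → c p = i := by
        intro p i hi
        simp [c, hi]
      have hc' : ∀ p i, a' p = some i → c p = i := by
        intro p i hi
        cases h0 : a p with
        | none => simp [c, hi, h0]
        | some j =>
            have : j = i := hbad p j i h0 hi
            simp [c, h0, this]
      have hcond : ∀ n : ℕ, (∀ p ∈ S, (p : ℕ) ∣ n + h (c p)) ↔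
          ((∀ (p : Pr D N) (i : Fin k), a p = some i → (p : ℕ) ∣ n + h i) ∧
            (∀ (p : Pr D N) (i : Fin k), a' p = some i → (p : ℕ) ∣ n + h i)) := by
        intro n
        constructor
        · intro h1
          refine ⟨fun p i hi => ?_, fun p i hi => ?_⟩
          · have := h1 p (by simp [S, hi])
            rwa [hc p i hi] at this
          · have := h1 p (by simp [S, hi])
            rwa [hc' p i hi] at this
        · rintro ⟨h1, h2⟩ p hp
          rw [mem_filter] at hp
          rcases hp.2 with h3 | h3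
          · obtain ⟨i, hi⟩ := Option.ne_none_iff_exists'.1 h3
            rw [hc p i hi]
            exact h1 p i hi
          · obtain ⟨i, hi⟩ := Option.ne_none_iff_exists'.1 h3
            rw [hc' p i hi]
            exact h2 p i hi
      have h1 : ∑ n ∈ rng (primorial D) b N, ind h a n * ind h a' n =
          (((Ico N (2 * N)).filter (fun n => n ≡ r [MOD primorial D * ∏ p ∈ S, (p : ℕ)])).card : ℝ) := by
        have h2 : (Ico N (2 * N)).filter (fun n => n ≡ r [MOD primorial D * ∏ p ∈ S, (p : ℕ)]) =
            (rng (primorial D) b N).filter (fun n => ∀ p ∈ S, (p : ℕ) ∣ n + h (c p)) := by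
          rw [rng, filter_filter]
          refine filter_congr fun n _ => ?_
          exact (hr n).symm
        rw [h2, card_filter, Nat.cast_sum]
        refine sum_congr rfl fun n _ => ?_
        unfold ind
        by_cases h3 : ∀ p ∈ S, (p : ℕ) ∣ n + h (c p)
        · have h4 := (hcond n).1 h3
          rw [if_pos h4.1, if_pos h4.2, if_pos h3]
          simp
        · rw [if_neg h3]
          by_cases h5 : ∀ (p : Pr D N) (i : Fin k), a p = some i → (p : ℕ) ∣ n + h i
          · rw [if_neg (fun h6 => h3 ((hcond n).2 ⟨h5, h6⟩))]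
            simp
          · rw [if_neg h5]
            simp
      have h2 : ∏ p, K1 (qq D N p) (a p) (a' p) = ((∏ p ∈ S, (p : ℕ) : ℕ) : ℝ)⁻¹ := by
        rw [Nat.cast_prod, ← prod_inv_distrib, prod_filter]
        refine prod_congr rfl fun p _ => ?_
        cases h3 : a p with
        | none =>
            cases h4 : a' p with
            | none => simp [K1]
            | some j => simp [K1, qq]
        | some i =>
            cases h4 : a' p with
            | none => simp [K1, qq]
            | some j =>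
                have : i = j := hbad p i j h3 h4
                subst this
                simp [K1, qq]
      have hQ : 0 < primorial D * ∏ p ∈ S, (p : ℕ) :=
        Nat.mul_pos (primorial_pos D) (prod_pos fun p _ => (prime_of_pr p).1.pos)
      have h3 := count_class N (primorial D * ∏ p ∈ S, (p : ℕ)) r hQ
      rw [h1, h2]
      have h4 : (N : ℝ) / (primorial D : ℕ) * ((∏ p ∈ S, (p : ℕ) : ℕ) : ℝ)⁻¹ =
          (N : ℝ) / ((primorial D * ∏ p ∈ S, (p : ℕ) : ℕ) : ℝ) := by
        rw [Nat.cast_mul, div_mul_eq_div_div, div_eq_mul_inv ((N : ℝ) / (primorial D : ℕ))]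
      rw [h4]
      exact h3

theorem S1_err {k : ℕ} (h : Fin k → ℕ) (D M b N : ℕ) (hL : Large h D) (Y : (Fin k → ℕ) → ℝ) :
    |S1 h D M b N Y - N / (primorial D : ℕ) *
      form (fun p => K1 (qq D N p)) (lamY D N M Y) (lamY D N M Y)| ≤ (∑ a, |lamY D N M Y a|) ^ 2 := by
  have h1 : S1 h D M b N Y = ∑ a : Pr D N → Col k, ∑ a' : Pr D N → Col k,
      lamY D N M Y a * lamY D N M Y a' *
        ∑ n ∈ rng (primorial D) b N, ind h a n * ind h a' n := by
    unfold S1 Lam
    simp_rw [mul_sum]
    rw [sum_congr rfl (fun n _ => show (∑ a : Pr D N → Col k, lamY D N M Y a * ind h a n) ^ 2 =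
      ∑ a : Pr D N → Col k, ∑ a' : Pr D N → Col k,
        lamY D N M Y a * lamY D N M Y a' * (ind h a n * ind h a' n) by
          rw [sq, sum_mul_sum]
          refine sum_congr rfl fun a _ => sum_congr rfl fun a' _ => by ring)]
    rw [sum_comm]
    refine sum_congr rfl fun a _ => ?_
    rw [sum_comm]
  have h2 : N / (primorial D : ℕ) *
      form (fun p => K1 (qq D N p)) (lamY D N M Y) (lamY D N M Y) =
      ∑ a : Pr D N → Col k, ∑ a' : Pr D N → Col k,
      lamY D N M Y a * lamY D N M Y a' *
        (N / (primorial D : ℕ) * ∏ p, K1 (qq D N p) (a p) (a' p)) := by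
    unfold form
    rw [mul_sum]
    refine sum_congr rfl fun a _ => ?_
    rw [mul_sum]
    refine sum_congr rfl fun a' _ => by ring
  rw [h1, h2, ← sum_sub_distrib, sq, sum_mul_sum]
  refine le_trans (abs_sum_le_sum_abs _ _) (sum_le_sum fun a _ => ?_)
  rw [← sum_sub_distrib]
  refine le_trans (abs_sum_le_sum_abs _ _) (sum_le_sum fun a' _ => ?_)
  rw [← mul_sub, abs_mul, abs_mul]
  calc |lamY D N M Y a| * |lamY D N M Y a'| * _ ≤ |lamY D N M Y a| * |lamY D N M Y a'| * 1 :=
        mul_le_mul_of_nonneg_left (count_K1 h D N b hL a a') (by positivity)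
    _ = _ := mul_one _

end Pool.Agent.MT
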