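import Pool.Agent.MT.Defs
import Pool.Agent.MT.HW

/-! Module ONE (part A of MP_3509fd_nt): the one-dimensional sum.  `VV (qq D N) (cell M) j` is the sum of
`1/φ(n)` over squarefree `n` coprime to `W = primorial D`, with `N^(j/M) ≤ n < N^((j+1)/M)` (as `j < M` all prime factors
are `< N`; `S ↦ ∏ S` is a bijection onto such `n`).  So it is `H((j+1)/M) - H(j/M)` with
`H(t) = Σ_{n < N^t} ...`, and one needs `H_W(x) = Σ_{n<x, (n,W)=1} μ²(n)/φ(n) ~ (φ(W)/W) log x` for fixed `W`.

Elementary proof: lower bound `H_W(x) = Σ_{m : rad m < x, (m,W)=1} 1/m ≥ Σ_{m<x,(m,W)=1} 1/m ≥ (φ(W)/W) log x - C_W`.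
Upper bound: the extra `m ≥ x` with `rad m < x`: those `< xT` give `≤ log T + 1`; for `m ≥ xT` write `m = n s`,
`n = rad m < x`, `rad s ∣ n`, `s ≥ T`: `≤ Σ_{s ≥ T} (1/s) Σ_{n<x, rad s ∣ n} 1/n ≤ (1 + log x) Σ_{s≥T} 1/(s rad s)`,
and `Σ 1/(s rad s) < ∞` (Euler product `∏ (1 + 1/(p(p-1)))`, or `s rad s` is powerful).  Let `x → ∞`, then `T → ∞`.
(Or: convolution `μ² n/φ(n) 1_{(n,W)=1} = 1 * h`.) -/

set_option autoImplicit false

namespace Pool.Agent.MT

open Finset Filter Topology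

section VVsec

variable {D N : ℕ}

private theorem VV_prime (p : Pr D N) : (p : ℕ).Prime :=
  ((mem_filter.mp p.2).2).1

private theorem VV_gt (p : Pr D N) : D < (p : ℕ) :=
  ((mem_filter.mp p.2).2).2

private theorem VV_dvd (S : Finset (Pr D N)) (p : Pr D N) : (p : ℕ) ∣ val S ↔ p ∈ S := by
  unfold val
  rw [(VV_prime p).prime.dvd_finset_prod_iff]
  constructor
  · rintro ⟨r, hr, hpr⟩
    have : (p : ℕ) = (r : ℕ) := (Nat.prime_dvd_prime_iff_eq (VV_prime p) (VV_prime r)).mp hpr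
    rwa [Subtype.ext this]
  · intro h
    exact ⟨p, h, dvd_refl _⟩

private theorem VV_cop (S : Finset (Pr D N)) (p : Pr D N) (hp : p ∉ S) :
    (p : ℕ).Coprime (val S) := by
  rw [(VV_prime p).coprime_iff_not_dvd, VV_dvd]
  exact hp

private theorem VV_insert (S : Finset (Pr D N)) (p : Pr D N) (hp : p ∉ S) :
    val (insert p S) = (p : ℕ) * val S := by
  unfold val
  rw [Finset.prod_insert hp]

private theorem VV_sqf (S : Finset (Pr D N)) : Squarefree (val S) := by
  classical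
  induction S using Finset.induction_on with
  | empty => simp [val]
  | insert p S hp ih =>
    rw [VV_insert S p hp, Nat.squarefree_mul (VV_cop S p hp)]
    exact ⟨(VV_prime p).prime.squarefree, ih⟩

private theorem VV_tot (S : Finset (Pr D N)) :
    1 / ((val S).totient : ℝ) = ∏ p ∈ S, 1 / (qq D N p - 1) := by
  classical
  induction S using Finset.induction_on with
  | empty => simp [val]
  | insert p S hp ih =>
    rw [VV_insert S p hp, Nat.totient_mul (VV_cop S p hp), Finset.prod_insert hp, ← ih,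
      Nat.totient_prime (VV_prime p)]
    have h1 : ((((p : ℕ) - 1 : ℕ) : ℝ)) = qq D N p - 1 := by
      unfold qq
      rw [Nat.cast_sub (VV_prime p).one_lt.le]
      simp
    rw [Nat.cast_mul, h1, one_div_mul_one_div]

private theorem VV_pos (S : Finset (Pr D N)) : 1 ≤ val S :=
  Nat.one_le_iff_ne_zero.mpr (VV_sqf S).ne_zero

private theorem VV_coprime (S : Finset (Pr D N)) : (val S).Coprime (primorial D) := by
  unfold val
  apply Nat.Coprime.prod_left
  intro p _
  rw [(VV_prime p).coprime_iff_not_dvd]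
  intro h
  unfold primorial at h
  rw [(VV_prime p).prime.dvd_finset_prod_iff] at h
  obtain ⟨r, hr, hpr⟩ := h
  rw [mem_filter, mem_range] at hr
  have : (p : ℕ) = r := (Nat.prime_dvd_prime_iff_eq (VV_prime p) hr.2).mp hpr
  have h2 := VV_gt p
  omega

private theorem VV_inj : Function.Injective (val : Finset (Pr D N) → ℕ) := by
  intro S T h
  ext p
  rw [← VV_dvd S p, ← VV_dvd T p, h]

private theorem VV_surj (n : ℕ) (hn : Squarefree n) (hc : n.Coprime (primorial D)) (hN : n < N) :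
    ∃ S : Finset (Pr D N), val S = n := by
  classical
  refine ⟨univ.filter (fun p : Pr D N => (p : ℕ) ∣ n), ?_⟩
  unfold val
  rw [← Nat.prod_primeFactors_of_squarefree hn]
  apply Finset.prod_bij (fun (p : Pr D N) _ => (p : ℕ))
  · intro p hp
    rw [mem_filter] at hp
    rw [Nat.prod_primeFactors_of_squarefree hn] at hp
    exact Nat.mem_primeFactors.mpr ⟨VV_prime p, hp.2, hn.ne_zero⟩
  · intro p _ r _ h
    exact Subtype.ext h
  · intro r hr
    have hr' := Nat.mem_primeFactors.mp hr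
    have hmem : r ∈ PrS D N := by
      unfold PrS
      rw [mem_filter, mem_range]
      refine ⟨lt_of_le_of_lt (Nat.le_of_dvd (Nat.pos_of_ne_zero hn.ne_zero) hr'.2.1) hN, hr'.1, ?_⟩
      by_contra hD
      push Not at hD
      have h1 : r ∣ primorial D := by
        unfold primorial
        apply Finset.dvd_prod_of_mem
        rw [mem_filter, mem_range]
        exact ⟨by omega, hr'.1⟩
      have := Nat.Coprime.eq_one_of_dvd (hc.coprime_dvd_left hr'.2.1) h1
      exact hr'.1.one_lt.ne' this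
    refine ⟨⟨r, hmem⟩, ?_, rfl⟩
    rw [mem_filter, Nat.prod_primeFactors_of_squarefree hn]
    exact ⟨mem_univ _, hr'.2.1⟩
  · intro p _
    rfl

private theorem VV_cell (hN : 2 ≤ N) {M : ℕ} (hM : 1 ≤ M) (j : ℕ) (S : Finset (Pr D N)) :
    cell M S = j ↔ (N : ℝ) ^ ((j : ℝ) / M) ≤ (val S : ℝ) ∧
      (val S : ℝ) < (N : ℝ) ^ (((j : ℝ) + 1) / M) := by
  have hN1 : (1 : ℝ) < N := by exact_mod_cast (by omega : 1 < N)
  have hN0 : (0 : ℝ) < N := by linarith
  have hlog : 0 < Real.log N := Real.log_pos hN1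
  have hM0 : (0 : ℝ) < M := by exact_mod_cast hM
  have hv1 : (1 : ℝ) ≤ val S := by exact_mod_cast VV_pos S
  have hv0 : (0 : ℝ) < val S := by linarith
  have hnn : 0 ≤ (M : ℝ) * Real.log (val S) / Real.log N := by
    have := Real.log_nonneg hv1
    positivity
  unfold cell
  rw [Nat.floor_eq_iff hnn]
  have h1 : ((j : ℝ) ≤ (M : ℝ) * Real.log (val S) / Real.log N) ↔
      (N : ℝ) ^ ((j : ℝ) / M) ≤ (val S : ℝ) := by
    rw [Real.rpow_def_of_pos hN0, ← Real.le_log_iff_exp_le hv0, le_div_iff₀ hlog,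
      mul_div_assoc', div_le_iff₀ hM0]
    constructor <;> intro h <;> linarith
  have h2 : ((M : ℝ) * Real.log (val S) / Real.log N < (j : ℝ) + 1) ↔
      (val S : ℝ) < (N : ℝ) ^ (((j : ℝ) + 1) / M) := by
    rw [Real.rpow_def_of_pos hN0, ← Real.log_lt_iff_lt_exp hv0, div_lt_iff₀ hlog,
      mul_div_assoc', lt_div_iff₀ hM0]
    constructor <;> intro h <;> linarith
  rw [h1, h2]

end VVsec

theorem VV_eq (D N M j : ℕ) (hD : 2 ≤ D) (hN : 2 ≤ N) (hM : 1 ≤ M) (hj : j < M) :
    VV (qq D N) (cell M) j =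
      HW (primorial D) ((N : ℝ) ^ (((j : ℝ) + 1) / M)) - HW (primorial D) ((N : ℝ) ^ ((j : ℝ) / M)) := by
  classical
  have hN1 : (1 : ℝ) ≤ N := by exact_mod_cast (by omega : 1 ≤ N)
  have hM0 : (0 : ℝ) < M := by exact_mod_cast hM
  set x1 : ℝ := (N : ℝ) ^ ((j : ℝ) / M) with hx1
  set x2 : ℝ := (N : ℝ) ^ (((j : ℝ) + 1) / M) with hx2
  have hx12 : x1 ≤ x2 := by
    apply Real.rpow_le_rpow_of_exponent_le hN1
    gcongr
    linarith
  have hx2N : x2 ≤ N := by
    calc x2 ≤ (N : ℝ) ^ (1 : ℝ) := by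
          apply Real.rpow_le_rpow_of_exponent_le hN1
          rw [div_le_one hM0]
          exact_mod_cast hj
      _ = N := Real.rpow_one _
  -- difference of the two sums
  have hdiff : HW (primorial D) x2 - HW (primorial D) x1 =
      ∑ n ∈ ((Ico 1 ⌈x2⌉₊).filter (fun n => Squarefree n ∧ n.Coprime (primorial D))).filter
        (fun n : ℕ => x1 ≤ (n : ℝ)), 1 / (n.totient : ℝ) := by
    unfold HW
    rw [← Finset.sum_filter_add_sum_filter_not
      ((Ico 1 ⌈x2⌉₊).filter (fun n => Squarefree n ∧ n.Coprime (primorial D)))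
      (fun n : ℕ => x1 ≤ (n : ℝ))]
    have : ((Ico 1 ⌈x2⌉₊).filter (fun n => Squarefree n ∧ n.Coprime (primorial D))).filter
        (fun n : ℕ => ¬ x1 ≤ (n : ℝ)) =
        (Ico 1 ⌈x1⌉₊).filter (fun n => Squarefree n ∧ n.Coprime (primorial D)) := by
      ext n
      simp only [mem_filter, mem_Ico, not_le, Nat.lt_ceil]
      constructor
      · rintro ⟨⟨⟨h1, _⟩, h3⟩, h4⟩
        exact ⟨⟨h1, h4⟩, h3⟩
      · rintro ⟨⟨h1, h4⟩, h3⟩
        exact ⟨⟨⟨h1, lt_of_lt_of_le h4 hx12⟩, h3⟩, h4⟩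
    rw [this]
    ring
  rw [hdiff]
  unfold VV
  apply Finset.sum_bij (fun (S : Finset (Pr D N)) _ => val S)
  · intro S hS
    have hc := (VV_cell hN hM j S).mp (mem_filter.mp hS).2
    simp only [mem_filter, mem_Ico, Nat.lt_ceil]
    exact ⟨⟨⟨VV_pos S, hc.2⟩, VV_sqf S, VV_coprime S⟩, hc.1⟩
  · intro S _ T _ h
    exact VV_inj h
  · intro n hn
    simp only [mem_filter, mem_Ico, Nat.lt_ceil] at hn
    obtain ⟨⟨⟨h1, h2⟩, h3, h4⟩, h5⟩ := hn
    have hnN : n < N := by exact_mod_cast lt_of_lt_of_le h2 hx2N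
    obtain ⟨S, hS⟩ := VV_surj (D := D) (N := N) n h3 h4 hnN
    refine ⟨S, ?_, hS⟩
    rw [mem_filter]
    refine ⟨mem_univ _, (VV_cell hN hM j S).mpr ?_⟩
    rw [hS]
    exact ⟨h5, h2⟩
  · intro S _
    exact (VV_tot S).symm

theorem VV_tendsto (D M j : ℕ) (hD : 2 ≤ D) (hM : 1 ≤ M) (hj : j < M) :
    Tendsto (fun N : ℕ => VV (qq D N) (cell M) j / XX D N) atTop (𝓝 (1 / (M : ℝ))) := by
  have hM0 : (0 : ℝ) < M := by exact_mod_cast hM
  set W : ℕ := primorial D with hW
  have hWpos : 0 < W := primorial_pos D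
  have hφ : (0 : ℝ) < (W.totient : ℝ) / W := by
    have h1 : 0 < W.totient := Nat.totient_pos.mpr hWpos
    have h2 : (0 : ℝ) < W.totient := by exact_mod_cast h1
    have h3 : (0 : ℝ) < W := by exact_mod_cast hWpos
    positivity
  -- one power
  have key : ∀ a : ℝ, 0 < a → Tendsto (fun N : ℕ => HW W ((N : ℝ) ^ a) / Real.log N) atTop
      (𝓝 (a * ((W.totient : ℝ) / W))) := by
    intro a ha
    have h1 : Tendsto (fun N : ℕ => (N : ℝ) ^ a) atTop atTop :=
      (tendsto_rpow_atTop ha).comp tendsto_natCast_atTop_atTop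
    have h2 := (HW_tendsto W hWpos).comp h1
    have h3 := h2.const_mul a
    refine h3.congr' ?_
    filter_upwards [Filter.eventually_ge_atTop 2] with N hN
    have hN1 : (1 : ℝ) < N := by exact_mod_cast (by omega : 1 < N)
    have hlog : 0 < Real.log N := Real.log_pos hN1
    simp only [Function.comp]
    rw [Real.log_rpow (by linarith)]
    field_simp
  have key0 : ∀ a : ℝ, 0 ≤ a → Tendsto (fun N : ℕ => HW W ((N : ℝ) ^ a) / Real.log N) atTop
      (𝓝 (a * ((W.totient : ℝ) / W))) := by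
    intro a ha
    rcases ha.lt_or_eq with h | h
    · exact key a h
    · subst h
      have : ∀ N : ℕ, HW W ((N : ℝ) ^ (0 : ℝ)) / Real.log N = 0 := by
        intro N
        rw [Real.rpow_zero]
        unfold HW
        simp
      simp only [this]
      simp
  have hA := key0 (((j : ℝ) + 1) / M) (by positivity)
  have hB := key0 ((j : ℝ) / M) (by positivity)
  have hC := (hA.sub hB).div_const ((W.totient : ℝ) / W)
  have hlim : (((j : ℝ) + 1) / M * ((W.totient : ℝ) / W) - (j : ℝ) / M * ((W.totient : ℝ) / W)) /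
      ((W.totient : ℝ) / W) = 1 / M := by
    field_simp
    ring
  rw [hlim] at hC
  refine hC.congr' ?_
  filter_upwards [Filter.eventually_ge_atTop 2] with N hN
  have hN1 : (1 : ℝ) < N := by exact_mod_cast (by omega : 1 < N)
  have hlog : 0 < Real.log N := Real.log_pos hN1
  rw [VV_eq D N M j hD hN hM hj]
  unfold XX
  rw [← hW]
  field_simp

end Pool.Agent.MT
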