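import Pool.Agent.MT.Defs
import Pool.Agent.BrunHooley.Mertens

/-! Module PRIM (part A of MP_3509fd_nt): Mertens upper bound and the tail sum.

`PP_le`: `PP (qq D N) = ∏_{D<p<N} (1 - 1/p)⁻¹ = (φ(W)/W) ∏_{p<N} (1-1/p)⁻¹ ≤ C (φ(W)/W) log N`.
Mertens' product bound: from `Σ_{n ≤ x} Λ(n)/n ≤ log x + C` (theorem `M_le` in Pool/Agent/BrunHooley/Mertens.lean on
origin/main) by partial summation. -/

set_option autoImplicit false

namespace Pool.Agent.MT

open Finset Filter

/-- `Σ_{p<N} log p / p` -/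
noncomputable def Prim_A (N : ℕ) : ℝ := ∑ p ∈ (range N).filter Nat.Prime, Real.log p / p

/-- `Σ_{p<N} 1 / p` -/
noncomputable def Prim_S (N : ℕ) : ℝ := ∑ p ∈ (range N).filter Nat.Prime, 1 / (p : ℝ)

theorem Prim_sum_succ (f : ℕ → ℝ) (N : ℕ) : ∑ p ∈ (range (N + 1)).filter Nat.Prime, f p =
    ∑ p ∈ (range N).filter Nat.Prime, f p + if N.Prime then f N else 0 := by
  rw [Finset.sum_filter, Finset.sum_filter, Finset.sum_range_succ]

theorem Prim_A_le (N : ℕ) (hN : N ≠ 0) : Prim_A (N + 1) ≤ Real.log N + (Real.log 4 + 4) := by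
  refine le_trans ?_ (BrunHooley.MertensAux.M_le N hN)
  unfold Prim_A BrunHooley.MertensAux.M
  calc ∑ p ∈ (range (N + 1)).filter Nat.Prime, Real.log p / p
      = ∑ p ∈ (range (N + 1)).filter Nat.Prime, ArithmeticFunction.vonMangoldt p / p := by
        refine Finset.sum_congr rfl fun p hp => ?_
        rw [ArithmeticFunction.vonMangoldt_apply_prime (Finset.mem_filter.1 hp).2]
    _ ≤ ∑ d ∈ Ioc 0 N, ArithmeticFunction.vonMangoldt d / d := by
        refine Finset.sum_le_sum_of_subset_of_nonneg ?_ ?_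
        · intro p hp
          rw [Finset.mem_filter, Finset.mem_range] at hp
          rw [Finset.mem_Ioc]
          exact ⟨hp.2.pos, by omega⟩
        · intro d _ _
          exact div_nonneg ArithmeticFunction.vonMangoldt_nonneg (Nat.cast_nonneg d)

theorem Prim_Phi (N : ℕ) (hN : 2 ≤ N) : Prim_S N - Prim_A N / Real.log N ≤
    Real.log (Real.log N) - Real.log (Real.log 2) + (Real.log 4 + 4) * (1 / Real.log 2 - 1 / Real.log N) := by
  induction N, hN using Nat.le_induction with
  | base =>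
    have h1 : Prim_S 2 = 0 := by
      unfold Prim_S
      have : (range 2).filter Nat.Prime = ∅ := by decide
      rw [this, Finset.sum_empty]
    have h2 : Prim_A 2 = 0 := by
      unfold Prim_A
      have : (range 2).filter Nat.Prime = ∅ := by decide
      rw [this, Finset.sum_empty]
    rw [h1, h2]
    simp
  | succ N hN ih =>
    have hN0 : (0 : ℝ) < N := by exact_mod_cast (by omega : 0 < N)
    have hy : 0 < Real.log N := Real.log_pos (by exact_mod_cast (by omega : 1 < N))
    have hxy : Real.log N < Real.log ((N + 1 : ℕ) : ℝ) := Real.log_lt_log hN0 (by push_cast; linarith)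
    have hx : 0 < Real.log ((N + 1 : ℕ) : ℝ) := hy.trans hxy
    set y := Real.log (N : ℝ) with hyd
    set x := Real.log ((N + 1 : ℕ) : ℝ) with hxd
    set C := Real.log 4 + 4 with hC
    have hA := Prim_A_le N (by omega)
    have e1 : Prim_S (N + 1) = Prim_S N + (if N.Prime then 1 / (N : ℝ) else 0) := Prim_sum_succ _ N
    have e2 : Prim_A (N + 1) = Prim_A N + (if N.Prime then Real.log N / (N : ℝ) else 0) := Prim_sum_succ _ N
    have e3 : (if N.Prime then 1 / (N : ℝ) else 0) = (Prim_A (N + 1) - Prim_A N) / y := by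
      rw [e2]
      by_cases hp : N.Prime
      · rw [if_pos hp, if_pos hp]
        field_simp
        ring
      · rw [if_neg hp, if_neg hp]
        simp
    have h1 : Prim_S (N + 1) - Prim_A (N + 1) / x =
        (Prim_S N - Prim_A N / y) + Prim_A (N + 1) * (1 / y - 1 / x) := by
      rw [e1, e3]
      ring
    have h2 : 0 ≤ 1 / y - 1 / x := by
      rw [sub_nonneg]
      exact one_div_le_one_div_of_le hy hxy.le
    have h3 : Prim_A (N + 1) * (1 / y - 1 / x) ≤ (y + C) * (1 / y - 1 / x) :=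
      mul_le_mul_of_nonneg_right hA h2
    have h4 : (y + C) * (1 / y - 1 / x) = (1 - y / x) + C * (1 / y - 1 / x) := by
      field_simp
    have h5 : 1 - y / x ≤ Real.log x - Real.log y := by
      have h := Real.log_le_sub_one_of_pos (div_pos hy hx)
      rw [Real.log_div hy.ne' hx.ne'] at h
      linarith
    rw [h1]
    calc (Prim_S N - Prim_A N / y) + Prim_A (N + 1) * (1 / y - 1 / x)
        ≤ (Real.log y - Real.log (Real.log 2) + C * (1 / Real.log 2 - 1 / y)) +
          ((Real.log x - Real.log y) + C * (1 / y - 1 / x)) := by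
          refine add_le_add ih ?_
          linarith
      _ = Real.log x - Real.log (Real.log 2) + C * (1 / Real.log 2 - 1 / x) := by ring

theorem Prim_S_le : ∃ K : ℝ, ∀ N : ℕ, 2 ≤ N → Prim_S N ≤ Real.log (Real.log N) + K := by
  refine ⟨1 - Real.log (Real.log 2) + (Real.log 4 + 4) / Real.log 2, fun N hN => ?_⟩
  have hy : 0 < Real.log N := Real.log_pos (by exact_mod_cast (by omega : 1 < N))
  have h1 := Prim_Phi N hN
  have h2 : Prim_A N ≤ Real.log N + (Real.log 4 + 4) := by
    have h := Prim_A_le (N - 1) (by omega)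
    have e : N - 1 + 1 = N := by omega
    rw [e] at h
    refine h.trans ?_
    have h' : Real.log ((N - 1 : ℕ) : ℝ) ≤ Real.log N :=
      Real.log_le_log (by exact_mod_cast (by omega : 0 < N - 1)) (by exact_mod_cast (by omega : N - 1 ≤ N))
    linarith
  have h3 : Prim_A N / Real.log N ≤ 1 + (Real.log 4 + 4) / Real.log N := by
    rw [div_le_iff₀ hy, add_mul, div_mul_cancel₀ _ hy.ne']
    linarith
  have h4 : (Real.log 4 + 4) * (1 / Real.log 2 - 1 / Real.log N) =
      (Real.log 4 + 4) / Real.log 2 - (Real.log 4 + 4) / Real.log N := by ring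
  rw [h4] at h1
  linarith

theorem Prim_tele (N : ℕ) : ∑ n ∈ (range N).filter Nat.Prime, 1 / ((n : ℝ) * (n - 1)) ≤ 1 := by
  have key : ∀ N : ℕ, ∑ n ∈ (range (N + 2)).filter Nat.Prime, 1 / ((n : ℝ) * (n - 1)) ≤ 1 - 1 / ((N : ℝ) + 1) := by
    intro N
    induction N with
    | zero =>
      have : (range (0 + 2)).filter Nat.Prime = ∅ := by decide
      rw [this, Finset.sum_empty]
      simp
    | succ N ih =>
      rw [Prim_sum_succ (fun n : ℕ => 1 / ((n : ℝ) * (n - 1))) (N + 2)]
      have h : (if (N + 2).Prime then 1 / (((N + 2 : ℕ) : ℝ) * (((N + 2 : ℕ) : ℝ) - 1)) else 0) ≤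
          1 / ((N : ℝ) + 1) - 1 / ((N : ℝ) + 2) := by
        have e : 1 / ((N : ℝ) + 1) - 1 / ((N : ℝ) + 2) = 1 / (((N : ℝ) + 2) * (N + 1)) := by
          field_simp
          ring
        rw [e]
        split_ifs
        · apply le_of_eq
          push_cast
          congr 1
          ring
        · positivity
      have e2 : (((N + 1 : ℕ) : ℝ) + 1) = (N : ℝ) + 2 := by push_cast; ring
      rw [e2]
      linarith
  rcases Nat.lt_or_ge N 2 with h | h
  · have : (range N).filter Nat.Prime = ∅ := by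
      refine Finset.filter_eq_empty_iff.2 fun p hp hp' => ?_
      have := hp'.two_le
      have := Finset.mem_range.1 hp
      omega
    rw [this, Finset.sum_empty]
    exact zero_le_one
  · have h' := key (N - 2)
    have e : N - 2 + 2 = N := by omega
    rw [e] at h'
    have : (0 : ℝ) ≤ 1 / (((N - 2 : ℕ) : ℝ) + 1) := by positivity
    linarith

theorem mertens_prod : ∃ C : ℝ, 0 < C ∧ ∀ N : ℕ, 2 ≤ N →
    ∏ p ∈ (range N).filter Nat.Prime, (1 - 1 / (p : ℝ))⁻¹ ≤ C * Real.log N := by
  obtain ⟨K, hK⟩ := Prim_S_le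
  refine ⟨Real.exp (K + 1), Real.exp_pos _, fun N hN => ?_⟩
  have hy : 0 < Real.log N := Real.log_pos (by exact_mod_cast (by omega : 1 < N))
  calc ∏ p ∈ (range N).filter Nat.Prime, (1 - 1 / (p : ℝ))⁻¹
      ≤ ∏ p ∈ (range N).filter Nat.Prime, Real.exp (1 / (p : ℝ) + 1 / ((p : ℝ) * (p - 1))) := by
        refine Finset.prod_le_prod (fun p hp => ?_) fun p hp => ?_
        · have h2 : (2 : ℝ) ≤ p := by exact_mod_cast (Finset.mem_filter.1 hp).2.two_le
          have : 1 / (p : ℝ) ≤ 1 := by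
            rw [div_le_one (by linarith)]
            linarith
          exact inv_nonneg.2 (by linarith)
        · have h2 : (2 : ℝ) ≤ p := by exact_mod_cast (Finset.mem_filter.1 hp).2.two_le
          have h1 : (0 : ℝ) < (p : ℝ) - 1 := by linarith
          have h0 : (0 : ℝ) < (p : ℝ) := by linarith
          have e1 : (1 - 1 / (p : ℝ))⁻¹ = 1 / ((p : ℝ) - 1) + 1 := by
            have : 1 - 1 / (p : ℝ) = ((p : ℝ) - 1) / p := by field_simp
            rw [this, inv_div]
            field_simp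
            ring
          have e2 : 1 / (p : ℝ) + 1 / ((p : ℝ) * (p - 1)) = 1 / ((p : ℝ) - 1) := by
            field_simp
            ring
          rw [e1, e2]
          exact Real.add_one_le_exp _
    _ = Real.exp (∑ p ∈ (range N).filter Nat.Prime, (1 / (p : ℝ) + 1 / ((p : ℝ) * (p - 1)))) :=
        (Real.exp_sum _ _).symm
    _ ≤ Real.exp (Real.log (Real.log N) + K + 1) := by
        refine Real.exp_le_exp.2 ?_
        rw [Finset.sum_add_distrib]
        exact add_le_add (hK N hN) (Prim_tele N)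
    _ = Real.exp (K + 1) * Real.log N := by
        rw [add_assoc, Real.exp_add, Real.exp_log hy, mul_comm]

theorem Prim_tot (D : ℕ) : ((primorial D).totient : ℝ) / (primorial D : ℕ) =
    ∏ p ∈ (range (D + 1)).filter Nat.Prime, (1 - 1 / (p : ℝ)) := by
  have h0 : ((primorial D : ℕ) : ℝ) ≠ 0 := by exact_mod_cast (primorial_pos D).ne'
  have h1 : (primorial D).primeFactors = (range (D + 1)).filter Nat.Prime := by
    unfold primorial
    exact Nat.primeFactors_prod fun p hp => (Finset.mem_filter.1 hp).2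
  rw [div_eq_iff h0]
  have h := Nat.totient_eq_mul_prod_factors (primorial D)
  rw [h1] at h
  have h' := congrArg (fun q : ℚ => (q : ℝ)) h
  push_cast at h'
  rw [h', mul_comm]
  congr 1
  refine Finset.prod_congr rfl fun p _ => ?_
  rw [one_div]

theorem Prim_tot_pos (D : ℕ) : 0 < ((primorial D).totient : ℝ) / (primorial D : ℕ) := by
  have h0 : 0 < primorial D := primorial_pos D
  have h1 : 0 < (primorial D).totient := Nat.totient_pos.2 h0
  have h2 : (0 : ℝ) < ((primorial D).totient : ℝ) := by exact_mod_cast h1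
  have h3 : (0 : ℝ) < ((primorial D : ℕ) : ℝ) := by exact_mod_cast h0
  exact div_pos h2 h3

theorem Prim_PP (D N : ℕ) : PP (qq D N) = ∏ p ∈ PrS D N, (1 - 1 / (p : ℝ))⁻¹ := by
  unfold PP qq
  rw [← Finset.prod_coe_sort (PrS D N) (fun p => (1 - 1 / (p : ℝ))⁻¹)]
  refine Finset.prod_congr rfl fun p _ => ?_
  have hp : (p : ℕ).Prime := (Finset.mem_filter.1 p.2).2.1
  have h2 : (2 : ℝ) ≤ ((p : ℕ) : ℝ) := by exact_mod_cast hp.two_le
  have h1 : (0 : ℝ) < ((p : ℕ) : ℝ) - 1 := by linarith
  have h0 : (0 : ℝ) < ((p : ℕ) : ℝ) := by linarith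
  have : 1 - 1 / ((p : ℕ) : ℝ) = (((p : ℕ) : ℝ) - 1) / (p : ℕ) := by field_simp
  rw [this, inv_div]
  field_simp
  ring

/-- from `mertens_prod` and `Nat.totient_eq_mul_prod_factors` -/
theorem PP_le : ∃ C : ℝ, 0 < C ∧ ∀ D N : ℕ, 2 ≤ D → D < N → PP (qq D N) ≤ C * XX D N := by
  obtain ⟨C, hC, h⟩ := mertens_prod
  refine ⟨C, hC, fun D N hD hN => ?_⟩
  have h1 := h N (by omega)
  have hpos : ∀ p : ℕ, p.Prime → (1 - 1 / (p : ℝ)) ≠ 0 := by
    intro p hp
    have h2 : (2 : ℝ) ≤ p := by exact_mod_cast hp.two_le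
    have : 1 / (p : ℝ) < 1 := by
      rw [div_lt_one (by linarith)]
      linarith
    linarith
  have hsplit : (range N).filter Nat.Prime = (range (D + 1)).filter Nat.Prime ∪ PrS D N := by
    ext p
    simp only [PrS, Finset.mem_union, Finset.mem_filter, Finset.mem_range]
    constructor
    · rintro ⟨h1, h2⟩
      rcases Nat.lt_or_ge D p with h | h
      · exact Or.inr ⟨h1, h2, h⟩
      · exact Or.inl ⟨by omega, h2⟩
    · rintro (⟨h1, h2⟩ | ⟨h1, h2, h3⟩)
      · exact ⟨by omega, h2⟩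
      · exact ⟨h1, h2⟩
  have hdisj : Disjoint ((range (D + 1)).filter Nat.Prime) (PrS D N) := by
    rw [Finset.disjoint_left]
    intro p hp hp'
    simp only [PrS, Finset.mem_filter, Finset.mem_range] at hp hp'
    omega
  rw [hsplit, Finset.prod_union hdisj, ← Prim_PP] at h1
  have h2 : ∏ p ∈ (range (D + 1)).filter Nat.Prime, (1 - 1 / (p : ℝ))⁻¹ =
      (((primorial D).totient : ℝ) / (primorial D : ℕ))⁻¹ := by
    rw [Prim_tot, Finset.prod_inv_distrib]
  rw [h2] at h1
  have ht := Prim_tot_pos D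
  unfold XX
  calc PP (qq D N) = ((primorial D).totient : ℝ) / (primorial D : ℕ) *
        ((((primorial D).totient : ℝ) / (primorial D : ℕ))⁻¹ * PP (qq D N)) := by
        rw [← mul_assoc, mul_inv_cancel₀ ht.ne', one_mul]
    _ ≤ ((primorial D).totient : ℝ) / (primorial D : ℕ) * (C * Real.log N) :=
        mul_le_mul_of_nonneg_left h1 ht.le
    _ = C * (((primorial D).totient : ℝ) / (primorial D : ℕ) * Real.log N) := by ring

theorem Prim_sq (D : ℕ) (hD : 2 ≤ D) (m : ℕ) :
    ∑ n ∈ range m, 1 / (((D + n : ℕ) : ℝ)) ^ 2 ≤ 1 / ((D : ℝ) - 1) - 1 / ((D : ℝ) + m - 1) := by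
  have h2 : (2 : ℝ) ≤ D := by exact_mod_cast hD
  induction m with
  | zero => simp
  | succ m ih =>
    rw [Finset.sum_range_succ]
    have hm : (0 : ℝ) ≤ m := Nat.cast_nonneg m
    have h1 : (0 : ℝ) < (D : ℝ) + m - 1 := by linarith
    have h3 : (0 : ℝ) < (D : ℝ) + m := by linarith
    have h : 1 / (((D + m : ℕ) : ℝ)) ^ 2 ≤ 1 / ((D : ℝ) + m - 1) - 1 / ((D : ℝ) + m) := by
      have e : 1 / ((D : ℝ) + m - 1) - 1 / ((D : ℝ) + m) = 1 / (((D : ℝ) + m - 1) * ((D : ℝ) + m)) := by
        field_simp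
        ring
      rw [e]
      push_cast
      refine one_div_le_one_div_of_le (mul_pos h1 h3) ?_
      nlinarith
    have e2 : (D : ℝ) + ((m + 1 : ℕ) : ℝ) - 1 = (D : ℝ) + m := by push_cast; ring
    rw [e2]
    linarith

theorem EE_le (D N : ℕ) (hD : 2 ≤ D) : EE (qq D N) ≤ 2 / D := by
  have h2 : (2 : ℝ) ≤ D := by exact_mod_cast hD
  have h1 : EE (qq D N) = ∑ p ∈ PrS D N, 1 / ((p : ℝ) - 1) ^ 2 := by
    unfold EE qq
    rw [← Finset.sum_coe_sort (PrS D N) (fun p => 1 / ((p : ℝ) - 1) ^ 2)]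
  have h3 : ∑ p ∈ PrS D N, 1 / ((p : ℝ) - 1) ^ 2 ≤ ∑ n ∈ range N, 1 / (((D + n : ℕ) : ℝ)) ^ 2 := by
    have hinj : Set.InjOn (fun p : ℕ => p - (D + 1)) (PrS D N : Set ℕ) := by
      intro p hp q hq hpq
      simp only [PrS, Finset.coe_filter, Finset.mem_range, Set.mem_setOf_eq] at hp hq
      simp only at hpq
      omega
    calc ∑ p ∈ PrS D N, 1 / ((p : ℝ) - 1) ^ 2
        = ∑ p ∈ PrS D N, 1 / (((D + (p - (D + 1)) : ℕ) : ℝ)) ^ 2 := by
          refine Finset.sum_congr rfl fun p hp => ?_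
          simp only [PrS, Finset.mem_filter, Finset.mem_range] at hp
          have e : D + (p - (D + 1)) = p - 1 := by omega
          rw [e, Nat.cast_sub (by omega)]
          simp
      _ = ∑ n ∈ (PrS D N).image (fun p => p - (D + 1)), 1 / (((D + n : ℕ) : ℝ)) ^ 2 :=
          (Finset.sum_image (f := fun n : ℕ => 1 / (((D + n : ℕ) : ℝ)) ^ 2) hinj).symm
      _ ≤ ∑ n ∈ range N, 1 / (((D + n : ℕ) : ℝ)) ^ 2 := by
          refine Finset.sum_le_sum_of_subset_of_nonneg ?_ fun n _ _ => by positivity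
          intro n hn
          obtain ⟨p, hp, rfl⟩ := Finset.mem_image.1 hn
          simp only [PrS, Finset.mem_filter, Finset.mem_range] at hp
          rw [Finset.mem_range]
          omega
  have h4 := Prim_sq D hD N
  have hN : (0 : ℝ) ≤ N := Nat.cast_nonneg N
  have h5 : (0 : ℝ) ≤ 1 / ((D : ℝ) + N - 1) := by
    apply one_div_nonneg.2
    linarith
  have h6 : 1 / ((D : ℝ) - 1) ≤ 2 / D := by
    rw [div_le_div_iff₀ (by linarith) (by linarith)]
    linarith
  rw [h1]
  linarith

theorem XX_pos (D N : ℕ) (hN : 2 ≤ N) : 0 < XX D N := by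
  have hy : 0 < Real.log N := Real.log_pos (by exact_mod_cast (by omega : 1 < N))
  exact mul_pos (Prim_tot_pos D) hy

theorem XX_tendsto (D : ℕ) : Tendsto (fun N => XX D N) atTop atTop := by
  unfold XX
  exact Tendsto.const_mul_atTop (Prim_tot_pos D)
    (Real.tendsto_log_atTop.comp tendsto_natCast_atTop_atTop)

end Pool.Agent.MT
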