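import Pool.Agent.MT.Box

/-! Module SEC (part A of MP_3509fd_nt): `S2` as a quadratic form, up to the box errors.
`S2 = Σ_{a,a'} λ(a) λ'(a') Σ_n θ(n+h_m) ind ind`.  If `a` or `a'` uses the colour `m`, the inner sum is 0
(`p ∣ n + h_m` prime, `p < N ≤ n + h_m`) and `K2 = 0`; if a prime has two different colours, both are 0 (`Large`);
else with `d = val ∘ cset a`, `e = val ∘ cset a'` the pair `(d, e)` is `OK` and the difference is `Del`
(`∏_p K2 = 1/∏_i φ(lcm(d_i,e_i))`), and `(a, a') ↦ (d, e)` is injective.  Boxes from `lamY_supp`, sizes from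
`lamY_le`.  (helper61) -/

set_option autoImplicit false

namespace Pool.Agent.MT

open Finset

variable {k : ℕ}

lemma SEC1_pr {D N : ℕ} (p : Pr D N) : (p : ℕ) < N ∧ (p : ℕ).Prime ∧ D < (p : ℕ) := by
  have h := p.2
  simp only [PrS, Finset.mem_filter, Finset.mem_range] at h
  exact h

lemma SEC1_cop {D N : ℕ} {p q : Pr D N} (h : p ≠ q) : Nat.Coprime (p : ℕ) (q : ℕ) :=
  (Nat.coprime_primes (SEC1_pr p).2.1 (SEC1_pr q).2.1).mpr (fun h' => h (Subtype.ext h'))

lemma SEC1_val_pos {D N : ℕ} (S : Finset (Pr D N)) : 0 < val S :=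
  Finset.prod_pos fun p _ => (SEC1_pr p).2.1.pos

lemma SEC1_val_dvd {D N : ℕ} (S : Finset (Pr D N)) (n : ℕ) :
    val S ∣ n ↔ ∀ p ∈ S, (p : ℕ) ∣ n := by
  constructor
  · intro h p hp
    exact (Finset.dvd_prod_of_mem (fun p : Pr D N => (p : ℕ)) hp).trans h
  · intro h
    refine Finset.prod_dvd_of_isRelPrime ?_ h
    intro p _ q _ hpq
    exact Nat.coprime_iff_isRelPrime.mp (SEC1_cop hpq)

lemma SEC1_dvd_val {D N : ℕ} (S : Finset (Pr D N)) (p : Pr D N) : (p : ℕ) ∣ val S ↔ p ∈ S := by
  constructor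
  · intro h
    obtain ⟨q, hq, hpq⟩ := (Prime.dvd_finsetProd_iff (SEC1_pr p).2.1.prime _).mp h
    have h1 := (Nat.prime_dvd_prime_iff_eq (SEC1_pr p).2.1 (SEC1_pr q).2.1).mp hpq
    rwa [Subtype.ext h1]
  · intro h
    exact Finset.dvd_prod_of_mem (fun p : Pr D N => (p : ℕ)) h

lemma SEC1_val_inj {D N : ℕ} {S T : Finset (Pr D N)} (h : val S = val T) : S = T := by
  ext p
  rw [← SEC1_dvd_val, ← SEC1_dvd_val, h]

lemma SEC1_lcm {D N : ℕ} (S T : Finset (Pr D N)) : (val S).lcm (val T) = val (S ∪ T) := by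
  apply Nat.dvd_antisymm
  · apply Nat.lcm_dvd
    · rw [SEC1_val_dvd]
      intro p hp
      exact (SEC1_dvd_val _ _).mpr (Finset.mem_union_left _ hp)
    · rw [SEC1_val_dvd]
      intro p hp
      exact (SEC1_dvd_val _ _).mpr (Finset.mem_union_right _ hp)
  · rw [SEC1_val_dvd]
    intro p hp
    rcases Finset.mem_union.mp hp with hp | hp
    · exact ((SEC1_dvd_val _ _).mpr hp).trans (Nat.dvd_lcm_left _ _)
    · exact ((SEC1_dvd_val _ _).mpr hp).trans (Nat.dvd_lcm_right _ _)

lemma SEC1_tot {D N : ℕ} (S : Finset (Pr D N)) :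
    ((val S).totient : ℝ) = ∏ p ∈ S, (qq D N p - 1) := by
  induction S using Finset.induction_on with
  | empty => simp [val]
  | insert p S hp ih =>
    have h1 : val (insert p S) = (p : ℕ) * val S := by
      unfold val
      rw [Finset.prod_insert hp]
    have h2 : Nat.Coprime (p : ℕ) (val S) := by
      apply Nat.Coprime.prod_right
      intro q hq
      exact SEC1_cop (fun h => hp (h ▸ hq))
    rw [h1, Nat.totient_mul h2, Nat.totient_prime (SEC1_pr p).2.1, Finset.prod_insert hp,
      Nat.cast_mul, ih, Nat.cast_sub (SEC1_pr p).2.1.one_le, Nat.cast_one]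
    rfl

lemma SEC1_sqf {D N : ℕ} (S : Finset (Pr D N)) : Squarefree (val S) := by
  induction S using Finset.induction_on with
  | empty => simp [val]
  | insert p S hp ih =>
    have h1 : val (insert p S) = (p : ℕ) * val S := by
      unfold val
      rw [Finset.prod_insert hp]
    have h2 : Nat.Coprime (p : ℕ) (val S) := by
      apply Nat.Coprime.prod_right
      intro q hq
      exact SEC1_cop (fun h => hp (h ▸ hq))
    rw [h1, Nat.squarefree_mul h2]
    exact ⟨(SEC1_pr p).2.1.squarefree, ih⟩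

lemma SEC1_W {D N : ℕ} (S : Finset (Pr D N)) : (val S).Coprime (primorial D) := by
  apply Nat.Coprime.prod_left
  intro p _
  rw [Nat.Prime.coprime_iff_not_dvd (SEC1_pr p).2.1]
  intro h
  have h1 := (SEC1_pr p).2.2
  rw [primorial, Prime.dvd_finsetProd_iff (SEC1_pr p).2.1.prime] at h
  obtain ⟨q, hq, hpq⟩ := h
  rw [Finset.mem_filter, Finset.mem_range] at hq
  have h2 := Nat.le_of_dvd hq.2.pos hpq
  omega

lemma SEC1_prod {D N : ℕ} {R : Type} [CommMonoid R] (c : Pr D N → Col k) (F : Pr D N → R) :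
    ∏ i, ∏ p ∈ cset c i, F p = ∏ p, if c p = none then 1 else F p := by
  have h1 : ∀ i, ∏ p ∈ cset c i, F p = ∏ p, if c p = some i then F p else 1 := by
    intro i
    unfold cset
    rw [Finset.prod_filter]
  simp only [h1]
  rw [Finset.prod_comm]
  refine Finset.prod_congr rfl fun p _ => ?_
  cases hc : c p with
  | none => simp
  | some j =>
    simp only [Option.some.injEq, reduceCtorEq, if_false]
    rw [Finset.prod_ite_eq univ j]
    simp

lemma SEC1_prod_val {D N : ℕ} (a : Pr D N → Col k) :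
    ∏ i, val (cset a i) = val (univ.filter fun p => a p ≠ none) := by
  have h := SEC1_prod a (fun p : Pr D N => (p : ℕ))
  unfold val
  rw [h, Finset.prod_filter]
  refine Finset.prod_congr rfl fun p _ => ?_
  by_cases hp : a p = none <;> simp [hp]

/-- a colouring with the colour `m` at some prime counts nothing -/
lemma SEC1_m {D N W b : ℕ} (h : Fin k → ℕ) (m : Fin k) (a : Pr D N → Col k) (p : Pr D N)
    (hp : a p = some m) {n : ℕ} (hn : n ∈ rng W b N) : th (n + h m) * ind h a n = 0 := by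
  classical
  unfold th ind
  split_ifs with h1 h2
  · exfalso
    have h3 := h2 p m hp
    have h4 := (Nat.prime_dvd_prime_iff_eq (SEC1_pr p).2.1 h1).mp h3
    have h5 := (SEC1_pr p).1
    rw [rng, Finset.mem_filter, Finset.mem_Ico] at hn
    omega
  all_goals simp

/-- compatible colourings -/
def SEC1_comp {D N : ℕ} (m : Fin k) (a a' : Pr D N → Col k) : Prop :=
  (∀ p, a p ≠ some m) ∧ (∀ p, a' p ≠ some m) ∧
    ∀ p i j, a p = some i → a' p = some j → i = j

lemma SEC1_zero {D N b : ℕ} (h : Fin k → ℕ) (hL : Large h D) (m : Fin k)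
    (a a' : Pr D N → Col k) (hc : ¬ SEC1_comp m a a') :
    |∑ n ∈ rng (primorial D) b N, th (n + h m) * (ind h a n * ind h a' n) -
          N / ((primorial D).totient : ℝ) * ∏ p, K2 m (qq D N p) (a p) (a' p)| = 0 := by
  classical
  have key : (∀ n ∈ rng (primorial D) b N, th (n + h m) * (ind h a n * ind h a' n) = 0) ∧
      ∏ p, K2 m (qq D N p) (a p) (a' p) = 0 := by
    by_cases h1 : ∀ p, a p ≠ some m
    · by_cases h2 : ∀ p, a' p ≠ some m
      · have h3 : ¬ ∀ p i j, a p = some i → a' p = some j → i = j := fun h3 => hc ⟨h1, h2, h3⟩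
        push Not at h3
        obtain ⟨p, i, j, hi, hj, hij⟩ := h3
        constructor
        · intro n _
          unfold ind
          split_ifs with h4 h5
          · exact absurd (h5 p j hj) (hL p n i j (SEC1_pr p).2.1 (SEC1_pr p).2.2 hij (h4 p i hi))
          all_goals simp
        · apply Finset.prod_eq_zero (Finset.mem_univ p)
          rw [hi, hj]
          simp [K2, hij]
      · push Not at h2
        obtain ⟨p, hp⟩ := h2
        constructor
        · intro n hn
          have := SEC1_m h m a' p hp hn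
          linear_combination (ind h a n) * this
        · apply Finset.prod_eq_zero (Finset.mem_univ p)
          rw [hp]
          cases a p with
          | none => simp [K2]
          | some i =>
            simp only [K2]
            rw [if_neg]
            rintro ⟨rfl, h4⟩
            exact h4 rfl
    · push Not at h1
      obtain ⟨p, hp⟩ := h1
      constructor
      · intro n hn
        have := SEC1_m h m a p hp hn
        linear_combination (ind h a' n) * this
      · apply Finset.prod_eq_zero (Finset.mem_univ p)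
        rw [hp]
        cases a' p with
        | none => simp [K2]
        | some i =>
          simp only [K2]
          rw [if_neg]
          rintro ⟨_, h4⟩
          exact h4 rfl
  rw [Finset.sum_eq_zero key.1, key.2]
  simp

lemma SEC1_K2 {D N : ℕ} (m : Fin k) (a a' : Pr D N → Col k) (hc : SEC1_comp m a a') :
    ∏ p, K2 m (qq D N p) (a p) (a' p)
      = (∏ i, (((val (cset a i)).lcm (val (cset a' i))).totient : ℝ))⁻¹ := by
  classical
  set c : Pr D N → Col k := fun p => if a p = none then a' p else a p with hcdef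
  have h1 : ∀ i, cset a i ∪ cset a' i = cset c i := by
    intro i
    ext p
    simp only [cset, Finset.mem_union, Finset.mem_filter, Finset.mem_univ, true_and, hcdef]
    constructor
    · rintro (h | h)
      · rw [if_neg (by rw [h]; simp), h]
      · split_ifs with h2
        · exact h
        · obtain ⟨j, hj⟩ := Option.ne_none_iff_exists'.mp h2
          rw [hj, hc.2.2 p j i hj h]
    · split_ifs with h2
      · exact fun h => Or.inr h
      · exact fun h => Or.inl h
  have h2 : ∀ i, ((((val (cset a i)).lcm (val (cset a' i))).totient : ℕ) : ℝ)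
      = ∏ p ∈ cset c i, (qq D N p - 1) := by
    intro i
    rw [SEC1_lcm, h1, SEC1_tot]
  simp only [h2]
  rw [SEC1_prod, ← Finset.prod_inv_distrib]
  refine Finset.prod_congr rfl fun p _ => ?_
  simp only [hcdef]
  cases ha : a p with
  | none =>
    cases ha' : a' p with
    | none => simp [K2]
    | some j =>
      have hj : j ≠ m := fun h => hc.2.1 p (h ▸ ha')
      simp [K2, hj]
  | some i =>
    have hi : i ≠ m := fun h => hc.1 p (h ▸ ha)
    cases ha' : a' p with
    | none => simp [K2, hi]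
    | some j =>
      have hij := hc.2.2 p i j ha ha'
      subst hij
      simp [K2, hi]

open Classical in
lemma SEC1_ind_eq {D N : ℕ} (h : Fin k → ℕ) (m : Fin k) (a : Pr D N → Col k)
    (ha : ∀ p, a p ≠ some m) (n : ℕ) :
    ind h a n = if ∀ i, i ≠ m → val (cset a i) ∣ n + h i then 1 else 0 := by
  unfold ind
  refine if_congr ?_ rfl rfl
  constructor
  · intro h1 i _
    rw [SEC1_val_dvd]
    intro p hp
    simp only [cset, Finset.mem_filter, Finset.mem_univ, true_and] at hp
    exact h1 p i hp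
  · intro h1 p i hp
    have hi : i ≠ m := fun h => ha p (h ▸ hp)
    have h2 := h1 i hi
    rw [SEC1_val_dvd] at h2
    exact h2 p (by simp [cset, hp])

lemma SEC1_del {D N b : ℕ} (h : Fin k → ℕ) (m : Fin k) (a a' : Pr D N → Col k)
    (hc : SEC1_comp m a a') :
    |∑ n ∈ rng (primorial D) b N, th (n + h m) * (ind h a n * ind h a' n) -
          N / ((primorial D).totient : ℝ) * ∏ p, K2 m (qq D N p) (a p) (a' p)|
      = Del h (primorial D) b N m (fun i => val (cset a i)) (fun i => val (cset a' i)) := by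
  classical
  unfold Del
  rw [SEC1_K2 m a a' hc, Finset.sum_filter]
  congr 2
  · refine Finset.sum_congr rfl fun n _ => ?_
    rw [SEC1_ind_eq h m a hc.1, SEC1_ind_eq h m a' hc.2.1]
    by_cases h1 : ∀ i, i ≠ m → val (cset a i) ∣ n + h i
    · by_cases h2 : ∀ i, i ≠ m → val (cset a' i) ∣ n + h i
      · have h3 : ∀ i, i ≠ m → val (cset a i) ∣ n + h i ∧ val (cset a' i) ∣ n + h i :=
          fun i hi => ⟨h1 i hi, h2 i hi⟩
        rw [if_pos h1, if_pos h2, if_pos h3]
        ring
      · have h3 : ¬ ∀ i, i ≠ m → val (cset a i) ∣ n + h i ∧ val (cset a' i) ∣ n + h i :=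
          fun h3 => h2 (fun i hi => (h3 i hi).2)
        rw [if_pos h1, if_neg h2, if_neg h3]
        ring
    · have h3 : ¬ ∀ i, i ≠ m → val (cset a i) ∣ n + h i ∧ val (cset a' i) ∣ n + h i :=
        fun h3 => h1 (fun i hi => (h3 i hi).1)
      rw [if_neg h1, if_neg h3]
      ring
  · rw [div_mul_eq_div_div, div_eq_mul_inv (N / ((primorial D).totient : ℝ))]

lemma SEC1_cset_empty {D N : ℕ} (m : Fin k) (a : Pr D N → Col k) (ha : ∀ p, a p ≠ some m) :
    val (cset a m) = 1 := by
  have : cset a m = ∅ := by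
    unfold cset
    rw [Finset.filter_eq_empty_iff]
    intro p _
    exact ha p
  rw [this]
  rfl

lemma SEC1_OK {D N : ℕ} (m : Fin k) (a a' : Pr D N → Col k) (hc : SEC1_comp m a a') :
    OK (primorial D) m (fun i => val (cset a i)) (fun i => val (cset a' i)) := by
  refine ⟨SEC1_cset_empty m a hc.1, SEC1_cset_empty m a' hc.2.1, ?_, ?_, ?_, ?_, ?_⟩
  · rw [SEC1_prod_val]
    exact SEC1_sqf _
  · rw [SEC1_prod_val]
    exact SEC1_sqf _
  · rw [SEC1_prod_val]
    exact SEC1_W _
  · rw [SEC1_prod_val]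
    exact SEC1_W _
  · intro i j hij
    apply Nat.Coprime.prod_left
    intro p hp
    apply Nat.Coprime.prod_right
    intro q hq
    apply SEC1_cop
    rintro rfl
    simp only [cset, Finset.mem_filter, Finset.mem_univ, true_and] at hp hq
    exact hij (hc.2.2 p i j hp hq)

lemma SEC1_cset_inj {D N : ℕ} (a c : Pr D N → Col k)
    (h : (fun i => val (cset a i)) = (fun i => val (cset c i))) : a = c := by
  have h1 : ∀ i, cset a i = cset c i := fun i => SEC1_val_inj (congrFun h i)
  have h2 : ∀ p i, a p = some i ↔ c p = some i := by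
    intro p i
    have h3 := h1 i
    rw [Finset.ext_iff] at h3
    have h4 := h3 p
    simp only [cset, Finset.mem_filter, Finset.mem_univ, true_and] at h4
    exact h4
  funext p
  exact Option.ext (fun i => h2 p i)

open Classical in
theorem pair_err (h : Fin k → ℕ) (D N b : ℕ) (hD : 2 ≤ D) (hL : Large h D) (m : Fin k)
    (t t' : Fin k → ℝ) (ht : ∀ i, t i ≤ 1) (ht' : ∀ i, t' i ≤ 1) :
    ∑ a : Pr D N → Col k, ∑ a' : Pr D N → Col k,
      (if ∀ i, (val (cset a i) : ℝ) < (N : ℝ) ^ t i ∧ (val (cset a' i) : ℝ) < (N : ℝ) ^ t' i then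
        |∑ n ∈ rng (primorial D) b N, th (n + h m) * (ind h a n * ind h a' n) -
          N / ((primorial D).totient : ℝ) * ∏ p, K2 m (qq D N p) (a p) (a' p)| else 0) ≤
      BoxErr h (primorial D) b N m t t' := by
  set T : (Pr D N → Col k) × (Pr D N → Col k) → ℝ := fun x =>
    (if ∀ i, (val (cset x.1 i) : ℝ) < (N : ℝ) ^ t i ∧ (val (cset x.2 i) : ℝ) < (N : ℝ) ^ t' i then
        |∑ n ∈ rng (primorial D) b N, th (n + h m) * (ind h x.1 n * ind h x.2 n) -
          N / ((primorial D).totient : ℝ) * ∏ p, K2 m (qq D N p) (x.1 p) (x.2 p)| else 0) with hT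
  set G : (Fin k → ℕ) × (Fin k → ℕ) → ℝ := fun y =>
    if OK (primorial D) m y.1 y.2 ∧
      ∀ i, i ≠ m → (y.1 i : ℝ) < (N : ℝ) ^ t i ∧ (y.2 i : ℝ) < (N : ℝ) ^ t' i
    then Del h (primorial D) b N m y.1 y.2 else 0 with hG
  set good : Finset ((Pr D N → Col k) × (Pr D N → Col k)) := univ.filter fun x =>
    SEC1_comp m x.1 x.2 ∧
      ∀ i, (val (cset x.1 i) : ℝ) < (N : ℝ) ^ t i ∧ (val (cset x.2 i) : ℝ) < (N : ℝ) ^ t' i
    with hgood
  set φ : (Pr D N → Col k) × (Pr D N → Col k) → (Fin k → ℕ) × (Fin k → ℕ) := fun x =>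
    (fun i => val (cset x.1 i), fun i => val (cset x.2 i)) with hφ
  have e1 : ∑ a : Pr D N → Col k, ∑ a' : Pr D N → Col k, T (a, a') = ∑ x, T x :=
    (Fintype.sum_prod_type T).symm
  have e2 : BoxErr h (primorial D) b N m t t' = ∑ y ∈ grid k N ×ˢ grid k N, G y := by
    unfold BoxErr
    rw [Finset.sum_product]
  have hGnn : ∀ y, 0 ≤ G y := by
    intro y
    simp only [hG]
    split_ifs
    · exact abs_nonneg _
    · exact le_rfl
  have e3 : ∑ x, T x = ∑ x ∈ good, G (φ x) := by
    rw [← Finset.sum_subset (Finset.subset_univ good)]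
    · refine Finset.sum_congr rfl fun x hx => ?_
      rw [hgood, Finset.mem_filter] at hx
      simp only [hT, hG, hφ]
      rw [if_pos hx.2.2, if_pos ⟨SEC1_OK m x.1 x.2 hx.2.1, fun i _ => hx.2.2 i⟩,
        SEC1_del h m x.1 x.2 hx.2.1]
    · intro x _ hx
      rw [hgood, Finset.mem_filter] at hx
      simp only [hT]
      split_ifs with h1
      · apply SEC1_zero h hL m
        intro h2
        exact hx ⟨Finset.mem_univ _, h2, h1⟩
      · rfl
  have hinj : Set.InjOn φ good := by
    intro x _ y _ hxy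
    simp only [hφ, Prod.mk.injEq] at hxy
    exact Prod.ext (SEC1_cset_inj _ _ hxy.1) (SEC1_cset_inj _ _ hxy.2)
  rw [e1, e2, e3, ← Finset.sum_image (f := G) hinj]
  apply Finset.sum_le_sum_of_subset_of_nonneg
  · intro y hy
    rw [Finset.mem_image] at hy
    obtain ⟨x, hx, rfl⟩ := hy
    rw [hgood, Finset.mem_filter] at hx
    have hN : 1 ≤ N := by
      by_contra hN
      have hN0 : N = 0 := by omega
      have h1 := (hx.2.2 m).1
      have h2 : (1:ℝ) ≤ val (cset x.1 m) := by exact_mod_cast SEC1_val_pos _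
      have h3 : (N:ℝ) ^ t m ≤ 1 := by
        rw [hN0, Nat.cast_zero]
        by_cases h4 : t m = 0
        · rw [h4, Real.rpow_zero]
        · rw [Real.zero_rpow h4]
          norm_num
      linarith
    have hNR : (1:ℝ) ≤ N := by exact_mod_cast hN
    have hb : ∀ u : ℝ, u ≤ 1 → (N : ℝ) ^ u ≤ N := by
      intro u hu
      calc (N : ℝ) ^ u ≤ (N : ℝ) ^ (1:ℝ) := Real.rpow_le_rpow_of_exponent_le hNR hu
        _ = N := Real.rpow_one _
    rw [Finset.mem_product]
    constructor
    · simp only [hφ, grid, Fintype.mem_piFinset, Finset.mem_range]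
      intro i
      have h1 := (hx.2.2 i).1.trans_le (hb _ (ht i))
      exact_mod_cast h1
    · simp only [hφ, grid, Fintype.mem_piFinset, Finset.mem_range]
      intro i
      have h1 := (hx.2.2 i).2.trans_le (hb _ (ht' i))
      exact_mod_cast h1
  · intro y _ _
    exact hGnn y

theorem S2_err (h : Fin k → ℕ) (D M b N : ℕ) (hD : 2 ≤ D) (hN : 2 ≤ N) (hM : 1 ≤ M) (hL : Large h D) (m : Fin k)
    (s s' : ℝ) (Y Y' : (Fin k → ℕ) → ℝ) (hY : Grid M s Y) (hY' : Grid M s' Y') :
    |S2 h D M b N m Y Y' - N / ((primorial D).totient : ℝ) *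
      form (fun p => K2 m (qq D N p)) (lamY D N M Y) (lamY D N M Y')| ≤
      s * s' * PP (qq D N) ^ (2 * k) *
        ∑ v ∈ (grid k M).filter (fun v => Y v ≠ 0), ∑ v' ∈ (grid k M).filter (fun v => Y' v ≠ 0),
          BoxErr h (primorial D) b N m (fun i => ((v i : ℝ) + 1) / M) (fun i => ((v' i : ℝ) + 1) / M) := by
  classical
  have hs : 0 ≤ s := (abs_nonneg _).trans (hY.bd (fun _ => 0))
  have hs' : 0 ≤ s' := (abs_nonneg _).trans (hY'.bd (fun _ => 0))
  have hMR : (0:ℝ) < M := by exact_mod_cast hM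
  set E : (Pr D N → Col k) → (Pr D N → Col k) → ℝ := fun a a' =>
    ∑ n ∈ rng (primorial D) b N, th (n + h m) * (ind h a n * ind h a' n) -
          N / ((primorial D).totient : ℝ) * ∏ p, K2 m (qq D N p) (a p) (a' p) with hE
  have e1 : S2 h D M b N m Y Y' - N / ((primorial D).totient : ℝ) *
      form (fun p => K2 m (qq D N p)) (lamY D N M Y) (lamY D N M Y')
      = ∑ a, ∑ a', lamY D N M Y a * lamY D N M Y' a' * E a a' := by
    have h1 : S2 h D M b N m Y Y'
        = ∑ a, ∑ a', lamY D N M Y a * lamY D N M Y' a' *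
          ∑ n ∈ rng (primorial D) b N, th (n + h m) * (ind h a n * ind h a' n) := by
      unfold S2 Lam
      have h2 : ∀ n ∈ rng (primorial D) b N,
          th (n + h m) * ((∑ a, lamY D N M Y a * ind h a n) * ∑ a', lamY D N M Y' a' * ind h a' n)
          = ∑ a, ∑ a', lamY D N M Y a * lamY D N M Y' a' *
            (th (n + h m) * (ind h a n * ind h a' n)) := by
        intro n _
        rw [Finset.sum_mul_sum, Finset.mul_sum]
        refine Finset.sum_congr rfl fun a _ => ?_
        rw [Finset.mul_sum]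
        refine Finset.sum_congr rfl fun a' _ => ?_
        ring
      rw [Finset.sum_congr rfl h2, Finset.sum_comm]
      refine Finset.sum_congr rfl fun a _ => ?_
      rw [Finset.sum_comm]
      refine Finset.sum_congr rfl fun a' _ => ?_
      rw [Finset.mul_sum]
    rw [h1]
    unfold form
    rw [Finset.mul_sum, ← Finset.sum_sub_distrib]
    refine Finset.sum_congr rfl fun a _ => ?_
    rw [Finset.mul_sum, ← Finset.sum_sub_distrib]
    refine Finset.sum_congr rfl fun a' _ => ?_
    simp only [hE]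
    ring
  rw [e1]
  set C : ℝ := s * s' * PP (qq D N) ^ (2 * k) with hC
  have hterm : ∀ a a', |lamY D N M Y a * lamY D N M Y' a' * E a a'| ≤
      C * ∑ v ∈ (grid k M).filter (fun v => Y v ≠ 0), ∑ v' ∈ (grid k M).filter (fun v => Y' v ≠ 0),
        (if ∀ i, (val (cset a i) : ℝ) < (N : ℝ) ^ (((v i : ℝ) + 1) / M) ∧
            (val (cset a' i) : ℝ) < (N : ℝ) ^ (((v' i : ℝ) + 1) / M) then |E a a'| else 0) := by
    intro a a'
    have hl := lamY_le D N M hD s Y hY a
    have hl' := lamY_le D N M hD s' Y' hY' a'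
    have hPP : 0 ≤ s * PP (qq D N) ^ k := (abs_nonneg _).trans hl
    have hPP' : 0 ≤ s' * PP (qq D N) ^ k := (abs_nonneg _).trans hl'
    have hC0 : C = (s * PP (qq D N) ^ k) * (s' * PP (qq D N) ^ k) := by
      rw [hC, two_mul, pow_add]
      ring
    have hC1 : 0 ≤ C := by
      rw [hC0]
      exact mul_nonneg hPP hPP'
    have hnn : ∀ v v' : Fin k → ℕ, 0 ≤ (if ∀ i, (val (cset a i) : ℝ) < (N : ℝ) ^ (((v i : ℝ) + 1) / M) ∧
            (val (cset a' i) : ℝ) < (N : ℝ) ^ (((v' i : ℝ) + 1) / M) then |E a a'| else 0) := by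
      intro v v'
      split_ifs
      · exact abs_nonneg _
      · exact le_rfl
    by_cases ha : lamY D N M Y a = 0
    · rw [ha]
      simp only [zero_mul, abs_zero]
      exact mul_nonneg hC1 (Finset.sum_nonneg fun v _ => Finset.sum_nonneg fun v' _ => hnn v v')
    by_cases ha' : lamY D N M Y' a' = 0
    · rw [ha']
      simp only [mul_zero, zero_mul, abs_zero]
      exact mul_nonneg hC1 (Finset.sum_nonneg fun v _ => Finset.sum_nonneg fun v' _ => hnn v v')
    obtain ⟨v, hv, hva⟩ := lamY_supp D N M hD hN hM Y a ha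
    obtain ⟨v', hv', hva'⟩ := lamY_supp D N M hD hN hM Y' a' ha'
    have hmem : v ∈ (grid k M).filter (fun v => Y v ≠ 0) := by
      rw [Finset.mem_filter, grid, Fintype.mem_piFinset]
      exact ⟨fun i => Finset.mem_range.mpr (hY.supp v hv i), hv⟩
    have hmem' : v' ∈ (grid k M).filter (fun v => Y' v ≠ 0) := by
      rw [Finset.mem_filter, grid, Fintype.mem_piFinset]
      exact ⟨fun i => Finset.mem_range.mpr (hY'.supp v' hv' i), hv'⟩
    have h1 : |E a a'| ≤ ∑ v ∈ (grid k M).filter (fun v => Y v ≠ 0),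
        ∑ v' ∈ (grid k M).filter (fun v => Y' v ≠ 0),
        (if ∀ i, (val (cset a i) : ℝ) < (N : ℝ) ^ (((v i : ℝ) + 1) / M) ∧
            (val (cset a' i) : ℝ) < (N : ℝ) ^ (((v' i : ℝ) + 1) / M) then |E a a'| else 0) := by
      have h2 : |E a a'| = (if ∀ i, (val (cset a i) : ℝ) < (N : ℝ) ^ (((v i : ℝ) + 1) / M) ∧
            (val (cset a' i) : ℝ) < (N : ℝ) ^ (((v' i : ℝ) + 1) / M) then |E a a'| else 0) := by
        rw [if_pos]
        exact fun i => ⟨hva i, hva' i⟩
      calc |E a a'| = _ := h2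
        _ ≤ ∑ v' ∈ (grid k M).filter (fun v => Y' v ≠ 0),
            (if ∀ i, (val (cset a i) : ℝ) < (N : ℝ) ^ (((v i : ℝ) + 1) / M) ∧
            (val (cset a' i) : ℝ) < (N : ℝ) ^ (((v' i : ℝ) + 1) / M) then |E a a'| else 0) :=
            Finset.single_le_sum (f := fun v' : Fin k → ℕ =>
              (if ∀ i, (val (cset a i) : ℝ) < (N : ℝ) ^ (((v i : ℝ) + 1) / M) ∧
            (val (cset a' i) : ℝ) < (N : ℝ) ^ (((v' i : ℝ) + 1) / M) then |E a a'| else 0))
              (fun v' _ => hnn v v') hmem'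
        _ ≤ _ := Finset.single_le_sum (f := fun v : Fin k → ℕ =>
              ∑ v' ∈ (grid k M).filter (fun v => Y' v ≠ 0),
              (if ∀ i, (val (cset a i) : ℝ) < (N : ℝ) ^ (((v i : ℝ) + 1) / M) ∧
            (val (cset a' i) : ℝ) < (N : ℝ) ^ (((v' i : ℝ) + 1) / M) then |E a a'| else 0))
              (fun v _ => Finset.sum_nonneg fun v' _ => hnn v v') hmem
    rw [abs_mul, abs_mul]
    calc |lamY D N M Y a| * |lamY D N M Y' a'| * |E a a'|
        ≤ (s * PP (qq D N) ^ k) * (s' * PP (qq D N) ^ k) * |E a a'| :=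
          mul_le_mul_of_nonneg_right (mul_le_mul hl hl' (abs_nonneg _) hPP) (abs_nonneg _)
      _ = C * |E a a'| := by rw [hC0]
      _ ≤ _ := mul_le_mul_of_nonneg_left h1 hC1
  have hC1 : 0 ≤ C := by
    have hl := lamY_le D N M hD s Y hY (fun _ => none)
    have hl' := lamY_le D N M hD s' Y' hY' (fun _ => none)
    have hC0 : C = (s * PP (qq D N) ^ k) * (s' * PP (qq D N) ^ k) := by
      rw [hC, two_mul, pow_add]
      ring
    rw [hC0]
    exact mul_nonneg ((abs_nonneg _).trans hl) ((abs_nonneg _).trans hl')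
  calc |∑ a, ∑ a', lamY D N M Y a * lamY D N M Y' a' * E a a'|
      ≤ ∑ a, ∑ a', |lamY D N M Y a * lamY D N M Y' a' * E a a'| := by
        refine (Finset.abs_sum_le_sum_abs _ _).trans (Finset.sum_le_sum fun a _ => ?_)
        exact Finset.abs_sum_le_sum_abs _ _
    _ ≤ ∑ a : Pr D N → Col k, ∑ a' : Pr D N → Col k,
        C * ∑ v ∈ (grid k M).filter (fun v => Y v ≠ 0),
        ∑ v' ∈ (grid k M).filter (fun v => Y' v ≠ 0),
        (if ∀ i, (val (cset a i) : ℝ) < (N : ℝ) ^ (((v i : ℝ) + 1) / M) ∧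
            (val (cset a' i) : ℝ) < (N : ℝ) ^ (((v' i : ℝ) + 1) / M) then |E a a'| else 0) :=
        Finset.sum_le_sum fun a _ => Finset.sum_le_sum fun a' _ => hterm a a'
    _ = C * ∑ v ∈ (grid k M).filter (fun v => Y v ≠ 0),
        ∑ v' ∈ (grid k M).filter (fun v => Y' v ≠ 0),
        ∑ a : Pr D N → Col k, ∑ a' : Pr D N → Col k,
        (if ∀ i, (val (cset a i) : ℝ) < (N : ℝ) ^ (((v i : ℝ) + 1) / M) ∧
            (val (cset a' i) : ℝ) < (N : ℝ) ^ (((v' i : ℝ) + 1) / M) then |E a a'| else 0) := by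
        rw [Finset.mul_sum]
        have h1 : ∀ a : Pr D N → Col k, ∑ a' : Pr D N → Col k,
            C * ∑ v ∈ (grid k M).filter (fun v => Y v ≠ 0),
            ∑ v' ∈ (grid k M).filter (fun v => Y' v ≠ 0),
            (if ∀ i, (val (cset a i) : ℝ) < (N : ℝ) ^ (((v i : ℝ) + 1) / M) ∧
            (val (cset a' i) : ℝ) < (N : ℝ) ^ (((v' i : ℝ) + 1) / M) then |E a a'| else 0)
            = ∑ v ∈ (grid k M).filter (fun v => Y v ≠ 0), C *
            ∑ v' ∈ (grid k M).filter (fun v => Y' v ≠ 0), ∑ a' : Pr D N → Col k,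
            (if ∀ i, (val (cset a i) : ℝ) < (N : ℝ) ^ (((v i : ℝ) + 1) / M) ∧
            (val (cset a' i) : ℝ) < (N : ℝ) ^ (((v' i : ℝ) + 1) / M) then |E a a'| else 0) := by
          intro a
          rw [← Finset.mul_sum, Finset.sum_comm, Finset.mul_sum]
          refine Finset.sum_congr rfl fun v _ => ?_
          rw [Finset.sum_comm]
        simp only [h1]
        rw [Finset.sum_comm]
        refine Finset.sum_congr rfl fun v _ => ?_
        rw [← Finset.mul_sum, Finset.sum_comm]
    _ ≤ _ := by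
        refine mul_le_mul_of_nonneg_left ?_ hC1
        refine Finset.sum_le_sum fun v hv => Finset.sum_le_sum fun v' hv' => ?_
        rw [Finset.mem_filter, grid, Fintype.mem_piFinset] at hv hv'
        have hle : ∀ w : Fin k → ℕ, (∀ i, w i ∈ range M) → ∀ i, ((w i : ℝ) + 1) / M ≤ 1 := by
          intro w hw i
          rw [div_le_one hMR]
          exact_mod_cast Nat.succ_le_of_lt (Finset.mem_range.mp (hw i))
        have := pair_err h D N b hD hL m (fun i => ((v i : ℝ) + 1) / M)
          (fun i => ((v' i : ℝ) + 1) / M) (hle v hv.1) (hle v' hv'.1)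
        refine le_trans (le_of_eq ?_) this
        refine Finset.sum_congr rfl fun a _ => Finset.sum_congr rfl fun a' _ => ?_
        congr

end Pool.Agent.MT
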