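import Pool.Agent.MT.Defs

/-! Module MAT (part A of MP_3509fd_nt): the per-prime matrices.  Direct computation: sum over `Option (Fin k)`
(`Fintype.sum_option`), `g = q - 1 ≥ 1`.

`conj q (K2 m q)` is: (none,none) 1, (none,m) 1/g, (m,m) 1/g², (none,i) = (i,none) = -1/g², (m,i) = (i,m) = -1/g³,
(i,i) = 1/g + 1/g² - 1/g³, (i,j) = -1/g² - 2/g³ (i ≠ j both ≠ m). -/

set_option autoImplicit false

namespace Pool.Agent.MT

open Finset

variable {k : ℕ}

private theorem sum_B_none (q : ℝ) (f : Col k → ℝ) : ∑ a, Bm q a none * f a = f none := by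
  rw [Fintype.sum_option]
  simp [Bm]

private theorem sum_B_some (q : ℝ) (f : Col k → ℝ) (i : Fin k) :
    ∑ a, Bm q a (some i) * f a = 1 / (q - 1) * f none - q / (q - 1) * f (some i) := by
  rw [Fintype.sum_option]
  simp only [Bm, ite_mul, zero_mul, Finset.sum_ite_eq', Finset.mem_univ, if_true]
  ring

private theorem conj_eq (q : ℝ) (K : Col k → Col k → ℝ) (c c' : Col k) :
    conj q K c c' = ∑ a, Bm q a c * ∑ b, Bm q b c' * K a b := by
  unfold conj
  refine Finset.sum_congr rfl fun a _ => ?_
  rw [Finset.mul_sum]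
  exact Finset.sum_congr rfl fun b _ => by ring

private theorem conj_nn (q : ℝ) (K : Col k → Col k → ℝ) : conj q K none none = K none none := by
  rw [conj_eq]
  simp only [sum_B_none]

private theorem conj_ns (q : ℝ) (K : Col k → Col k → ℝ) (j : Fin k) :
    conj q K none (some j) = 1 / (q - 1) * K none none - q / (q - 1) * K none (some j) := by
  rw [conj_eq]
  simp only [sum_B_none, sum_B_some]

private theorem conj_sn (q : ℝ) (K : Col k → Col k → ℝ) (i : Fin k) :
    conj q K (some i) none = 1 / (q - 1) * K none none - q / (q - 1) * K (some i) none := by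
  rw [conj_eq]
  simp only [sum_B_none, sum_B_some]

private theorem conj_ss (q : ℝ) (K : Col k → Col k → ℝ) (i j : Fin k) :
    conj q K (some i) (some j) = 1 / (q - 1) * (1 / (q - 1) * K none none - q / (q - 1) * K none (some j)) -
      q / (q - 1) * (1 / (q - 1) * K (some i) none - q / (q - 1) * K (some i) (some j)) := by
  rw [conj_eq]
  simp only [sum_B_some]

theorem conj_K1 (q : ℝ) (hq : 2 ≤ q) (c c' : Col k) : conj q (K1 q) c c' = M1 q c c' := by
  have hq0 : q ≠ 0 := by linarith
  have hg : q - 1 ≠ 0 := by linarith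
  cases c with
  | none =>
    cases c' with
    | none => rw [conj_nn]; simp [K1, M1]
    | some j =>
      rw [conj_ns]
      simp only [K1, M1]
      field_simp
      ring
  | some i =>
    cases c' with
    | none =>
      rw [conj_sn]
      simp only [K1, M1]
      field_simp
      ring
    | some j =>
      rw [conj_ss]
      simp only [K1, M1]
      split_ifs <;> field_simp <;> ring

private theorem sum2 (F : Col k → Col k → ℝ) :
    ∑ c, ∑ c', F c c' = F none none + ∑ j, F none (some j) + ∑ i, (F (some i) none + ∑ j, F (some i) (some j)) := by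
  rw [Fintype.sum_option]
  simp only [Fintype.sum_option]

theorem conj_K2 (m : Fin k) (q : ℝ) (hq : 2 ≤ q) :
    ∑ c, ∑ c', |conj q (K2 m q) c c' - M0 m q c c'| ≤ 3 * (k : ℝ) ^ 2 / (q - 1) ^ 2 := by
  have hg : 0 < q - 1 := by linarith
  have hg1 : 1 ≤ q - 1 := by linarith
  rw [sum2]
  have hnn : |conj q (K2 m q) none none - M0 m q none none| = 0 := by
    rw [conj_nn]; simp [K2, M0]
  obtain ⟨g, rfl⟩ : ∃ g, q = g + 1 := ⟨q - 1, by ring⟩
  have e1 : g + 1 - 1 = g := by ring
  rw [e1] at hg hg1
  have hns : ∀ j, |conj (g + 1) (K2 m (g + 1)) none (some j) - M0 m (g + 1) none (some j)| ≤ 1 / g ^ 2 := by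
    intro j
    rw [conj_ns]
    simp only [K2, M0, e1]
    split_ifs
    · simp; positivity
    · rw [abs_le]
      constructor
      · apply le_of_eq
        field_simp
        ring
      · have : 1 / g * 1 - (g + 1) / g * (1 / g) - 0 = - (1 / g ^ 2) := by
          field_simp
          ring
        rw [this]
        have : 0 ≤ 1 / g ^ 2 := by positivity
        linarith
  have hsn : ∀ i, |conj (g + 1) (K2 m (g + 1)) (some i) none - M0 m (g + 1) (some i) none| ≤ 1 / g ^ 2 := by
    intro j
    rw [conj_sn]
    simp only [K2, M0, e1]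
    split_ifs
    · simp; positivity
    · rw [abs_le]
      constructor
      · apply le_of_eq
        field_simp
        ring
      · have : 1 / g * 1 - (g + 1) / g * (1 / g) - 0 = - (1 / g ^ 2) := by
          field_simp
          ring
        rw [this]
        have : 0 ≤ 1 / g ^ 2 := by positivity
        linarith
  have hss : ∀ i j, |conj (g + 1) (K2 m (g + 1)) (some i) (some j) - M0 m (g + 1) (some i) (some j)| ≤
      (3 - 2 * (if i = m then 1 else 0)) / g ^ 2 := by
    intro i j
    rw [conj_ss]
    have h3 : 1 / g ^ 3 ≤ 1 / g ^ 2 := by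
      apply one_div_le_one_div_of_le (by positivity)
      calc g ^ 2 = g ^ 2 * 1 := by ring
        _ ≤ g ^ 2 * g := mul_le_mul_of_nonneg_left hg1 (by positivity)
        _ = g ^ 3 := by ring
    have p2 : 0 ≤ 1 / g ^ 2 := by positivity
    have p3 : 0 ≤ 1 / g ^ 3 := by positivity
    by_cases hi : i = m
    · subst hi
      by_cases hj : i = j
      · subst hj
        simp only [K2, M0, e1, if_true, ne_eq, not_true_eq_false, and_false, if_false]
        have : 1 / g * (1 / g * 1 - (g + 1) / g * 0) - (g + 1) / g * (1 / g * 0 - (g + 1) / g * 0) - 1 / g ^ 2 = 0 := by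
          field_simp
          ring
        rw [this, abs_zero]
        have : (3 - 2 * (1 : ℝ)) / g ^ 2 = 1 / g ^ 2 := by norm_num
        rw [this]
        exact p2
      · have hj' : ¬ j = i := fun h => hj h.symm
        simp only [K2, M0, e1, if_true, hj, hj', false_and, if_false]
        have : 1 / g * (1 / g * 1 - (g + 1) / g * (1 / g)) - (g + 1) / g * (1 / g * 0 - (g + 1) / g * 0) - 0 =
            - (1 / g ^ 3) := by
          field_simp
          ring
        rw [this, abs_neg, abs_of_nonneg p3]
        have : (3 - 2 * (1 : ℝ)) / g ^ 2 = 1 / g ^ 2 := by norm_num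
        rw [this]
        exact h3
    · have e3 : (3 - 2 * (0 : ℝ)) / g ^ 2 = 3 * (1 / g ^ 2) := by ring
      by_cases hj : i = j
      · subst hj
        simp only [K2, M0, e1, hi, if_true, ne_eq, not_false_eq_true, and_self, if_false]
        have : 1 / g * (1 / g * 1 - (g + 1) / g * (1 / g)) - (g + 1) / g * (1 / g * (1 / g) - (g + 1) / g * (1 / g)) - 1 / g =
            1 / g ^ 2 - 1 / g ^ 3 := by
          field_simp
          ring
        rw [this, e3, abs_of_nonneg (by linarith)]
        linarith
      · by_cases hjm : j = m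
        · subst hjm
          simp only [K2, M0, e1, hi, if_true, false_and, if_false]
          have : 1 / g * (1 / g * 1 - (g + 1) / g * 0) - (g + 1) / g * (1 / g * (1 / g) - (g + 1) / g * 0) - 0 =
              - (1 / g ^ 3) := by
            field_simp
            ring
          rw [this, e3, abs_neg, abs_of_nonneg p3]
          linarith
        · simp only [K2, M0, e1, hi, hj, hjm, false_and, if_false]
          have : 1 / g * (1 / g * 1 - (g + 1) / g * (1 / g)) - (g + 1) / g * (1 / g * (1 / g) - (g + 1) / g * 0) - 0 =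
              - (1 / g ^ 2 + 2 * (1 / g ^ 3)) := by
            field_simp
            ring
          rw [this, e3, abs_neg, abs_of_nonneg (by linarith)]
          linarith
  rw [hnn, e1]
  have s1 : ∑ j, |conj (g + 1) (K2 m (g + 1)) none (some j) - M0 m (g + 1) none (some j)| ≤ ∑ _j : Fin k, 1 / g ^ 2 :=
    Finset.sum_le_sum fun j _ => hns j
  have s2 : ∑ i, (|conj (g + 1) (K2 m (g + 1)) (some i) none - M0 m (g + 1) (some i) none| +
      ∑ j, |conj (g + 1) (K2 m (g + 1)) (some i) (some j) - M0 m (g + 1) (some i) (some j)|) ≤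
      ∑ i : Fin k, (1 / g ^ 2 + ∑ _j : Fin k, (3 - 2 * (if i = m then 1 else 0)) / g ^ 2) :=
    Finset.sum_le_sum fun i _ => add_le_add (hsn i) (Finset.sum_le_sum fun j _ => hss i j)
  refine (add_le_add (add_le_add le_rfl s1) s2).trans (le_of_eq ?_)
  simp only [Finset.sum_const, Finset.card_univ, Fintype.card_fin, nsmul_eq_mul, Finset.sum_add_distrib]
  rw [← Finset.mul_sum, ← Finset.sum_div, Finset.sum_sub_distrib, ← Finset.mul_sum]
  simp only [Finset.sum_const, Finset.card_univ, Fintype.card_fin, nsmul_eq_mul, Finset.sum_ite_eq', Finset.mem_univ,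
    if_true]
  field_simp
  ring

theorem sum_M1 (q : ℝ) (hq : 2 ≤ q) :
    ∑ c : Col k, ∑ c' : Col k, |M1 q c c' - M1d q c c'| ≤ (k : ℝ) ^ 2 / (q - 1) ^ 2 := by
  have hg : 0 < q - 1 := by linarith
  rw [sum2]
  have h1 : |M1 (k := k) q none none - M1d (k := k) q none none| = 0 := by simp [M1, M1d]
  have h2 : ∀ j : Fin k, |M1 q none (some j) - M1d q none (some j)| = 0 := fun j => by simp [M1, M1d]
  have h3 : ∀ j : Fin k, |M1 q (some j) none - M1d q (some j) none| = 0 := fun j => by simp [M1, M1d]
  have h4 : ∀ i j : Fin k, |M1 q (some i) (some j) - M1d q (some i) (some j)| ≤ 1 / (q - 1) ^ 2 := by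
    intro i j
    simp only [M1, M1d]
    split_ifs
    · simp; positivity
    · rw [sub_zero, abs_neg, abs_of_nonneg (by positivity)]
  rw [h1]
  simp only [h2, h3, Finset.sum_const_zero, zero_add]
  refine (Finset.sum_le_sum fun i _ => Finset.sum_le_sum fun j _ => h4 i j).trans (le_of_eq ?_)
  simp only [Finset.sum_const, Finset.card_univ, Fintype.card_fin, nsmul_eq_mul]
  ring

theorem sum_M1d (q : ℝ) (hq : 2 ≤ q) :
    ∑ c : Col k, ∑ c' : Col k, |M1d q c c'| = 1 + k / (q - 1) := by
  have hg : 0 < q - 1 := by linarith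
  rw [sum2]
  have h4 : ∀ i : Fin k, ∑ j : Fin k, |M1d q (some i) (some j)| = 1 / (q - 1) := by
    intro i
    rw [Finset.sum_eq_single i]
    · simp only [M1d, if_true]
      exact abs_of_nonneg (by positivity)
    · intro j _ hj
      have : ¬ i = j := fun h => hj h.symm
      simp [M1d, this]
    · simp
  simp only [h4]
  simp only [M1d, abs_one, abs_zero, Finset.sum_const_zero, zero_add, Finset.sum_const, Finset.card_univ,
    Fintype.card_fin, nsmul_eq_mul, add_zero]
  ring

theorem sum_M0 (m : Fin k) (q : ℝ) (hq : 2 ≤ q) :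
    ∑ c : Col k, ∑ c' : Col k, |M0 m q c c'| = (1 + 1 / (q - 1)) ^ 2 + (k - 1) / (q - 1) := by
  have hg : 0 < q - 1 := by linarith
  rw [sum2]
  have h2 : ∑ j : Fin k, |M0 m q none (some j)| = 1 / (q - 1) := by
    rw [Finset.sum_eq_single m]
    · simp only [M0, if_true]
      exact abs_of_nonneg (by positivity)
    · intro j _ hj
      simp [M0, hj]
    · simp
  have h3 : ∑ i : Fin k, |M0 m q (some i) none| = 1 / (q - 1) := by
    rw [Finset.sum_eq_single m]
    · simp only [M0, if_true]
      exact abs_of_nonneg (by positivity)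
    · intro j _ hj
      simp [M0, hj]
    · simp
  have h4 : ∀ i : Fin k, ∑ j : Fin k, |M0 m q (some i) (some j)| =
      1 / (q - 1) + (if i = m then 1 / (q - 1) ^ 2 - 1 / (q - 1) else 0) := by
    intro i
    rw [Finset.sum_eq_single i]
    · simp only [M0, if_true]
      split_ifs
      · rw [abs_of_nonneg (by positivity)]
        ring
      · rw [abs_of_nonneg (by positivity)]
        ring
    · intro j _ hj
      have : ¬ i = j := fun h => hj h.symm
      simp [M0, this]
    · simp
  rw [Finset.sum_add_distrib, h2, h3]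
  simp only [h4]
  rw [Finset.sum_add_distrib, Finset.sum_ite_eq' univ m]
  simp only [M0, abs_one, Finset.sum_const, Finset.card_univ, Fintype.card_fin, nsmul_eq_mul, Finset.mem_univ, if_true]
  field_simp
  ring

theorem sum_Bm (q : ℝ) (hq : 2 ≤ q) (a : Col k) : ∑ c : Col k, |Bm q a c| ≤ 1 + k / (q - 1) := by
  have hg : 0 < q - 1 := by linarith
  rw [Fintype.sum_option]
  cases a with
  | none =>
    simp only [Bm, abs_one, Finset.sum_const, Finset.card_univ, Fintype.card_fin, nsmul_eq_mul]
    rw [abs_of_nonneg (by positivity)]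
    apply le_of_eq
    ring
  | some i =>
    have h : ∑ j : Fin k, |Bm q (some i) (some j)| = q / (q - 1) := by
      rw [Finset.sum_eq_single i]
      · simp only [Bm, if_true]
        rw [abs_neg, abs_of_nonneg (by positivity)]
      · intro j _ hj
        have : ¬ i = j := fun h => hj h.symm
        simp [Bm, this]
      · simp
    rw [h]
    simp only [Bm, abs_zero, zero_add]
    have hk : (1 : ℝ) ≤ k := by exact_mod_cast (Nat.one_le_iff_ne_zero.2 (by have := i.2; omega) : 1 ≤ k)
    rw [div_le_iff₀ hg, add_mul, div_mul_cancel₀ _ hg.ne']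
    linarith

end Pool.Agent.MT
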