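import Pool.Agent.MT.Ten
import Pool.Agent.MT.Mat
import Pool.Agent.MT.Exps

/-! Module BOX (part A of MP_3509fd_nt): support and size of the weights.
`Bm q a c ≠ 0` forces `a = none` or `a = c`; so `lamY a ≠ 0` gives `c` with `Y (cells of c) ≠ 0` and
`cset a i ⊆ cset c i`, hence `val (cset a i) ≤ val (cset c i) < N^((v_i+1)/M)` (`v_i` the floor of `M log val/log N`). -/

set_option autoImplicit false

namespace Pool.Agent.MT

open Finset

variable {k : ℕ}

namespace BOXAux

theorem prime {D N : ℕ} (p : Pr D N) : (p : ℕ).Prime ∧ D < (p : ℕ) := by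
  have h := p.2
  unfold PrS at h
  rw [Finset.mem_filter] at h
  exact h.2

theorem qq_ge {D N : ℕ} (hD : 2 ≤ D) (p : Pr D N) : 2 ≤ qq D N p := by
  unfold qq
  have := (prime p).2
  have h2 : 2 ≤ (p : ℕ) := by omega
  exact_mod_cast h2

theorem val_pos {D N : ℕ} (S : Finset (Pr D N)) : 0 < val S := by
  unfold val
  exact Finset.prod_pos fun p _ => (prime p).1.pos

theorem val_mono {D N : ℕ} {S T : Finset (Pr D N)} (h : S ⊆ T) : val S ≤ val T := by
  unfold val
  exact Finset.prod_le_prod_of_subset_of_one_le' h fun p _ _ => (prime p).1.one_lt.le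

theorem mem_of_dvd {D N : ℕ} (S : Finset (Pr D N)) (p : Pr D N) : (p : ℕ) ∣ val S ↔ p ∈ S := by
  unfold val
  constructor
  · intro h
    rw [Prime.dvd_finsetProd_iff (prime p).1.prime] at h
    obtain ⟨r, hr, hd⟩ := h
    have : (p : ℕ) = (r : ℕ) := (Nat.prime_dvd_prime_iff_eq (prime p).1 (prime r).1).mp hd
    have hpr : p = r := Subtype.ext this
    rw [hpr]; exact hr
  · intro h
    exact Finset.dvd_prod_of_mem (fun p : Pr D N => (p : ℕ)) h

theorem val_inj {D N : ℕ} {S T : Finset (Pr D N)} (h : val S = val T) : S = T := by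
  ext p
  rw [← mem_of_dvd S p, ← mem_of_dvd T p, h]

theorem Bm_ne {q : ℝ} {a c : Col k} (h : Bm q a c ≠ 0) : a = none ∨ a = c := by
  cases a with
  | none => exact Or.inl rfl
  | some i =>
    cases c with
    | none => exact absurd rfl h
    | some j =>
      right
      by_contra hne
      apply h
      have hij : i ≠ j := fun e => hne (by rw [e])
      simp [Bm, hij]

theorem cell_lt {D N : ℕ} (M : ℕ) (hN : 2 ≤ N) (hM : 1 ≤ M) (S : Finset (Pr D N)) :
    (val S : ℝ) < (N : ℝ) ^ (((cell M S : ℝ) + 1) / M) := by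
  have hN1 : (1 : ℝ) < N := by exact_mod_cast hN
  have hlog : 0 < Real.log N := Real.log_pos hN1
  have hM0 : (0 : ℝ) < M := by exact_mod_cast hM
  have hv : (0 : ℝ) < val S := by exact_mod_cast val_pos S
  have h1 : (M : ℝ) * Real.log (val S) / Real.log N < (cell M S : ℝ) + 1 := Nat.lt_floor_add_one _
  have h2 : Real.log (val S) < ((cell M S : ℝ) + 1) / M * Real.log N := by
    rw [div_lt_iff₀ hlog] at h1
    rw [div_mul_eq_mul_div, lt_div_iff₀ hM0]
    linarith
  rw [← Real.log_lt_log_iff hv (Real.rpow_pos_of_pos (by linarith) _), Real.log_rpow (by linarith)]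
  exact h2

theorem s_nonneg {M : ℕ} {s : ℝ} {Y : (Fin k → ℕ) → ℝ} (hY : Grid M s Y) : 0 ≤ s :=
  (abs_nonneg _).trans (hY.bd fun _ => 0)

end BOXAux

open BOXAux

theorem lamY_supp (D N M : ℕ) (hD : 2 ≤ D) (hN : 2 ≤ N) (hM : 1 ≤ M) (Y : (Fin k → ℕ) → ℝ)
    (a : Pr D N → Col k) (ha : lamY D N M Y a ≠ 0) :
    ∃ v, Y v ≠ 0 ∧ ∀ i, (val (cset a i) : ℝ) < (N : ℝ) ^ (((v i : ℝ) + 1) / M) := by
  unfold lamY lam at ha
  obtain ⟨c, _, hc⟩ := Finset.exists_ne_zero_of_sum_ne_zero ha
  have hc1 : yy (cell M) Y c ≠ 0 := left_ne_zero_of_mul hc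
  have hc2 : ∏ p, Bm (qq D N p) (a p) (c p) ≠ 0 := right_ne_zero_of_mul hc
  rw [Finset.prod_ne_zero_iff] at hc2
  refine ⟨fun i => cell M (cset c i), hc1, fun i => ?_⟩
  have hsub : cset a i ⊆ cset c i := by
    intro p hp
    unfold cset at hp ⊢
    rw [Finset.mem_filter] at hp ⊢
    refine ⟨Finset.mem_univ _, ?_⟩
    rcases Bm_ne (hc2 p (Finset.mem_univ p)) with h | h
    · rw [h] at hp; exact absurd hp.2 (by simp)
    · rw [← h]; exact hp.2
  have h1 : (val (cset a i) : ℝ) ≤ (val (cset c i) : ℝ) := by exact_mod_cast val_mono hsub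
  exact h1.trans_lt (cell_lt M hN hM (cset c i))

theorem lamY_le (D N M : ℕ) (hD : 2 ≤ D) (s : ℝ) (Y : (Fin k → ℕ) → ℝ) (hY : Grid M s Y) (a : Pr D N → Col k) :
    |lamY D N M Y a| ≤ s * PP (qq D N) ^ k := by
  have hs := s_nonneg hY
  have h1 := lam_abs (qq D N) (yy (cell M) Y) s (fun c => hY.bd _) a
  refine h1.trans (mul_le_mul_of_nonneg_left ?_ hs)
  refine le_trans ?_ (prodB (qq D N) (fun p => qq_ge hD p) k)
  refine Finset.prod_le_prod (fun p _ => Finset.sum_nonneg fun c _ => abs_nonneg _) fun p _ => ?_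
  exact sum_Bm _ (qq_ge hD p) _

open Classical in
/-- `a ↦ (val (cset a i))_i` is injective; there are at most `x` integers in `[1, x)` -/
theorem card_box (D N : ℕ) (hN : 1 ≤ N) (t : Fin k → ℝ) :
    (((univ : Finset (Pr D N → Col k)).filter fun a => ∀ i, (val (cset a i) : ℝ) < (N : ℝ) ^ t i).card : ℝ) ≤
      (N : ℝ) ^ ∑ i, t i := by
  have hN0 : (0 : ℝ) < N := by exact_mod_cast hN
  have hinj : Set.InjOn (fun (a : Pr D N → Col k) (i : Fin k) => val (cset a i))
      ((univ : Finset (Pr D N → Col k)).filter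
        fun a => ∀ i, (val (cset a i) : ℝ) < (N : ℝ) ^ t i : Finset _) := by
    intro a _ b _ hab
    have hS : ∀ i, cset a i = cset b i := fun i => val_inj (congrFun hab i)
    funext p
    have hmem : ∀ i, a p = some i ↔ b p = some i := by
      intro i
      have h := Finset.ext_iff.mp (hS i) p
      unfold cset at h
      simpa using h
    cases hap : a p with
    | none =>
      cases hbp : b p with
      | none => rfl
      | some j => exact absurd ((hmem j).mpr hbp) (by rw [hap]; simp)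
    | some i => exact ((hmem i).mp hap).symm
  have hcard := Finset.card_le_card_of_injOn
    (s := (univ : Finset (Pr D N → Col k)).filter
        fun a => ∀ i, (val (cset a i) : ℝ) < (N : ℝ) ^ t i)
    (t := Fintype.piFinset fun i => Finset.Icc 1 (⌈(N : ℝ) ^ t i⌉₊ - 1))
    (fun (a : Pr D N → Col k) (i : Fin k) => val (cset a i)) (by
      intro a ha
      rw [Finset.mem_coe, Finset.mem_filter] at ha
      rw [Finset.mem_coe, Fintype.mem_piFinset]
      intro i
      rw [Finset.mem_Icc]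
      refine ⟨val_pos _, ?_⟩
      have h1 : val (cset a i) < ⌈(N : ℝ) ^ t i⌉₊ := Nat.lt_ceil.mpr (ha.2 i)
      show val (cset a i) ≤ _
      omega) hinj
  rw [Fintype.card_piFinset] at hcard
  calc (((univ : Finset (Pr D N → Col k)).filter
        fun a => ∀ i, (val (cset a i) : ℝ) < (N : ℝ) ^ t i).card : ℝ)
      ≤ ((∏ i, (Finset.Icc 1 (⌈(N : ℝ) ^ t i⌉₊ - 1)).card : ℕ) : ℝ) := by exact_mod_cast hcard
    _ = ∏ i, ((⌈(N : ℝ) ^ t i⌉₊ - 1 : ℕ) : ℝ) := by
        push_cast
        refine Finset.prod_congr rfl fun i _ => ?_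
        rw [Nat.card_Icc, Nat.add_sub_cancel]
    _ ≤ ∏ i, (N : ℝ) ^ t i := by
        refine Finset.prod_le_prod (fun i _ => by positivity) fun i _ => ?_
        have hp : 0 < (N : ℝ) ^ t i := Real.rpow_pos_of_pos hN0 _
        have h1 : (⌈(N : ℝ) ^ t i⌉₊ : ℝ) < (N : ℝ) ^ t i + 1 := Nat.ceil_lt_add_one hp.le
        have h2 : 1 ≤ ⌈(N : ℝ) ^ t i⌉₊ := Nat.one_le_iff_ne_zero.mpr (Nat.ceil_pos.mpr hp).ne'
        rw [Nat.cast_sub h2]
        push_cast
        linarith
    _ = (N : ℝ) ^ ∑ i, t i := by rw [Real.rpow_sum_of_pos hN0]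

theorem sum_lamY (D N M : ℕ) (hD : 2 ≤ D) (hN : 2 ≤ N) (hM : 1 ≤ M) (s θ : ℝ) (Y : (Fin k → ℕ) → ℝ)
    (hY : Grid M s Y) (hθ : ∀ v, Y v ≠ 0 → ∑ i, ((v i : ℝ) + 1) / M ≤ θ) :
    ∑ a, |lamY D N M Y a| ≤ (M : ℝ) ^ k * (N : ℝ) ^ θ * (s * PP (qq D N) ^ k) := by
  classical
  have hs := s_nonneg hY
  have hPP : 0 ≤ PP (qq D N) := le_trans zero_le_one (PP_ge (qq D N) fun p => qq_ge hD p)
  have hC : 0 ≤ s * PP (qq D N) ^ k := by positivity
  have hN1 : (1 : ℝ) ≤ N := by
    have : 1 ≤ N := by omega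
    exact_mod_cast this
  -- pointwise
  have hpt : ∀ a : Pr D N → Col k, |lamY D N M Y a| ≤
      ∑ v ∈ (grid k M).filter (fun v => Y v ≠ 0),
        if (∀ i, (val (cset a i) : ℝ) < (N : ℝ) ^ (((v i : ℝ) + 1) / M)) then s * PP (qq D N) ^ k else 0 := by
    intro a
    have hnn : ∀ v ∈ (grid k M).filter (fun v => Y v ≠ 0), 0 ≤
        (if (∀ i, (val (cset a i) : ℝ) < (N : ℝ) ^ (((v i : ℝ) + 1) / M))
          then s * PP (qq D N) ^ k else 0) := by
      intro v _
      split_ifs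
      · exact hC
      · exact le_rfl
    by_cases ha : lamY D N M Y a = 0
    · rw [ha, abs_zero]
      exact Finset.sum_nonneg hnn
    · obtain ⟨v, hv, hlt⟩ := lamY_supp D N M hD hN hM Y a ha
      have hvm : v ∈ (grid k M).filter (fun v => Y v ≠ 0) := by
        rw [Finset.mem_filter]
        refine ⟨?_, hv⟩
        unfold grid
        rw [Fintype.mem_piFinset]
        exact fun i => Finset.mem_range.mpr (hY.supp v hv i)
      have h1 := Finset.single_le_sum hnn hvm
      rw [if_pos hlt] at h1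
      exact (lamY_le D N M hD s Y hY a).trans h1
  calc ∑ a, |lamY D N M Y a| ≤ ∑ a : Pr D N → Col k, ∑ v ∈ (grid k M).filter (fun v => Y v ≠ 0),
        (if (∀ i, (val (cset a i) : ℝ) < (N : ℝ) ^ (((v i : ℝ) + 1) / M))
          then s * PP (qq D N) ^ k else 0) := Finset.sum_le_sum fun a _ => hpt a
    _ = ∑ v ∈ (grid k M).filter (fun v => Y v ≠ 0), ∑ a : Pr D N → Col k,
        (if (∀ i, (val (cset a i) : ℝ) < (N : ℝ) ^ (((v i : ℝ) + 1) / M))
          then s * PP (qq D N) ^ k else 0) := Finset.sum_comm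
    _ ≤ ∑ v ∈ (grid k M).filter (fun v => Y v ≠ 0), (N : ℝ) ^ θ * (s * PP (qq D N) ^ k) := by
        refine Finset.sum_le_sum fun v hv => ?_
        rw [← Finset.sum_filter, Finset.sum_const, nsmul_eq_mul]
        refine mul_le_mul_of_nonneg_right ?_ hC
        refine (card_box D N (by omega) (fun i => ((v i : ℝ) + 1) / M)).trans ?_
        exact Real.rpow_le_rpow_of_exponent_le hN1 (hθ v (Finset.mem_filter.mp hv).2)
    _ ≤ ∑ v ∈ grid k M, (N : ℝ) ^ θ * (s * PP (qq D N) ^ k) := by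
        refine Finset.sum_le_sum_of_subset_of_nonneg (Finset.filter_subset _ _) fun v _ _ => ?_
        have : 0 ≤ (N : ℝ) ^ θ := Real.rpow_nonneg (by linarith) _
        positivity
    _ = (M : ℝ) ^ k * (N : ℝ) ^ θ * (s * PP (qq D N) ^ k) := by
        rw [Finset.sum_const, nsmul_eq_mul]
        unfold grid
        rw [Fintype.card_piFinset]
        simp only [Finset.card_range, Finset.prod_const, Finset.card_univ, Fintype.card_fin]
        push_cast
        ring

end Pool.Agent.MT
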