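import Pool.Agent.MT.Defs
import Pool.Agent.BrunHooley.Mertens

/-! Module MERT (part A of MP_3509fd_nt): Mertens upper bound for the product over the primes.
With `L = log N`, `s = 1 + 1/L`:  `(1 - 1/p)⁻¹ ≤ (1 - p^(-s))⁻¹ · exp(2 (1/p - p^(-s)))`,
`1/p - p^(-s) ≤ log p/(p L)`, and `∏_{p<N} (1 - p^(-s))⁻¹ ≤ ∑ n^(-s) ≤ 1 + L`. -/

set_option autoImplicit false

namespace Pool.Agent.MT

open Finset Filter

namespace MERTAux

/-- `n ↦ n^(-s)` as a monoid homomorphism -/
noncomputable def fs (s : ℝ) : ℕ →* ℝ where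
  toFun n := (n : ℝ) ^ (-s)
  map_one' := by simp
  map_mul' m n := by
    push_cast
    exact Real.mul_rpow (Nat.cast_nonneg m) (Nat.cast_nonneg n)

theorem fs_apply (s : ℝ) (n : ℕ) : fs s n = (n : ℝ) ^ (-s) := rfl

theorem summable_fs (s : ℝ) (hs : 1 < s) : Summable (fs s) := by
  have h := Real.summable_nat_rpow (p := -s)
  have h2 : Summable fun n : ℕ => (n : ℝ) ^ (-s) := h.mpr (by linarith)
  exact h2

theorem tsum_fs_le (s : ℝ) (hs : 1 < s) : ∑' n : ℕ, fs s n ≤ 1 + 1 / (s - 1) := by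
  have h1 := ZetaAsymptotics.zeta_limit_aux1 hs
  have h2 : 0 ≤ ZetaAsymptotics.termTSum s :=
    tsum_nonneg fun n => ZetaAsymptotics.term_nonneg (n + 1) s
  have h3 : ∑' n : ℕ, fs s n = ∑' n : ℕ, 1 / ((n : ℝ) + 1) ^ s := by
    rw [(summable_fs s hs).tsum_eq_zero_add]
    have h0 : fs s 0 = 0 := by
      rw [fs_apply, Nat.cast_zero, Real.zero_rpow (by linarith)]
    rw [h0, zero_add]
    refine tsum_congr fun n => ?_
    rw [fs_apply, Real.rpow_neg (by positivity)]
    push_cast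
    rw [one_div]
  rw [h3]
  nlinarith

theorem prod_fs_le (s : ℝ) (hs : 1 < s) (N : ℕ) :
    ∏ p ∈ (range N).filter Nat.Prime, (1 - (p : ℝ) ^ (-s))⁻¹ ≤ 1 + 1 / (s - 1) := by
  have h := EulerProduct.prod_primesBelow_geometric_eq_tsum_smoothNumbers (summable_fs s hs) N
  have e : ∏ p ∈ (range N).filter Nat.Prime, (1 - (p : ℝ) ^ (-s))⁻¹ =
      ∏ p ∈ N.primesBelow, (1 - fs s p)⁻¹ := rfl
  rw [e, h]
  refine le_trans ?_ (tsum_fs_le s hs)
  have hnn : ∀ n : ℕ, 0 ≤ fs s n := by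
    intro n
    rw [fs_apply]
    positivity
  exact Summable.tsum_subtype_le (fs s) (N.smoothNumbers : Set ℕ) hnn (summable_fs s hs)

theorem factor (p : ℕ) (hp : p.Prime) (L : ℝ) (hL : 0 < L) :
    (1 - 1 / (p : ℝ))⁻¹ ≤ (1 - (p : ℝ) ^ (-(1 + 1 / L)))⁻¹ *
      Real.exp (2 / L * (Real.log p / p)) := by
  have hp2 : (2 : ℝ) ≤ p := by exact_mod_cast hp.two_le
  have hp0 : (0 : ℝ) < p := by linarith
  have hlog : 0 ≤ Real.log p := Real.log_nonneg (by linarith)
  set u : ℝ := (p : ℝ) ^ (-(1 + 1 / L)) with hu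
  have hu_eq : u = 1 / p * Real.exp (-(Real.log p / L)) := by
    rw [hu, Real.rpow_def_of_pos hp0]
    have : Real.log p * -(1 + 1 / L) = -Real.log p + -(Real.log p / L) := by ring
    rw [this, Real.exp_add, Real.exp_neg, Real.exp_log hp0, one_div]
  have hexp1 : Real.exp (-(Real.log p / L)) ≤ 1 := by
    rw [Real.exp_le_one_iff]
    have : 0 ≤ Real.log p / L := div_nonneg hlog hL.le
    linarith
  have hexp2 : 1 - Real.log p / L ≤ Real.exp (-(Real.log p / L)) := by
    have := Real.add_one_le_exp (-(Real.log p / L))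
    linarith
  have hinv : (0 : ℝ) < 1 / p := by positivity
  have hinv2 : 1 / (p : ℝ) ≤ 1 / 2 := by
    apply one_div_le_one_div_of_le (by norm_num) hp2
  have hu1 : u ≤ 1 / p := by rw [hu_eq]; nlinarith
  have hu0 : 0 < 1 - u := by linarith
  have hv0 : 0 < 1 - 1 / (p : ℝ) := by linarith
  have hdiff : 1 / p - u ≤ 1 / L * (Real.log p / p) := by
    rw [hu_eq]
    have : 1 / (p : ℝ) - 1 / p * Real.exp (-(Real.log p / L)) =
      1 / p * (1 - Real.exp (-(Real.log p / L))) := by ring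
    rw [this]
    calc 1 / (p : ℝ) * (1 - Real.exp (-(Real.log p / L))) ≤ 1 / p * (Real.log p / L) :=
          mul_le_mul_of_nonneg_left (by linarith) hinv.le
      _ = 1 / L * (Real.log p / p) := by ring
  -- (1 - u) / (1 - 1/p) ≤ 1 + 2 (1/p - u)
  have hratio : (1 - u) / (1 - 1 / (p : ℝ)) ≤ Real.exp (2 / L * (Real.log p / p)) := by
    have h1 : (1 - u) / (1 - 1 / (p : ℝ)) ≤ 1 + 2 * (1 / p - u) := by
      rw [div_le_iff₀ hv0]
      nlinarith
    have h2 : 1 + 2 * (1 / p - u) ≤ 2 / L * (Real.log p / p) + 1 := by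
      have : 2 * (1 / L * (Real.log p / p)) = 2 / L * (Real.log p / p) := by ring
      linarith
    exact h1.trans (h2.trans (Real.add_one_le_exp _))
  rw [div_le_iff₀ hv0] at hratio
  rw [inv_mul_eq_div, inv_eq_one_div, div_le_div_iff₀ hv0 hu0]
  linarith

theorem logsum (N : ℕ) (hN : 2 ≤ N) :
    ∑ p ∈ (range N).filter Nat.Prime, Real.log p / (p : ℝ) ≤ Real.log N + (Real.log 4 + 4) := by
  refine le_trans ?_ (BrunHooley.MertensAux.M_le N (by omega))
  unfold BrunHooley.MertensAux.M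
  calc ∑ p ∈ (range N).filter Nat.Prime, Real.log p / (p : ℝ)
      = ∑ p ∈ (range N).filter Nat.Prime, ArithmeticFunction.vonMangoldt p / (p : ℝ) := by
        refine Finset.sum_congr rfl fun p hp => ?_
        rw [ArithmeticFunction.vonMangoldt_apply_prime (Finset.mem_filter.1 hp).2]
    _ ≤ _ := by
        refine Finset.sum_le_sum_of_subset_of_nonneg ?_ fun d _ _ =>
          div_nonneg ArithmeticFunction.vonMangoldt_nonneg (Nat.cast_nonneg d)
        intro p hp
        rw [Finset.mem_filter, Finset.mem_range] at hp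
        rw [Finset.mem_Ioc]
        exact ⟨hp.2.pos, hp.1.le⟩

end MERTAux

open MERTAux

theorem mertens_prod : ∃ C : ℝ, 0 < C ∧ ∀ N : ℕ, 2 ≤ N →
    ∏ p ∈ (range N).filter Nat.Prime, (1 - 1 / (p : ℝ))⁻¹ ≤ C * Real.log N := by
  have hl2 : 0 < Real.log 2 := Real.log_pos (by norm_num)
  refine ⟨(1 / Real.log 2 + 1) * Real.exp (2 + 2 / Real.log 2 * (Real.log 4 + 4)), by positivity,
    fun N hN => ?_⟩
  have hNr : (2 : ℝ) ≤ N := by exact_mod_cast hN
  set L := Real.log N with hL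
  have hL2 : Real.log 2 ≤ L := Real.log_le_log (by norm_num) hNr
  have hL0 : 0 < L := by linarith
  have hs : 1 < 1 + 1 / L := by
    have : 0 < 1 / L := by positivity
    linarith
  have h1 : ∏ p ∈ (range N).filter Nat.Prime, (1 - 1 / (p : ℝ))⁻¹ ≤
      ∏ p ∈ (range N).filter Nat.Prime, ((1 - (p : ℝ) ^ (-(1 + 1 / L)))⁻¹ *
        Real.exp (2 / L * (Real.log p / p))) := by
    refine Finset.prod_le_prod (fun p hp => ?_) fun p hp => factor p (Finset.mem_filter.1 hp).2 L hL0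
    have hp2 : (2 : ℝ) ≤ p := by exact_mod_cast (Finset.mem_filter.1 hp).2.two_le
    have : 1 / (p : ℝ) ≤ 1 / 2 := one_div_le_one_div_of_le (by norm_num) hp2
    exact inv_nonneg.mpr (by linarith)
  rw [Finset.prod_mul_distrib, ← Real.exp_sum, ← Finset.mul_sum] at h1
  have h2 := prod_fs_le (1 + 1 / L) hs N
  have h3 : 1 + 1 / (1 + 1 / L - 1) = 1 + L := by
    have : 1 + 1 / L - 1 = 1 / L := by ring
    rw [this, one_div_one_div]
  rw [h3] at h2
  have h4 : 2 / L * ∑ p ∈ (range N).filter Nat.Prime, Real.log p / (p : ℝ) ≤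
      2 + 2 / Real.log 2 * (Real.log 4 + 4) := by
    have h5 := logsum N hN
    have hl4 : 0 ≤ Real.log 4 + 4 := by
      have : 0 ≤ Real.log 4 := Real.log_nonneg (by norm_num)
      linarith
    calc 2 / L * ∑ p ∈ (range N).filter Nat.Prime, Real.log p / (p : ℝ)
        ≤ 2 / L * (L + (Real.log 4 + 4)) := mul_le_mul_of_nonneg_left h5 (by positivity)
      _ = 2 + 2 / L * (Real.log 4 + 4) := by field_simp
      _ ≤ 2 + 2 / Real.log 2 * (Real.log 4 + 4) := by
          have : 2 / L ≤ 2 / Real.log 2 := div_le_div_of_nonneg_left (by norm_num) hl2 hL2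
          have := mul_le_mul_of_nonneg_right this hl4
          linarith
  have h6 : 1 + L ≤ (1 / Real.log 2 + 1) * L := by
    have : 1 ≤ 1 / Real.log 2 * L := by
      rw [one_div, inv_mul_eq_div, le_div_iff₀ hl2]
      linarith
    linarith
  calc ∏ p ∈ (range N).filter Nat.Prime, (1 - 1 / (p : ℝ))⁻¹ ≤ _ := h1
    _ ≤ (1 + L) * Real.exp (2 + 2 / Real.log 2 * (Real.log 4 + 4)) :=
        mul_le_mul h2 (Real.exp_le_exp.mpr h4) (Real.exp_pos _).le (by linarith)
    _ ≤ ((1 / Real.log 2 + 1) * L) * Real.exp (2 + 2 / Real.log 2 * (Real.log 4 + 4)) :=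
        mul_le_mul_of_nonneg_right h6 (Real.exp_pos _).le
    _ = _ := by ring

end Pool.Agent.MT
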