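import Pool.Agent.MT.ShQM
import Pool.Agent.MT.Alg

/-! Module SHALG (part A'): the quadratic form of two majorants.
`form_lamG` + `formG_diff` reduce to the kernel `Q0`; `∏ Q0` factors: the form is
`form (M0) (yy cl Y) (yy cl Y') · Σ_T z z' w(T)` (`Σ_T` = `Z0 (min L L')`); then `form_M0`.  Errors by `prod_add_sub`. -/

set_option autoImplicit false

namespace Pool.Agent.MT

open Finset

variable {ι : Type} [Fintype ι] [DecidableEq ι] {k : ℕ}

/-- colourings with marks are pairs (colouring, set of marked primes) -/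
def SHALG_eqv (ι : Type) [Fintype ι] [DecidableEq ι] (k : ℕ) :
    (ι → Col k) × Finset ι ≃ (ι → Col k × Bool) where
  toFun x p := (x.1 p, decide (p ∈ x.2))
  invFun f := (fun p => (f p).1, tset f)
  left_inv x := by
    refine Prod.ext rfl ?_
    ext p
    simp [tset]
  right_inv f := by
    funext p
    refine Prod.ext rfl ?_
    simp [tset]

theorem SHALG_sum (F : (ι → Col k × Bool) → ℝ) :
    ∑ f, F f = ∑ c : ι → Col k, ∑ T : Finset ι, F (fun p => (c p, decide (p ∈ T))) := by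
  rw [← (SHALG_eqv ι k).sum_comp, Fintype.sum_prod_type]
  rfl

theorem SHALG_tset (c : ι → Col k) (T : Finset ι) :
    tset (fun p => (c p, decide (p ∈ T))) = T := by
  ext p
  simp [tset]

theorem SHALG_yz (cl : Finset ι → ℕ) (Y : (Fin k → ℕ) → ℝ) (L : ℕ) (c : ι → Col k) (T : Finset ι) :
    yz cl Y L (fun p => (c p, decide (p ∈ T))) = yy cl Y c * (if cl T < L then 1 else 0) := by
  unfold yz
  rw [SHALG_tset]

theorem SHALG_Q0 (m : Fin k) (q : ι → ℝ) (c c' : ι → Col k) (T T' : Finset ι) :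
    ∏ p, Q0 m (q p) (c p, decide (p ∈ T)) (c' p, decide (p ∈ T')) =
      (∏ p, M0 m (q p) (c p) (c' p)) * (if T = T' then ∏ p ∈ T, 1 / (q p - 1) else 0) := by
  unfold Q0
  rw [Finset.prod_mul_distrib]
  congr 1
  by_cases h : T = T'
  · subst h
    rw [if_pos rfl]
    simp only [if_true]
    rw [← Finset.prod_filter_mul_prod_filter_not univ (fun p => p ∈ T)]
    have h1 : ∏ p ∈ univ.filter (fun p => p ∈ T), (if decide (p ∈ T) = true then 1 / (q p - 1) else 1) =
        ∏ p ∈ T, 1 / (q p - 1) := by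
      have : univ.filter (fun p => p ∈ T) = T := by ext; simp
      rw [this]
      refine Finset.prod_congr rfl fun p hp => ?_
      simp [hp]
    have h2 : ∏ p ∈ univ.filter (fun p => ¬ p ∈ T), (if decide (p ∈ T) = true then 1 / (q p - 1) else (1 : ℝ)) =
        1 := by
      refine Finset.prod_eq_one fun p hp => ?_
      simp [(Finset.mem_filter.1 hp).2]
    rw [h1, h2, mul_one]
  · rw [if_neg h]
    obtain ⟨p, hp⟩ : ∃ p, ¬ (p ∈ T ↔ p ∈ T') := by
      by_contra hc
      push Not at hc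
      exact h (Finset.ext hc)
    refine Finset.prod_eq_zero (Finset.mem_univ p) ?_
    rw [if_neg]
    simp only [decide_eq_decide]
    exact hp

theorem form_Q0 (m : Fin k) (q : ι → ℝ) (cl : Finset ι → ℕ) (Y Y' : (Fin k → ℕ) → ℝ) (L L' : ℕ) :
    formG (fun p => Q0 m (q p)) (yz cl Y L) (yz cl Y' L') =
      form (fun p => M0 m (q p)) (yy cl Y) (yy cl Y') * Z0 q cl (min L L') := by
  have hZ : Z0 q cl (min L L') = ∑ T : Finset ι,
      ((if cl T < L then 1 else 0) * (if cl T < L' then 1 else 0)) * ∏ p ∈ T, 1 / (q p - 1) := by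
    unfold Z0
    rw [Finset.sum_filter]
    refine Finset.sum_congr rfl fun T _ => ?_
    by_cases h1 : cl T < L <;> by_cases h2 : cl T < L' <;> simp [h1, h2]
  rw [hZ]
  unfold formG form
  rw [SHALG_sum]
  rw [Finset.sum_mul]
  refine Finset.sum_congr rfl fun c _ => ?_
  have h1 : ∀ T : Finset ι, ∑ b : ι → Col k × Bool, yz cl Y L (fun p => (c p, decide (p ∈ T))) * yz cl Y' L' b *
      ∏ p, Q0 m (q p) (c p, decide (p ∈ T)) (b p) =
      ∑ c' : ι → Col k, (yy cl Y c * yy cl Y' c' * ∏ p, M0 m (q p) (c p) (c' p)) *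
        (((if cl T < L then 1 else 0) * (if cl T < L' then 1 else 0)) * ∏ p ∈ T, 1 / (q p - 1)) := by
    intro T
    rw [SHALG_sum]
    refine Finset.sum_congr rfl fun c' _ => ?_
    simp only [SHALG_Q0, SHALG_yz]
    rw [Finset.sum_eq_single T]
    · rw [if_pos rfl]; ring
    · intro T' _ hT'
      rw [if_neg (Ne.symm hT')]; ring
    · intro h; exact absurd (Finset.mem_univ T) h
  simp only [h1]
  rw [Finset.sum_comm, Finset.sum_mul]
  refine Finset.sum_congr rfl fun c' _ => ?_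
  rw [Finset.mul_sum]

omit [DecidableEq ι] in
theorem SHALG_Z0_nonneg (q : ι → ℝ) (hq : ∀ p, 2 ≤ q p) (cl : Finset ι → ℕ) (L : ℕ) : 0 ≤ Z0 q cl L := by
  unfold Z0
  refine Finset.sum_nonneg fun T _ => Finset.prod_nonneg fun p _ => ?_
  have := hq p
  exact div_nonneg zero_le_one (by linarith)

omit [DecidableEq ι] in
theorem SHALG_Z0_le (q : ι → ℝ) (hq : ∀ p, 2 ≤ q p) (cl : Finset ι → ℕ) (L : ℕ) : Z0 q cl L ≤ PP q := by
  unfold Z0 PP
  have h1 : ∏ p, (1 + 1 / (q p - 1)) = ∑ T : Finset ι, ∏ p ∈ T, 1 / (q p - 1) := by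
    rw [Finset.prod_one_add]
    rw [Finset.powerset_univ]
  rw [h1]
  refine Finset.sum_le_sum_of_subset_of_nonneg (Finset.filter_subset _ _) fun T _ _ => ?_
  refine Finset.prod_nonneg fun p _ => ?_
  have := hq p
  exact div_nonneg zero_le_one (by linarith)

omit [DecidableEq ι] in
theorem SHALG_yy_bd (cl : Finset ι → ℕ) (M : ℕ) (s : ℝ) (Y : (Fin k → ℕ) → ℝ) (hY : Grid M s Y) (L : ℕ)
    (f : ι → Col k × Bool) : |yz cl Y L f| ≤ s := by
  unfold yz
  rw [abs_mul]
  have h1 : |yy cl Y (fun p => (f p).1)| ≤ s := hY.bd _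
  have h2 : |(if cl (tset f) < L then (1 : ℝ) else 0)| ≤ 1 := by
    split_ifs <;> simp
  calc _ ≤ s * 1 := mul_le_mul h1 h2 (abs_nonneg _) hY.s_nonneg
    _ = s := mul_one s

theorem alg3 (m : Fin k) (q : ι → ℝ) (hq : ∀ p, 2 ≤ q p) (cl : Finset ι → ℕ) (M : ℕ) (s s' : ℝ)
    (Y Y' : (Fin k → ℕ) → ℝ) (hY : Grid M s Y) (hY' : Grid M s' Y') (L L' : ℕ) :
    |form (fun p => K1 (q p)) (lam3 m q cl Y L) (lam3 m q cl Y' L') -
      T2 M (VV q cl) m Y Y' * Z0 q cl (min L L')| ≤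
      s * s' * (PP q ^ (k + 2) * (Real.exp (8 * ((k : ℝ) + 1) ^ 2 * EE q) + Real.exp (2 ^ (k + 1) * EE q) - 2)) := by
  have hk : 1 ≤ k := by have := m.2; omega
  have hs := hY.s_nonneg
  have hs' := hY'.s_nonneg
  have hPP1 : 1 ≤ PP q := PP_ge q hq
  have hEE := EE_nonneg q
  have e0 : form (fun p => K1 (q p)) (lam3 m q cl Y L) (lam3 m q cl Y' L') =
      formG (fun p => conjG (Em m (q p)) (K1 (q p))) (yz cl Y L) (yz cl Y' L') := by
    rw [form_eq]
    exact formG_lamG (fun p => Em m (q p)) (fun p => K1 (q p)) (yz cl Y L) (yz cl Y' L')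
  rw [e0]
  have h1 := formG_diff (fun p => conjG (Em m (q p)) (K1 (q p))) (fun p => Q0 (k := k) m (q p))
    (yz cl Y L) (yz cl Y' L') s s' (SHALG_yy_bd cl M s Y hY L) (SHALG_yy_bd cl M s' Y' hY' L')
  rw [form_Q0] at h1
  have h2 := form_M0 m q hq cl M s s' Y Y' hY hY'
  -- error 1
  have hw : ∀ p, 0 ≤ 1 / (q p - 1) := fun p => by
    have := hq p
    exact div_nonneg zero_le_one (by linarith)
  have hkw : ∀ p, 0 ≤ ((k : ℝ) - 1) / (q p - 1) := fun p => by
    have := hq p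
    have h1k : (1 : ℝ) ≤ k := by exact_mod_cast hk
    exact div_nonneg (by linarith) (by linarith)
  have hA : ∀ p, 1 ≤ ((1 + 1 / (q p - 1)) ^ 2 + (k - 1) / (q p - 1)) * (1 + 1 / (q p - 1)) := fun p => by
    have a1 := hw p
    have a2 := hkw p
    have a3 : 1 ≤ (1 + 1 / (q p - 1)) ^ 2 := one_le_pow₀ (by linarith)
    nlinarith
  have hprod : ∏ p, (((1 + 1 / (q p - 1)) ^ 2 + ((k : ℝ) - 1) / (q p - 1)) * (1 + 1 / (q p - 1))) ≤
      PP q ^ (k + 2) := by
    have hb := err2b q hq k hk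
    rw [Finset.prod_mul_distrib]
    have hbase : ∏ p, ((1 + 1 / (q p - 1)) ^ 2 + ((k : ℝ) - 1) / (q p - 1)) ≤ PP q ^ (k + 1) := by
      unfold PP
      rw [← Finset.prod_pow]
      refine Finset.prod_le_prod (fun p _ => by have := hw p; have := hkw p; positivity) fun p _ => ?_
      obtain ⟨j, rfl⟩ : ∃ j, k = j + 1 := ⟨k - 1, by omega⟩
      have hwp := hw p
      generalize hwd : 1 / (q p - 1) = w at hwp ⊢
      have g1 : ((j + 1 : ℕ) : ℝ) - 1 = j := by push_cast; ring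
      rw [g1]
      have g2 : (j : ℝ) / (q p - 1) = j * w := by rw [← hwd]; ring
      rw [g2]
      have g3 := one_add_mul_le_pow (a := w) (by linarith) j
      have g4 : (1 + w) ^ (j + 1 + 1) = (1 + w) ^ 2 * (1 + w) ^ j := by ring
      rw [g4]
      have g5 : 0 ≤ (j : ℝ) * w := by positivity
      calc (1 + w) ^ 2 + j * w ≤ (1 + w) ^ 2 * (1 + j * w) := by
            nlinarith [mul_nonneg hwp g5, mul_nonneg hwp (mul_nonneg hwp g5)]
        _ ≤ _ := mul_le_mul_of_nonneg_left g3 (by positivity)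
    have hp2 : ∏ p, (1 + 1 / (q p - 1)) = PP q := rfl
    rw [hp2, pow_succ (PP q) (k + 1)]
    exact mul_le_mul_of_nonneg_right hbase (by linarith)
  have h3 : ∏ p, ((∑ c, ∑ c', |Q0 (k := k) m (q p) c c'|) +
      ∑ c, ∑ c', |conjG (Em m (q p)) (K1 (q p)) c c' - Q0 (k := k) m (q p) c c'|) -
      ∏ p, ∑ c, ∑ c', |Q0 (k := k) m (q p) c c'| ≤
        PP q ^ (k + 2) * (Real.exp (8 * ((k : ℝ) + 1) ^ 2 * EE q) - 1) := by
    have ha := prod_add_sub
      (fun p => ((1 + 1 / (q p - 1)) ^ 2 + ((k : ℝ) - 1) / (q p - 1)) * (1 + 1 / (q p - 1)))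
      (fun p => 8 * ((k : ℝ) + 1) ^ 2 / (q p - 1) ^ 2) hA (fun p => by positivity)
    have hz : ∑ p, 8 * ((k : ℝ) + 1) ^ 2 / (q p - 1) ^ 2 = 8 * ((k : ℝ) + 1) ^ 2 * EE q := by
      unfold EE
      rw [Finset.mul_sum]
      exact Finset.sum_congr rfl fun p _ => by ring
    rw [hz] at ha
    have hexp : 0 ≤ Real.exp (8 * ((k : ℝ) + 1) ^ 2 * EE q) - 1 := by
      have : 0 ≤ 8 * ((k : ℝ) + 1) ^ 2 * EE q := by positivity
      have := Real.one_le_exp this
      linarith
    refine le_trans ?_ (ha.trans (mul_le_mul_of_nonneg_right hprod hexp))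
    simp only [sum_Q0 _ _ (hq _)]
    refine sub_le_sub_right (Finset.prod_le_prod (fun p _ => ?_) fun p _ => ?_) _
    · have := hA p
      have h0 : 0 ≤ ∑ c, ∑ c', |conjG (Em m (q p)) (K1 (q p)) c c' - Q0 (k := k) m (q p) c c'| :=
        Finset.sum_nonneg fun _ _ => Finset.sum_nonneg fun _ _ => abs_nonneg _
      linarith
    · have := sum_conj_Em (k := k) m (q p) (hq p)
      linarith
  -- error 2
  have h4 := err2b q hq k hk
  have hZ0 := SHALG_Z0_nonneg q hq cl (min L L')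
  have hZ1 := SHALG_Z0_le q hq cl (min L L')
  have hexp2 : 0 ≤ Real.exp (2 ^ (k + 1) * EE q) - 1 := by
    have : 0 ≤ 2 ^ (k + 1) * EE q := by positivity
    have := Real.one_le_exp this
    linarith
  have h5 : |form (fun p => M0 m (q p)) (yy cl Y) (yy cl Y') * Z0 q cl (min L L') -
      T2 M (VV q cl) m Y Y' * Z0 q cl (min L L')| ≤
      s * s' * (PP q ^ (k + 2) * (Real.exp (2 ^ (k + 1) * EE q) - 1)) := by
    rw [← sub_mul, abs_mul, abs_of_nonneg hZ0]
    calc _ ≤ (s * s' * (PP q ^ (k + 1) * (Real.exp (2 ^ (k + 1) * EE q) - 1))) * PP q := by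
          refine mul_le_mul (h2.trans (mul_le_mul_of_nonneg_left h4 (mul_nonneg hs hs'))) hZ1 hZ0 ?_
          positivity
      _ = _ := by rw [pow_succ (PP q) (k + 1)]; ring
  have h6 := mul_le_mul_of_nonneg_left h3 (mul_nonneg hs hs')
  calc _ ≤ |formG (fun p => conjG (Em m (q p)) (K1 (q p))) (yz cl Y L) (yz cl Y' L') -
        form (fun p => M0 m (q p)) (yy cl Y) (yy cl Y') * Z0 q cl (min L L')| +
      |form (fun p => M0 m (q p)) (yy cl Y) (yy cl Y') * Z0 q cl (min L L') -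
        T2 M (VV q cl) m Y Y' * Z0 q cl (min L L')| := abs_sub_le _ _ _
    _ ≤ _ := add_le_add (h1.trans h6) h5
    _ = _ := by ring

end Pool.Agent.MT
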