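import Pool.Agent.MT.ShQM
import Pool.Agent.MT.Box

/-! Module SHBOX (part A'): size and support of `lam3`; same proofs as in Box.lean (`t_m = L/M`). -/

set_option autoImplicit false

namespace Pool.Agent.MT

open Finset

variable {k : ℕ}

namespace SHBOXAux

open BOXAux

theorem lam3_supp (D N M : ℕ) (hN : 2 ≤ N) (hM : 1 ≤ M) (m : Fin k)
    (Y : (Fin k → ℕ) → ℝ) (L : ℕ) (a : Pr D N → Col k)
    (ha : lam3 m (qq D N) (cell M) Y L a ≠ 0) :
    ∃ v, Y v ≠ 0 ∧ ∀ i, (val (cset a i) : ℝ) <
      (N : ℝ) ^ (if i = m then (L : ℝ) / M else ((v i : ℝ) + 1) / M) := by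
  unfold lam3 lamG at ha
  obtain ⟨f, _, hf⟩ := Finset.exists_ne_zero_of_sum_ne_zero ha
  have hf1 : yz (cell M) Y L f ≠ 0 := left_ne_zero_of_mul hf
  have hf2 : ∏ p, Em m (qq D N p) (a p) (f p) ≠ 0 := right_ne_zero_of_mul hf
  rw [Finset.prod_ne_zero_iff] at hf2
  unfold yz at hf1
  have hf3 : yy (cell M) Y (fun p => (f p).1) ≠ 0 := left_ne_zero_of_mul hf1
  have hf4 : cell M (tset f) < L := by
    by_contra hcon
    apply right_ne_zero_of_mul hf1
    rw [if_neg hcon]
  have hN1 : (1 : ℝ) ≤ N := by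
    have : 1 ≤ N := by omega
    exact_mod_cast this
  refine ⟨fun i => cell M (cset (fun p => (f p).1) i), hf3, fun i => ?_⟩
  by_cases hi : i = m
  · rw [if_pos hi]
    have hsub : cset a i ⊆ tset f := by
      intro p hp
      unfold cset at hp
      unfold tset
      rw [Finset.mem_filter] at hp ⊢
      refine ⟨Finset.mem_univ _, ?_⟩
      have h := hf2 p (Finset.mem_univ p)
      unfold Em at h
      have h2 := right_ne_zero_of_mul h
      rw [hp.2, hi] at h2
      simp only [decide_true] at h2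
      cases hb : (f p).2 with
      | true => rfl
      | false =>
        rw [hb] at h2
        exact absurd rfl h2
    have h1 : (val (cset a i) : ℝ) ≤ (val (tset f) : ℝ) := by exact_mod_cast val_mono hsub
    refine (h1.trans_lt (cell_lt M hN hM (tset f))).trans_le ?_
    apply Real.rpow_le_rpow_of_exponent_le hN1
    have h3 : ((cell M (tset f) : ℝ) + 1) ≤ L := by exact_mod_cast hf4
    exact div_le_div_of_nonneg_right h3 (by positivity)
  · rw [if_neg hi]
    have hsub : cset a i ⊆ cset (fun p => (f p).1) i := by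
      intro p hp
      unfold cset at hp ⊢
      rw [Finset.mem_filter] at hp ⊢
      refine ⟨Finset.mem_univ _, ?_⟩
      have h := hf2 p (Finset.mem_univ p)
      unfold Em at h
      have h2 := left_ne_zero_of_mul h
      have hne : ¬ (some i : Col k) = some m := fun e => hi (Option.some.inj e)
      rw [hp.2, if_neg hne] at h2
      rcases Bm_ne h2 with h3 | h3
      · exact absurd h3 (by simp)
      · exact h3.symm
    have h1 : (val (cset a i) : ℝ) ≤ (val (cset (fun p => (f p).1) i) : ℝ) := by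
      exact_mod_cast val_mono hsub
    exact h1.trans_lt (cell_lt M hN hM _)

theorem lam3_le (D N M : ℕ) (hD : 2 ≤ D) (m : Fin k) (s : ℝ) (Y : (Fin k → ℕ) → ℝ) (hY : Grid M s Y)
    (L : ℕ) (a : Pr D N → Col k) :
    |lam3 m (qq D N) (cell M) Y L a| ≤ s * PP (qq D N) ^ (k + 1) := by
  have hs := s_nonneg hY
  have h0 : ∀ f : Pr D N → Col k × Bool, |yz (cell M) Y L f| ≤ s := by
    intro f
    unfold yz
    rw [abs_mul]
    split_ifs
    · rw [abs_one, mul_one]
      exact hY.bd _
    · rw [abs_zero, mul_zero]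
      exact hs
  have h1 := lamG_abs (fun p => Em m (qq D N p)) (yz (cell M) Y L) s h0 a
  refine h1.trans (mul_le_mul_of_nonneg_left ?_ hs)
  have hPP : 0 ≤ PP (qq D N) := le_trans zero_le_one (PP_ge (qq D N) fun p => qq_ge hD p)
  calc ∏ p, ∑ f, |Em m (qq D N p) (a p) f|
      ≤ ∏ p, ((1 + (k : ℝ) / (qq D N p - 1)) * (1 + 1 / (qq D N p - 1))) :=
        Finset.prod_le_prod (fun p _ => Finset.sum_nonneg fun c _ => abs_nonneg _)
          fun p _ => sum_Em m _ (qq_ge hD p) _
    _ = (∏ p, (1 + (k : ℝ) / (qq D N p - 1))) * PP (qq D N) := by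
        rw [Finset.prod_mul_distrib]
        rfl
    _ ≤ PP (qq D N) ^ k * PP (qq D N) :=
        mul_le_mul_of_nonneg_right (prodB (qq D N) (fun p => qq_ge hD p) k) hPP
    _ = PP (qq D N) ^ (k + 1) := by rw [pow_succ]

end SHBOXAux

open BOXAux SHBOXAux

theorem sum_lam3 (D N M : ℕ) (hD : 2 ≤ D) (hN : 2 ≤ N) (hM : 1 ≤ M) (m : Fin k) (s θ : ℝ) (Y : (Fin k → ℕ) → ℝ)
    (hY : Grid M s Y) (L : ℕ)
    (hθ : ∀ v, Y v ≠ 0 → ∑ i, (if i = m then (L : ℝ) / M else ((v i : ℝ) + 1) / M) ≤ θ) :
    ∑ a, |lam3 m (qq D N) (cell M) Y L a| ≤ (M : ℝ) ^ k * (N : ℝ) ^ θ * (s * PP (qq D N) ^ (k + 1)) := by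
  classical
  have hs := s_nonneg hY
  have hPP : 0 ≤ PP (qq D N) := le_trans zero_le_one (PP_ge (qq D N) fun p => qq_ge hD p)
  have hC : 0 ≤ s * PP (qq D N) ^ (k + 1) := by positivity
  have hN1 : (1 : ℝ) ≤ N := by
    have : 1 ≤ N := by omega
    exact_mod_cast this
  have hpt : ∀ a : Pr D N → Col k, |lam3 m (qq D N) (cell M) Y L a| ≤
      ∑ v ∈ (grid k M).filter (fun v => Y v ≠ 0),
        if (∀ i, (val (cset a i) : ℝ) <
          (N : ℝ) ^ (if i = m then (L : ℝ) / M else ((v i : ℝ) + 1) / M))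
        then s * PP (qq D N) ^ (k + 1) else 0 := by
    intro a
    have hnn : ∀ v ∈ (grid k M).filter (fun v => Y v ≠ 0), 0 ≤
        (if (∀ i, (val (cset a i) : ℝ) <
          (N : ℝ) ^ (if i = m then (L : ℝ) / M else ((v i : ℝ) + 1) / M))
        then s * PP (qq D N) ^ (k + 1) else 0) := by
      intro v _
      split_ifs
      · exact hC
      · exact le_rfl
    by_cases ha : lam3 m (qq D N) (cell M) Y L a = 0
    · rw [ha, abs_zero]
      exact Finset.sum_nonneg hnn
    · obtain ⟨v, hv, hlt⟩ := lam3_supp D N M hN hM m Y L a ha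
      have hvm : v ∈ (grid k M).filter (fun v => Y v ≠ 0) := by
        rw [Finset.mem_filter]
        refine ⟨?_, hv⟩
        unfold grid
        rw [Fintype.mem_piFinset]
        exact fun i => Finset.mem_range.mpr (hY.supp v hv i)
      have h1 := Finset.single_le_sum hnn hvm
      rw [if_pos hlt] at h1
      exact (lam3_le D N M hD m s Y hY L a).trans h1
  calc ∑ a, |lam3 m (qq D N) (cell M) Y L a|
      ≤ ∑ a : Pr D N → Col k, ∑ v ∈ (grid k M).filter (fun v => Y v ≠ 0),
        (if (∀ i, (val (cset a i) : ℝ) <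
          (N : ℝ) ^ (if i = m then (L : ℝ) / M else ((v i : ℝ) + 1) / M))
        then s * PP (qq D N) ^ (k + 1) else 0) := Finset.sum_le_sum fun a _ => hpt a
    _ = ∑ v ∈ (grid k M).filter (fun v => Y v ≠ 0), ∑ a : Pr D N → Col k,
        (if (∀ i, (val (cset a i) : ℝ) <
          (N : ℝ) ^ (if i = m then (L : ℝ) / M else ((v i : ℝ) + 1) / M))
        then s * PP (qq D N) ^ (k + 1) else 0) := Finset.sum_comm
    _ ≤ ∑ v ∈ (grid k M).filter (fun v => Y v ≠ 0),
        (N : ℝ) ^ θ * (s * PP (qq D N) ^ (k + 1)) := by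
        refine Finset.sum_le_sum fun v hv => ?_
        rw [← Finset.sum_filter, Finset.sum_const, nsmul_eq_mul]
        refine mul_le_mul_of_nonneg_right ?_ hC
        refine (card_box D N (by omega)
          (fun i => if i = m then (L : ℝ) / M else ((v i : ℝ) + 1) / M)).trans ?_
        exact Real.rpow_le_rpow_of_exponent_le hN1 (hθ v (Finset.mem_filter.mp hv).2)
    _ ≤ ∑ v ∈ grid k M, (N : ℝ) ^ θ * (s * PP (qq D N) ^ (k + 1)) := by
        refine Finset.sum_le_sum_of_subset_of_nonneg (Finset.filter_subset _ _) fun v _ _ => ?_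
        have : 0 ≤ (N : ℝ) ^ θ := Real.rpow_nonneg (by linarith) _
        positivity
    _ = (M : ℝ) ^ k * (N : ℝ) ^ θ * (s * PP (qq D N) ^ (k + 1)) := by
        rw [Finset.sum_const, nsmul_eq_mul]
        unfold grid
        rw [Fintype.card_piFinset]
        simp only [Finset.card_range, Finset.prod_const, Finset.card_univ, Fintype.card_fin]
        push_cast
        ring

end Pool.Agent.MT
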