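import Pool.Agent.MT.ShDefs

/-! Module SHPT (part A'): the pointwise majorant.  If `n + h_m` is a prime `≥ N`, no sieving prime divides it, so only
colourings without the colour `m` count, and for these `lam3 a = lamY a * Z0`. -/

set_option autoImplicit false

namespace Pool.Agent.MT

open Finset

variable {k : ℕ}

section
variable {ι : Type} [Fintype ι] [DecidableEq ι]

/-- colourings with marks are pairs (colouring, set of marked primes) -/
def SHPT_eqv (ι : Type) [Fintype ι] [DecidableEq ι] (k : ℕ) :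
    (ι → Col k) × Finset ι ≃ (ι → Col k × Bool) where
  toFun x p := (x.1 p, decide (p ∈ x.2))
  invFun f := (fun p => (f p).1, tset f)
  left_inv x := by
    refine Prod.ext rfl ?_
    ext p
    simp [tset]
  right_inv f := by
    funext p
    refine Prod.ext rfl ?_
    simp [tset]

theorem SHPT_sum (F : (ι → Col k × Bool) → ℝ) :
    ∑ f, F f = ∑ c : ι → Col k, ∑ T : Finset ι, F (fun p => (c p, decide (p ∈ T))) := by
  rw [← (SHPT_eqv ι k).sum_comp, Fintype.sum_prod_type]
  rfl

theorem SHPT_lam3 (m : Fin k) (q : ι → ℝ) (cl : Finset ι → ℕ) (Y : (Fin k → ℕ) → ℝ) (L : ℕ)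
    (a : ι → Col k) (ha : ∀ p, a p ≠ some m) :
    lam3 m q cl Y L a = Z0 q cl L * lam q (yy cl Y) a := by
  unfold lam3 lamG lam Z0
  rw [SHPT_sum, Finset.mul_sum]
  refine Finset.sum_congr rfl fun c _ => ?_
  rw [Finset.sum_filter, Finset.sum_mul]
  refine Finset.sum_congr rfl fun T _ => ?_
  have h1 : ∏ p, Em m (q p) (a p) (c p, decide (p ∈ T)) =
      (∏ p, Bm (q p) (a p) (c p)) * ∏ p ∈ T, 1 / (q p - 1) := by
    have h2 : ∀ p, Em m (q p) (a p) (c p, decide (p ∈ T)) =
        Bm (q p) (a p) (c p) * (if p ∈ T then 1 / (q p - 1) else 1) := by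
      intro p
      unfold Em
      rw [if_neg (ha p)]
      have h3 : decide (a p = some m) = false := by simp [ha p]
      rw [h3]
      by_cases hp : p ∈ T
      · simp [hp, bm]
      · simp [hp, bm]
    simp only [h2]
    rw [Finset.prod_mul_distrib, Finset.prod_ite_mem, Finset.univ_inter]
  rw [h1]
  have h4 : tset (fun p => (c p, decide (p ∈ T))) = T := by
    ext p
    simp [tset]
  unfold yz
  rw [h4]
  by_cases h5 : cl T < L
  · rw [if_pos h5, if_pos h5]; ring
  · rw [if_neg h5, if_neg h5]; ring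

end

theorem Lam3_prime (h : Fin k → ℕ) (D N M : ℕ) (m : Fin k) (Y : (Fin k → ℕ) → ℝ) (L n : ℕ) (hn : N ≤ n)
    (hp : (n + h m).Prime) :
    Lam3 h D N M m Y L n = Z0 (qq D N) (cell M) L * Lam h D N M Y n := by
  unfold Lam3 Lam
  rw [Finset.mul_sum]
  refine Finset.sum_congr rfl fun a _ => ?_
  by_cases ha : ∀ p, a p ≠ some m
  · rw [SHPT_lam3 m (qq D N) (cell M) Y L a ha, lamY]
    ring
  · push Not at ha
    obtain ⟨p, hpa⟩ := ha
    have h0 : ind h a n = 0 := by
      unfold ind
      rw [if_neg]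
      intro hall
      have hdvd := hall p m hpa
      have hmem := p.2
      unfold PrS at hmem
      rw [Finset.mem_filter, Finset.mem_range] at hmem
      have hpp : (p : ℕ).Prime := hmem.2.1
      rcases (Nat.dvd_prime hp).1 hdvd with h1 | h1
      · exact hpp.one_lt.ne' h1
      · have : (p : ℕ) < N := hmem.1
        omega
    rw [h0]
    ring

end Pool.Agent.MT
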