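import Pool.Agent.MT.TenG

/-! Part A' of MP_3509fd_nt (helper83): majorants for the outer shells (helper89's two-sided epsilon trick).
For a shell function `Y` and the index `m`, `lam3` are the weights of `Λ_Y^{(m)}(n) · ρ(n + h_m)`, where
`Λ^{(m)}` uses only divisors without the colour `m` and `ρ` is the one-dimensional Selberg sum with the
unnormalised weights `z(T) = 1_{cell T < L}`; for `n + h_m` prime it equals `Z0 · Λ_Y(n)`. -/

set_option autoImplicit false

namespace Pool.Agent.MT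

open Finset

/-- one-dimensional base change -/
noncomputable def bm (q : ℝ) : Bool → Bool → ℝ
  | false, false => 1
  | false, true => 1 / (q - 1)
  | true, false => 0
  | true, true => -(q / (q - 1))

/-- the linear map `(y, z) ↦ λ'` for one prime -/
noncomputable def Em {k : ℕ} (m : Fin k) (q : ℝ) (a : Col k) (f : Col k × Bool) : ℝ :=
  Bm q (if a = some m then none else a) f.1 * bm q (decide (a = some m)) f.2

/-- main part of `Emᵀ K1 Em` -/
noncomputable def Q0 {k : ℕ} (m : Fin k) (q : ℝ) (f f' : Col k × Bool) : ℝ :=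
  M0 m q f.1 f'.1 * (if f.2 = f'.2 then (if f.2 then 1 / (q - 1) else 1) else 0)

section abstr

variable {ι : Type} [Fintype ι] [DecidableEq ι] {k : ℕ}

/-- the set where a boolean function is true -/
def tset (f : ι → Col k × Bool) : Finset ι := univ.filter fun p => (f p).2 = true

/-- `y ⊗ z` -/
noncomputable def yz (cl : Finset ι → ℕ) (Y : (Fin k → ℕ) → ℝ) (L : ℕ) (f : ι → Col k × Bool) : ℝ :=
  yy cl Y (fun p => (f p).1) * (if cl (tset f) < L then 1 else 0)

/-- the weights of the majorant (unnormalised) -/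
noncomputable def lam3 (m : Fin k) (q : ι → ℝ) (cl : Finset ι → ℕ) (Y : (Fin k → ℕ) → ℝ) (L : ℕ) :
    (ι → Col k) → ℝ := lamG (fun p => Em m (q p)) (yz cl Y L)

/-- `Σ_{cell T < L} ∏_{p ∈ T} 1/(p-1)` -/
noncomputable def Z0 (q : ι → ℝ) (cl : Finset ι → ℕ) (L : ℕ) : ℝ :=
  ∑ T : Finset ι with cl T < L, ∏ p ∈ T, 1 / (q p - 1)

end abstr

/-- the majorant sum `Z0 · Λ^{(m)}(n) ρ(n + h_m)` -/
noncomputable def Lam3 {k : ℕ} (h : Fin k → ℕ) (D N M : ℕ) (m : Fin k) (Y : (Fin k → ℕ) → ℝ) (L : ℕ) (n : ℕ) : ℝ :=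
  ∑ a : Pr D N → Col k, lam3 m (qq D N) (cell M) Y L a * ind h a n

end Pool.Agent.MT
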