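import Pool.Agent.MT.ShDefs
import Pool.Agent.MT.Mat

/-! Module QM (part A'): per-prime matrix of the majorant.  With `x = 1/(q-1)`, `q/(q-1) = 1 + x`,
`1/q = x/(1+x)`: all entries are polynomials in `x`, and all differences to `Q0` are `≤ 2 x²`. -/

set_option autoImplicit false

namespace Pool.Agent.MT

open Finset

variable {k : ℕ}

namespace QMAux

theorem sum_Em_mul_none (m : Fin k) (q : ℝ) (β : Bool) (F : Col k → ℝ) :
    ∑ a, Em m q a (none, β) * F a = bm q false β * F none + bm q true β * F (some m) := by
  rw [Fintype.sum_option]
  have h1 : ∀ i : Fin k, Em m q (some i) (none, β) * F (some i) =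
      if i = m then bm q true β * F (some m) else 0 := by
    intro i
    by_cases hi : i = m
    · subst hi
      simp [Em, Bm]
    · have : (some i : Col k) ≠ some m := fun h => hi (Option.some.inj h)
      simp [Em, Bm, hi]
  simp only [h1, Finset.sum_ite_eq', Finset.mem_univ, if_true]
  simp [Em, Bm]

theorem sum_Em_mul_some (m : Fin k) (q : ℝ) (β : Bool) (j : Fin k) (F : Col k → ℝ) :
    ∑ a, Em m q a (some j, β) * F a = bm q false β * (1 / (q - 1) * F none -
      (if j = m then 0 else q / (q - 1) * F (some j))) + bm q true β * (1 / (q - 1)) * F (some m) := by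
  rw [Fintype.sum_option]
  have h1 : ∀ i : Fin k, Em m q (some i) (some j, β) * F (some i) =
      (if i = m then bm q true β * (1 / (q - 1)) * F (some m) else 0) +
      (if i = j then (if j = m then 0 else -(bm q false β * (q / (q - 1) * F (some j)))) else 0) := by
    intro i
    by_cases hi : i = m
    · subst hi
      by_cases hj : i = j
      · subst hj
        simp only [Em, Bm, if_true, decide_true]
        ring
      · simp only [Em, Bm, if_true, decide_true, if_neg hj]
        ring
    · by_cases hj : i = j
      · subst hj
        simp [Em, Bm, hi]
        ring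
      · simp [Em, Bm, hi, hj]
  simp only [h1, Finset.sum_add_distrib, Finset.sum_ite_eq', Finset.mem_univ, if_true]
  by_cases hj : j = m
  · simp [Em, Bm, hj]
    ring
  · simp [Em, Bm, hj]
    ring

theorem conjG_eq (m : Fin k) (q : ℝ) (K : Col k → Col k → ℝ) (f f' : Col k × Bool) :
    conjG (Em m q) K f f' = ∑ a, Em m q a f * ∑ b, Em m q b f' * K a b := by
  unfold conjG
  refine Finset.sum_congr rfl fun a _ => ?_
  rw [Finset.mul_sum]
  exact Finset.sum_congr rfl fun b _ => by ring

end QMAux

open QMAux

theorem conj_Em (m : Fin k) (q : ℝ) (hq : 2 ≤ q) (f f' : Col k × Bool) :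
    |conjG (Em m q) (K1 q) f f' - Q0 m q f f'| ≤ 2 / (q - 1) ^ 2 := by
  have hg : 0 < q - 1 := by linarith
  have hg1 : 1 ≤ q - 1 := by linarith
  have hq0 : 0 < q := by linarith
  obtain ⟨x, hx⟩ : ∃ x : ℝ, x = 1 / (q - 1) := ⟨_, rfl⟩
  have hx0 : 0 < x := by rw [hx]; positivity
  have hx1 : x ≤ 1 := by rw [hx, div_le_one hg]; exact hg1
  have e1 : q / (q - 1) = 1 + x := by rw [hx]; field_simp; ring
  have e2 : 1 / q = x / (1 + x) := by
    rw [← e1, hx]; field_simp
  have e3 : 2 / (q - 1) ^ 2 = 2 * x ^ 2 := by rw [hx]; field_simp
  have e4 : 1 / (q - 1) ^ 2 = x ^ 2 := by rw [hx]; field_simp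
  rw [conjG_eq, e3]
  have h1x : (1 + x) ≠ 0 := by positivity
  have hx2 : 0 ≤ x ^ 2 := by positivity
  have hx3 : 0 ≤ x ^ 3 := by positivity
  have hx4 : 0 ≤ x ^ 4 := by positivity
  have hx32 : x ^ 3 ≤ x ^ 2 := pow_le_pow_of_le_one hx0.le hx1 (by norm_num)
  have hx43 : x ^ 4 ≤ x ^ 3 := pow_le_pow_of_le_one hx0.le hx1 (by norm_num)
  obtain ⟨c, β⟩ := f
  obtain ⟨c', β'⟩ := f'
  have fin : ∀ D P : ℝ, D = P → -(2 * x ^ 2) ≤ P → P ≤ 2 * x ^ 2 → |D| ≤ 2 * x ^ 2 := by
    intro D P h h1 h2
    rw [h, abs_le]
    exact ⟨h1, h2⟩
  cases c with
  | none =>
    cases c' with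
    | none =>
      simp only [sum_Em_mul_none, Q0, M0, K1, bm, ← hx, e1, e2]
      cases β <;> cases β' <;>
        simp only [Bool.false_eq_true, reduceCtorEq, if_true, if_false] <;>
        refine fin _ 0 (by field_simp; ring) (by linarith) (by linarith)
    | some j =>
      simp only [sum_Em_mul_none, sum_Em_mul_some, Q0, M0, K1, bm, ← hx, e1, e2]
      by_cases hj : j = m
      · subst hj
        cases β <;> cases β'
        · simp only [Bool.false_eq_true, reduceCtorEq, if_true, if_false, true_and, not_true_eq_false]
          exact fin _ (0) (by field_simp; ring) (by linarith) (by linarith)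
        · simp only [Bool.false_eq_true, reduceCtorEq, if_true, if_false, true_and, not_true_eq_false]
          exact fin _ (0) (by field_simp; ring) (by linarith) (by linarith)
        · simp only [Bool.false_eq_true, reduceCtorEq, if_true, if_false, true_and, not_true_eq_false]
          exact fin _ (0) (by field_simp; ring) (by linarith) (by linarith)
        · simp only [Bool.false_eq_true, reduceCtorEq, if_true, if_false, true_and, not_true_eq_false]
          exact fin _ (0) (by field_simp; ring) (by linarith) (by linarith)
      · have hj' : ¬ m = j := fun h => hj h.symm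
        cases β <;> cases β'
        · simp only [hj, hj', Bool.false_eq_true, reduceCtorEq, if_true, if_false, true_and, not_true_eq_false]
          exact fin _ (0) (by field_simp; ring) (by linarith) (by linarith)
        · simp only [hj, hj', Bool.false_eq_true, reduceCtorEq, if_true, if_false, true_and, not_true_eq_false]
          exact fin _ (-x ^ 2) (by field_simp; ring) (by linarith) (by linarith)
        · simp only [hj, hj', Bool.false_eq_true, reduceCtorEq, if_true, if_false, true_and, not_true_eq_false]
          exact fin _ (-x ^ 2) (by field_simp; ring) (by linarith) (by linarith)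
        · simp only [hj, hj', Bool.false_eq_true, reduceCtorEq, if_true, if_false, true_and, not_true_eq_false]
          exact fin _ (x ^ 2 - x ^ 3) (by field_simp; ring) (by linarith) (by linarith)
  | some i =>
    cases c' with
    | none =>
      simp only [sum_Em_mul_none, sum_Em_mul_some, Q0, M0, K1, bm, ← hx, e1, e2]
      by_cases hi : i = m
      · subst hi
        cases β <;> cases β'
        · simp only [Bool.false_eq_true, reduceCtorEq, if_true, if_false, true_and, not_true_eq_false]
          exact fin _ (0) (by field_simp; ring) (by linarith) (by linarith)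
        · simp only [Bool.false_eq_true, reduceCtorEq, if_true, if_false, true_and, not_true_eq_false]
          exact fin _ (0) (by field_simp; ring) (by linarith) (by linarith)
        · simp only [Bool.false_eq_true, reduceCtorEq, if_true, if_false, true_and, not_true_eq_false]
          exact fin _ (0) (by field_simp; ring) (by linarith) (by linarith)
        · simp only [Bool.false_eq_true, reduceCtorEq, if_true, if_false, true_and, not_true_eq_false]
          exact fin _ (0) (by field_simp; ring) (by linarith) (by linarith)
      · have hi' : ¬ m = i := fun h => hi h.symm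
        cases β <;> cases β'
        · simp only [hi, hi', Bool.false_eq_true, reduceCtorEq, if_true, if_false, true_and, not_true_eq_false]
          exact fin _ (0) (by field_simp; ring) (by linarith) (by linarith)
        · simp only [hi, hi', Bool.false_eq_true, reduceCtorEq, if_true, if_false, true_and, not_true_eq_false]
          exact fin _ (-x ^ 2) (by field_simp; ring) (by linarith) (by linarith)
        · simp only [hi, hi', Bool.false_eq_true, reduceCtorEq, if_true, if_false, true_and, not_true_eq_false]
          exact fin _ (-x ^ 2) (by field_simp; ring) (by linarith) (by linarith)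
        · simp only [hi, hi', Bool.false_eq_true, reduceCtorEq, if_true, if_false, true_and, not_true_eq_false]
          exact fin _ (x ^ 2 - x ^ 3) (by field_simp; ring) (by linarith) (by linarith)
    | some j =>
      simp only [sum_Em_mul_some, Q0, M0, K1, bm, ← hx, e1, e2, e4]
      by_cases hi : i = m
      · subst hi
        by_cases hj : i = j
        · subst hj
          cases β <;> cases β'
          · simp only [Bool.false_eq_true, reduceCtorEq, if_true, if_false, true_and, not_true_eq_false]
            exact fin _ (0) (by field_simp; ring) (by linarith) (by linarith)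
          · simp only [Bool.false_eq_true, reduceCtorEq, if_true, if_false, true_and, not_true_eq_false]
            exact fin _ (0) (by field_simp; ring) (by linarith) (by linarith)
          · simp only [Bool.false_eq_true, reduceCtorEq, if_true, if_false, true_and, not_true_eq_false]
            exact fin _ (0) (by field_simp; ring) (by linarith) (by linarith)
          · simp only [Bool.false_eq_true, reduceCtorEq, if_true, if_false, true_and, not_true_eq_false]
            exact fin _ (0) (by field_simp; ring) (by linarith) (by linarith)
        · have hj' : ¬ j = i := fun h => hj h.symm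
          cases β <;> cases β'
          · simp only [hj, hj', Bool.false_eq_true, reduceCtorEq, if_true, if_false, true_and, not_true_eq_false]
            exact fin _ (0) (by field_simp; ring) (by linarith) (by linarith)
          · simp only [hj, hj', Bool.false_eq_true, reduceCtorEq, if_true, if_false, true_and, not_true_eq_false]
            exact fin _ (-x ^ 3) (by field_simp; ring) (by linarith) (by linarith)
          · simp only [hj, hj', Bool.false_eq_true, reduceCtorEq, if_true, if_false, true_and, not_true_eq_false]
            exact fin _ (-x ^ 3) (by field_simp; ring) (by linarith) (by linarith)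
          · simp only [hj, hj', Bool.false_eq_true, reduceCtorEq, if_true, if_false, true_and, not_true_eq_false]
            exact fin _ (x ^ 3 - x ^ 4) (by field_simp; ring) (by linarith) (by linarith)
      · have hi' : ¬ m = i := fun h => hi h.symm
        by_cases hj : j = m
        · subst hj
          cases β <;> cases β'
          · simp only [hi, hi', Bool.false_eq_true, reduceCtorEq, if_true, if_false, true_and, not_true_eq_false]
            exact fin _ (0) (by field_simp; ring) (by linarith) (by linarith)
          · simp only [hi, hi', Bool.false_eq_true, reduceCtorEq, if_true, if_false, true_and, not_true_eq_false]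
            exact fin _ (-x ^ 3) (by field_simp; ring) (by linarith) (by linarith)
          · simp only [hi, hi', Bool.false_eq_true, reduceCtorEq, if_true, if_false, true_and, not_true_eq_false]
            exact fin _ (-x ^ 3) (by field_simp; ring) (by linarith) (by linarith)
          · simp only [hi, hi', Bool.false_eq_true, reduceCtorEq, if_true, if_false, true_and, not_true_eq_false]
            exact fin _ (x ^ 3 - x ^ 4) (by field_simp; ring) (by linarith) (by linarith)
        · have hj' : ¬ m = j := fun h => hj h.symm
          by_cases hij : i = j
          · subst hij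
            cases β <;> cases β'
            · simp only [hi, hi', Bool.false_eq_true, reduceCtorEq, if_true, if_false, true_and, not_true_eq_false]
              exact fin _ (0) (by field_simp; ring) (by linarith) (by linarith)
            · simp only [hi, hi', Bool.false_eq_true, reduceCtorEq, if_true, if_false, true_and, not_true_eq_false]
              exact fin _ (x ^ 2 - x ^ 3) (by field_simp; ring) (by linarith) (by linarith)
            · simp only [hi, hi', Bool.false_eq_true, reduceCtorEq, if_true, if_false, true_and, not_true_eq_false]
              exact fin _ (x ^ 2 - x ^ 3) (by field_simp; ring) (by linarith) (by linarith)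
            · simp only [hi, hi', Bool.false_eq_true, reduceCtorEq, if_true, if_false, true_and, not_true_eq_false]
              exact fin _ (-x ^ 2 + 2 * x ^ 3 - x ^ 4) (by field_simp; ring) (by linarith) (by linarith)
          · have hij' : ¬ j = i := fun h => hij h.symm
            cases β <;> cases β'
            · simp only [hi, hi', hj, hj', hij, hij', Bool.false_eq_true, reduceCtorEq, if_true, if_false, true_and, not_true_eq_false]
              exact fin _ (-x ^ 2) (by field_simp; ring) (by linarith) (by linarith)
            · simp only [hi, hi', hj, hj', hij, hij', Bool.false_eq_true, reduceCtorEq, if_true, if_false, true_and, not_true_eq_false]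
              exact fin _ (-2 * x ^ 3) (by field_simp; ring) (by linarith) (by linarith)
            · simp only [hi, hi', hj, hj', hij, hij', Bool.false_eq_true, reduceCtorEq, if_true, if_false, true_and, not_true_eq_false]
              exact fin _ (-2 * x ^ 3) (by field_simp; ring) (by linarith) (by linarith)
            · simp only [hi, hi', hj, hj', hij, hij', Bool.false_eq_true, reduceCtorEq, if_true, if_false, true_and, not_true_eq_false]
              exact fin _ (x ^ 3 - 2 * x ^ 4) (by field_simp; ring) (by linarith) (by linarith)

theorem sum_conj_Em (m : Fin k) (q : ℝ) (hq : 2 ≤ q) :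
    ∑ f, ∑ f', |conjG (Em m q) (K1 q) f f' - Q0 m q f f'| ≤ 8 * ((k : ℝ) + 1) ^ 2 / (q - 1) ^ 2 := by
  calc ∑ f, ∑ f', |conjG (Em m q) (K1 q) f f' - Q0 m q f f'|
      ≤ ∑ _f : Col k × Bool, ∑ _f' : Col k × Bool, 2 / (q - 1) ^ 2 :=
        Finset.sum_le_sum fun f _ => Finset.sum_le_sum fun f' _ => conj_Em m q hq f f'
    _ = 8 * ((k : ℝ) + 1) ^ 2 / (q - 1) ^ 2 := by
        simp only [Finset.sum_const, Finset.card_univ, Fintype.card_prod, Fintype.card_option,
          Fintype.card_fin, Fintype.card_bool, nsmul_eq_mul]
        push_cast
        ring

theorem sum_Q0 (m : Fin k) (q : ℝ) (hq : 2 ≤ q) :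
    ∑ f, ∑ f', |Q0 m q f f'| = ((1 + 1 / (q - 1)) ^ 2 + (k - 1) / (q - 1)) * (1 + 1 / (q - 1)) := by
  have hg : 0 < q - 1 := by linarith
  have hx : 0 < 1 / (q - 1) := by positivity
  rw [← sum_M0 m q hq]
  have h1 : ∀ f f' : Col k × Bool, |Q0 m q f f'| = |M0 m q f.1 f'.1| *
      (if f.2 = f'.2 then (if f.2 then 1 / (q - 1) else 1) else 0) := by
    intro f f'
    unfold Q0
    rw [abs_mul]
    congr 1
    split_ifs <;> simp [abs_of_pos hg]
  simp only [h1]
  rw [Fintype.sum_prod_type]
  simp only [Fintype.sum_bool, Fintype.sum_prod_type]
  rw [Finset.sum_mul]
  refine Finset.sum_congr rfl fun c _ => ?_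
  rw [← Finset.sum_add_distrib, Finset.sum_mul]
  refine Finset.sum_congr rfl fun c' _ => ?_
  simp
  ring

theorem sum_Em (m : Fin k) (q : ℝ) (hq : 2 ≤ q) (a : Col k) :
    ∑ f, |Em m q a f| ≤ (1 + k / (q - 1)) * (1 + 1 / (q - 1)) := by
  have hg : 0 < q - 1 := by linarith
  have hq0 : 0 < q := by linarith
  have hb : ∀ b : Bool, |bm q b true| + |bm q b false| = 1 + 1 / (q - 1) := by
    intro b
    cases b
    · simp only [bm]
      rw [abs_of_pos (by positivity), abs_one]; ring
    · simp only [bm]
      rw [abs_neg, abs_of_pos (by positivity), abs_zero]
      field_simp; ring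
  rw [Fintype.sum_prod_type]
  simp only [Fintype.sum_bool, Em, abs_mul]
  have h1 : ∀ c : Col k, |Bm q (if a = some m then none else a) c| * |bm q (decide (a = some m)) true| +
      |Bm q (if a = some m then none else a) c| * |bm q (decide (a = some m)) false| =
      |Bm q (if a = some m then none else a) c| * (1 + 1 / (q - 1)) := by
    intro c
    rw [← mul_add, hb]
  simp only [h1]
  rw [← Finset.sum_mul]
  exact mul_le_mul_of_nonneg_right (sum_Bm q hq _) (by positivity)

end Pool.Agent.MT
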