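import Pool.Agent.MT.Defs

/-! General tensor lemmas (module TEN, helper83), arbitrary finite index types. -/

set_option autoImplicit false

namespace Pool.Agent.MT

open Finset

section
variable {ι α β : Type} [Fintype ι] [DecidableEq ι] [Fintype α] [Fintype β]

/-- weights from `u` by a per-prime linear map -/
noncomputable def lamG (E : ι → β → α → ℝ) (u : (ι → α) → ℝ) (a : ι → β) : ℝ :=
  ∑ f : ι → α, u f * ∏ p, E p (a p) (f p)

/-- bilinear form with tensor kernel -/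
noncomputable def formG (K : ι → α → α → ℝ) (x y : (ι → α) → ℝ) : ℝ :=
  ∑ a : ι → α, ∑ b : ι → α, x a * y b * ∏ p, K p (a p) (b p)

/-- `Eᵀ K E` for one prime -/
noncomputable def conjG (E : β → α → ℝ) (K : β → β → ℝ) (c c' : α) : ℝ :=
  ∑ a, ∑ b, E a c * K a b * E b c'

theorem sum_tensor (x : ι → α → ℝ) : ∑ f : ι → α, ∏ p, x p (f p) = ∏ p, ∑ c, x p c := by
  rw [Finset.prod_univ_sum, Fintype.piFinset_univ]

theorem sum_tensor2 (x : ι → α → β → ℝ) :
    ∑ f : ι → α, ∑ g : ι → β, ∏ p, x p (f p) (g p) = ∏ p, ∑ c, ∑ c', x p c c' := by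
  have h1 : ∀ f : ι → α, ∑ g : ι → β, ∏ p, x p (f p) (g p) = ∏ p, ∑ c', x p (f p) c' :=
    fun f => sum_tensor fun p c' => x p (f p) c'
  simp only [h1]
  exact sum_tensor fun p c => ∑ c', x p c c'

theorem formG_lamG (E : ι → β → α → ℝ) (K : ι → β → β → ℝ) (x y : (ι → α) → ℝ) :
    formG K (lamG E x) (lamG E y) = formG (fun p => conjG (E p) (K p)) x y := by
  unfold formG
  have h1 : ∀ f g : ι → α, ∏ p, conjG (E p) (K p) (f p) (g p) =
      ∑ a : ι → β, ∑ b : ι → β, ∏ p, (E p (a p) (f p) * K p (a p) (b p) * E p (b p) (g p)) := by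
    intro f g
    rw [sum_tensor2 fun p a b => E p a (f p) * K p a b * E p b (g p)]
    rfl
  simp only [h1, lamG, Finset.prod_mul_distrib]
  have h2 : ∀ a b : ι → β, (∑ f : ι → α, x f * ∏ p, E p (a p) (f p)) * (∑ f : ι → α, y f * ∏ p, E p (b p) (f p)) *
      ∏ p, K p (a p) (b p) = ∑ f : ι → α, ∑ g : ι → α, x f * y g *
        ((∏ p, E p (a p) (f p)) * (∏ p, K p (a p) (b p)) * ∏ p, E p (b p) (g p)) := by
    intro a b
    rw [Finset.sum_mul_sum, Finset.sum_mul]
    refine Finset.sum_congr rfl fun f _ => ?_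
    rw [Finset.sum_mul]
    refine Finset.sum_congr rfl fun g _ => ?_
    ring
  simp only [h2]
  have h3 : ∀ (T : (ι → β) → (ι → β) → (ι → α) → (ι → α) → ℝ),
      ∑ a, ∑ b, ∑ f, ∑ g, T a b f g = ∑ f, ∑ g, ∑ a, ∑ b, T a b f g := by
    intro T
    calc ∑ a, ∑ b, ∑ f, ∑ g, T a b f g = ∑ a, ∑ f, ∑ b, ∑ g, T a b f g :=
          Finset.sum_congr rfl fun a _ => Finset.sum_comm
      _ = ∑ f, ∑ a, ∑ b, ∑ g, T a b f g := Finset.sum_comm
      _ = ∑ f, ∑ a, ∑ g, ∑ b, T a b f g :=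
          Finset.sum_congr rfl fun f _ => Finset.sum_congr rfl fun a _ => Finset.sum_comm
      _ = ∑ f, ∑ g, ∑ a, ∑ b, T a b f g := Finset.sum_congr rfl fun f _ => Finset.sum_comm
  rw [h3]
  refine Finset.sum_congr rfl fun f _ => Finset.sum_congr rfl fun g _ => ?_
  rw [Finset.mul_sum]
  refine Finset.sum_congr rfl fun a _ => ?_
  rw [Finset.mul_sum]

omit [Fintype ι] [DecidableEq ι] in
theorem abs_prod_sub (s : Finset ι) (x z : ι → ℝ) :
    |∏ p ∈ s, (x p + z p) - ∏ p ∈ s, x p| ≤ ∏ p ∈ s, (|x p| + |z p|) - ∏ p ∈ s, |x p| := by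
  classical
  induction s using Finset.induction_on with
  | empty => simp
  | insert a s ha ih =>
    rw [Finset.prod_insert ha, Finset.prod_insert ha, Finset.prod_insert ha, Finset.prod_insert ha]
    have h1 : (x a + z a) * ∏ p ∈ s, (x p + z p) - x a * ∏ p ∈ s, x p =
        x a * (∏ p ∈ s, (x p + z p) - ∏ p ∈ s, x p) + z a * ∏ p ∈ s, (x p + z p) := by ring
    rw [h1]
    refine (abs_add_le _ _).trans ?_
    rw [abs_mul, abs_mul]
    have h2 : |∏ p ∈ s, (x p + z p)| ≤ ∏ p ∈ s, (|x p| + |z p|) := by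
      rw [Finset.abs_prod]
      exact Finset.prod_le_prod (fun _ _ => abs_nonneg _) fun p _ => abs_add_le _ _
    nlinarith [mul_le_mul_of_nonneg_left ih (abs_nonneg (x a)), mul_le_mul_of_nonneg_left h2 (abs_nonneg (z a))]

theorem formG_diff (K K' : ι → α → α → ℝ) (y y' : (ι → α) → ℝ) (s s' : ℝ)
    (hy : ∀ c, |y c| ≤ s) (hy' : ∀ c, |y' c| ≤ s') :
    |formG K y y' - formG K' y y'| ≤ s * s' *
      (∏ p, ((∑ c, ∑ c', |K' p c c'|) + ∑ c, ∑ c', |K p c c' - K' p c c'|) - ∏ p, ∑ c, ∑ c', |K' p c c'|) := by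
  unfold formG
  rw [← Finset.sum_sub_distrib]
  simp only [← Finset.sum_sub_distrib, ← mul_sub]
  refine (Finset.abs_sum_le_sum_abs _ _).trans ?_
  have hterm : ∀ a b : ι → α, |y a * y' b * (∏ p, K p (a p) (b p) - ∏ p, K' p (a p) (b p))| ≤
      s * s' * (∏ p, (|K' p (a p) (b p)| + |K p (a p) (b p) - K' p (a p) (b p)|) - ∏ p, |K' p (a p) (b p)|) := by
    intro a b
    rw [abs_mul, abs_mul]
    have hs : 0 ≤ s := (abs_nonneg _).trans (hy a)
    have hs' : 0 ≤ s' := (abs_nonneg _).trans (hy' b)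
    refine mul_le_mul (mul_le_mul (hy a) (hy' b) (abs_nonneg _) hs) ?_ (abs_nonneg _) (mul_nonneg hs hs')
    have := abs_prod_sub Finset.univ (fun p => K' p (a p) (b p)) (fun p => K p (a p) (b p) - K' p (a p) (b p))
    simpa only [add_sub_cancel] using this
  have h1 : ∑ a : ι → α, |∑ b : ι → α, y a * y' b * (∏ p, K p (a p) (b p) - ∏ p, K' p (a p) (b p))| ≤
      ∑ a : ι → α, ∑ b : ι → α, s * s' * (∏ p, (|K' p (a p) (b p)| + |K p (a p) (b p) - K' p (a p) (b p)|) -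
        ∏ p, |K' p (a p) (b p)|) :=
    Finset.sum_le_sum fun a _ => (Finset.abs_sum_le_sum_abs _ _).trans (Finset.sum_le_sum fun b _ => hterm a b)
  refine h1.trans (le_of_eq ?_)
  have h2 := sum_tensor2 (fun p (c c' : α) => |K' p c c'| + |K p c c' - K' p c c'|)
  have h3 := sum_tensor2 (fun p (c c' : α) => |K' p c c'|)
  simp only [Finset.sum_add_distrib] at h2
  simp only [← Finset.mul_sum, Finset.sum_sub_distrib]
  rw [h2, h3]

omit [Fintype β] in
theorem lamG_abs (E : ι → β → α → ℝ) (y : (ι → α) → ℝ) (s : ℝ) (hy : ∀ c, |y c| ≤ s) (a : ι → β) :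
    |lamG E y a| ≤ s * ∏ p, ∑ c, |E p (a p) c| := by
  unfold lamG
  refine (Finset.abs_sum_le_sum_abs _ _).trans ?_
  rw [← sum_tensor, Finset.mul_sum]
  refine Finset.sum_le_sum fun f _ => ?_
  rw [abs_mul, Finset.abs_prod]
  exact mul_le_mul_of_nonneg_right (hy f) (Finset.prod_nonneg fun _ _ => abs_nonneg _)

end

variable {ι : Type} [Fintype ι] [DecidableEq ι] {k : ℕ}

theorem form_eq (K : ι → Col k → Col k → ℝ) (x y : (ι → Col k) → ℝ) : form K x y = formG K x y := rfl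

theorem lam_eq (q : ι → ℝ) (y : (ι → Col k) → ℝ) : lam q y = lamG (fun p => Bm (q p)) y := rfl

end Pool.Agent.MT
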